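import Pool.Agent.Work.MP_de7025_lc.Lc

/-!
# Bounded recursion, addition
-/

set_option autoImplicit false

namespace Pool.Agent.Work.MP_de7025_lc

universe u

variable {D : Type u} {F : Frame D}

open Pool.Agent.Work.MP_de7025_lc.Frame

private theorem brec_step {a : D → D} {Φ : D → D → D → D}
    (ha : Lf F (n := 1) fun c => a (c 0)) (hΦ : Lf F (n := 3) fun c => Φ (c 0) (c 1) (c 2))
    {b : D} (hb : Nm F b)
    (hB : ∃ (B : Fn1 F) (c : D), Nm F c ∧ (∀ x, Le F x b → Le F (B x) c) ∧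
      (∀ q, Le F q b → Le F (a q) (B F.o)) ∧
      ∀ q x v, Le F q b → Lt F x b → Le F v (B x) → Le F (Φ q x v) (B (F.s x))) :
    ∃ (g : Fn2 F) (c : D), Nm F c ∧ (∀ q, Le F q b → g q F.o = a q) ∧
      (∀ q x, Le F q b → Lt F x b → g q (F.s x) = Φ q x (g q x)) ∧
      ∀ q x, Le F q b → Le F x b → Le F (g q x) c := by
  obtain ⟨B, c, hc, hB1, hB2, hB3⟩ := hB
  obtain ⟨d, hd, hbd, hcd⟩ := exists_max hb hc
  obtain ⟨a', ca, ha1, -, ha2⟩ := ha d hd
  obtain ⟨Φ', cΦ, hΦ1, -, hΦ2⟩ := hΦ d hd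
  obtain ⟨I, lt, ap, h, hI⟩ := hb
  have e1 : ∀ c : Fin 1 → D, (fun _ => c 0) = c := fun c => by
    funext i
    refine Fin.cases ?_ (fun j => j.elim0) i
    rfl
  have e3 : ∀ c : Fin 3 → D, ![c 0, c 1, c 2] = c := fun c => by
    funext i
    fin_cases i <;> rfl
  obtain ⟨g, hg1, hg2⟩ := h.recursion h.bot ⟨fun x => a' fun _ => x, ha1.congr fun c => by
    rw [e1]⟩ ⟨fun q x v => Φ' ![q, x, v], hΦ1.congr fun c => by rw [e3]⟩
  have h1 : ∀ q, Le F q b → g q F.o = a q := by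
    intro q hq
    rw [hg1 q]
    exact (ha2 (fun _ => q) fun _ => hq.trans hbd).1.symm
  obtain ⟨X, hX⟩ := cd_lt hc
  have h2 : ∀ q x, Le F q b → Lt F x b → Le F (g q x) (B x) →
      g q (F.s x) = Φ q x (g q x) := by
    intro q x hq hx hle
    have hxs := s_of_lt hx
    have h3 : Cov I lt x (F.s x) := h.cov_s ((h.le_iff hI).1 hxs).1
    rw [hg2 q x _ h3]
    refine (hΦ2 ![q, x, g q x] ?_).1.symm
    intro i
    fin_cases i
    · exact hq.trans hbd
    · exact hx.le.trans hbd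
    · exact hle.trans ((hB1 x hx.le).trans hcd)
  have key : ∀ q, Le F q b → ∀ x, Le F x b → Le F (g q x) (B x) := by
    intro q hq x hx
    have hiff : ∀ y, Le F y b → ((X (g q y) (B y) ∨ g q y = B y) ↔ Le F (g q y) (B y)) := by
      intro y hy
      rw [hX]
      constructor
      · rintro (⟨h3, -⟩ | h3)
        · exact h3.le
        · rw [h3]
          exact Le.refl (hB1 y hy).nm_left
      · rintro ⟨h3, h4 | h4⟩
        · exact Or.inl ⟨h4, hB1 y hy⟩
        · exact Or.inr h4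
    rw [← hiff x hx]
    refine nm_ind hx.nm_left ⟨fun y => X (g q y) (B y) ∨ g q y = B y, ?_⟩ ?_ ?_
    · apply_rules (transparency := .reducible) (maxDepth := 1000) [Cd'.or, Cd'.eq, Cd'.c2,
        Ft.proj, Ft.const, Ft.f1, Ft.f2]
    · refine (hiff _ (o_le hx.1)).2 ?_
      rw [h1 q hq]
      exact hB2 q hq
    · intro y hy h4
      have hyb := hy.trans_le hx
      have h5 := (hiff y hyb.le).1 h4
      refine (hiff _ (s_of_lt hyb)).2 ?_
      rw [h2 q y hq hyb h5]
      exact hB3 q y _ hq hyb h5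
  exact ⟨g, c, hc, h1, fun q x hq hx => h2 q x hq hx (key q hq x hx.le),
    fun q x hq hx => (key q hq x hx).trans (hB1 x hx)⟩

/-- bounded recursion -/
theorem brec {a : D → D} {Φ : D → D → D → D}
    (ha : Lf F (n := 1) fun c => a (c 0)) (hΦ : Lf F (n := 3) fun c => Φ (c 0) (c 1) (c 2))
    (hB : ∀ b, Nm F b → ∃ (B : Fn1 F) (c : D), Nm F c ∧ (∀ x, Le F x b → Le F (B x) c) ∧
      (∀ q, Le F q b → Le F (a q) (B F.o)) ∧
      ∀ q x v, Le F q b → Lt F x b → Le F v (B x) → Le F (Φ q x v) (B (F.s x))) :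
    ∃ f : D → D → D, Lf F (n := 2) (fun c => f (c 0) (c 1)) ∧ (∀ q, Nm F q → f q F.o = a q) ∧
      ∀ q x, Nm F q → Nm F x → f q (F.s x) = Φ q x (f q x) := by
  classical
  have hstep := fun b (hb : Nm F b) => brec_step ha hΦ hb (hB b hb)
  choose G cst hc h1 h2 h3 using hstep
  have uniq : ∀ b (hb : Nm F b) b' (hb' : Nm F b') q x, Le F q b → Le F q b' → Le F x b →
      Le F x b' → G b hb q x = G b' hb' q x := by
    intro b hb b' hb' q x hq hq' hx hx'
    refine nm_ind hx.nm_left ⟨fun y => G b hb q y = G b' hb' q y, ?_⟩ ?_ ?_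
    · apply_rules (transparency := .reducible) (maxDepth := 1000) [Cd'.or, Cd'.eq, Cd'.c2,
        Ft.proj, Ft.const, Ft.f1, Ft.f2]
    · show G b hb q F.o = G b' hb' q F.o
      rw [h1 b hb q hq, h1 b' hb' q hq']
    · intro y hy h4
      have h5 : G b hb q y = G b' hb' q y := h4
      show G b hb q (F.s y) = G b' hb' q (F.s y)
      rw [h2 b hb q y hq (hy.trans_le hx), h2 b' hb' q y hq' (hy.trans_le hx'), h5]
  let f : D → D → D := fun q x => if h : ∃ b, Nm F b ∧ Le F q b ∧ Le F x b then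
    G h.choose h.choose_spec.1 q x else F.o
  have hf : ∀ b (hb : Nm F b) q x, Le F q b → Le F x b → f q x = G b hb q x := by
    intro b hb q x hq hx
    have h4 : ∃ b, Nm F b ∧ Le F q b ∧ Le F x b := ⟨b, hb, hq, hx⟩
    show (if h : ∃ b, Nm F b ∧ Le F q b ∧ Le F x b then
      G h.choose h.choose_spec.1 q x else F.o) = _
    rw [dif_pos h4]
    exact uniq _ _ _ _ q x h4.choose_spec.2.1 hq h4.choose_spec.2.2 hx
  refine ⟨f, fun b hb => ⟨fun c => G b hb (c 0) (c 1), cst b hb, ?_, hc b hb, fun c hcb => ?_⟩,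
    fun q hq => ?_, fun q x hq hx => ?_⟩
  · exact Ft.f2 _ (Ft.proj 0) (Ft.proj 1)
  · refine ⟨hf b hb _ _ (hcb 0) (hcb 1), ?_⟩
    beta_reduce
    rw [hf b hb _ _ (hcb 0) (hcb 1)]
    exact h3 b hb _ _ (hcb 0) (hcb 1)
  · rw [hf q hq q F.o (Le.refl hq) (o_le hq)]
    exact h1 q hq q (Le.refl hq)
  · obtain ⟨b, hb, h4, h5⟩ := exists_max hq (nm_s hx)
    have h6 := (s_le_iff hx).1 h5
    rw [hf b hb q _ h4 h5, hf b hb q x h4 h6.le]
    exact h2 b hb q x h4 h6

/-! ### Addition -/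

namespace PW

variable {I : Cl1 F} {lt : Cl2 F} {ap : Fn2 F} {en : Fn1 F} (h : PW I lt ap en)

include h

theorem J_up {x y : D} (hx : I x) (hy : I y) :
    PJ I ap (F.up x y) ∧ ∀ j, Mem I ap j (F.up x y) ↔ j = x ∨ j = y := by
  have h1 := h.seg.sep (P := fun j => j = x ∨ j = y)
    (Cd'.or (Cd'.eq (Ft.proj 0) (Ft.const _)) (Cd'.eq (Ft.proj 0) (Ft.const _)))
  have e : (F.E fun j => I j ∧ (j = x ∨ j = y)) = F.up x y := E_congr fun j => by
    constructor
    · exact fun h2 => h2.2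
    · rintro (rfl | rfl)
      · exact ⟨hx, Or.inl rfl⟩
      · exact ⟨hy, Or.inr rfl⟩
  rw [e] at h1
  refine ⟨h1.1, fun j => ?_⟩
  rw [h1.2]
  constructor
  · exact fun h2 => h2.2
  · rintro (rfl | rfl)
    · exact ⟨hx, Or.inl rfl⟩
    · exact ⟨hy, Or.inr rfl⟩

theorem up_lt {b x y : D} (hb : I b) (hx : I x) (hy : I y) (hxy : lt x y) (hyb : lt y b) :
    Lt F (en (F.up b x)) (en (F.up b y)) := by
  have h1 := h.J_up hb hx
  have h2 := h.J_up hb hy
  refine (h.en_lt h1.1 h2.1).2 ⟨y, hy, ?_, (h2.2 y).2 (Or.inr rfl), fun j hj hlt => ?_⟩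
  · rw [h1.2]
    rintro (rfl | rfl)
    · exact h.seg.irr _ hb hyb
    · exact h.seg.irr _ hy hxy
  · rw [h1.2, h2.2]
    constructor
    · rintro (rfl | rfl)
      · exact Or.inl rfl
      · exact absurd (h.seg.trans _ _ _ hj hy hj hxy hlt) (h.seg.irr _ hj)
    · rintro (rfl | rfl)
      · exact Or.inl rfl
      · exact absurd hlt (h.seg.irr _ hj)

end PW

theorem exists_add (F : Frame D) :
    ∃ f : D → D → D, Lf F (n := 2) (fun c => f (c 0) (c 1)) ∧ (∀ q, Nm F q → f q F.o = q) ∧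
      ∀ q x, Nm F q → Nm F x → f q (F.s x) = F.s (f q x) := by
  refine brec (a := fun q => q) (Φ := fun _ _ v => F.s v) (Lf.proj 0) (Lf.s (Lf.proj 2))
    fun b hb => ?_
  obtain ⟨I, lt, ap, hI, hsb⟩ := nm_s hb
  obtain ⟨en, h⟩ := hI.pw
  have hcov := hI.cov_s hsb
  have mono : ∀ x y, Lt F x y → Le F y b →
      Lt F (en (F.up (F.s b) x)) (en (F.up (F.s b) y)) := by
    intro x y hxy hyb
    have h1 := (hI.le_iff hcov.1).1 hyb
    have h2 := (hI.lt_iff h1.1).1 hxy
    have h3 := (hI.lt_iff hsb).1 ((lt_s_iff_le hb).2 hyb)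
    exact h.up_lt hsb h2.1 h1.1 h2.2 h3.2
  refine ⟨⟨fun x => en (F.up (F.s b) x), ?_⟩, en (F.up (F.s b) b), ?_, ?_, ?_, ?_⟩
  · apply_rules (transparency := .reducible) (maxDepth := 1000) [Ft.proj, Ft.const, Ft.f1, Ft.up]
  · exact h.en_nm (h.J_up hsb hcov.1).1
  · rintro x ⟨-, hx | rfl⟩
    · exact (mono x b hx (Le.refl hb)).le
    · exact Le.refl (h.en_nm (h.J_up hsb hcov.1).1)
  · intro q hq
    show Le F q (en (F.up (F.s b) F.o))
    have h1 := h.J_s hsb
    have h2 := h.J_up hsb hI.bot.1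
    have h3 : Lt F (en (F.s (F.s b))) (en (F.up (F.s b) F.o)) := by
      refine (h.en_lt h1.1 h2.1).2 ⟨F.o, hI.bot.1, ?_, (h2.2 _).2 (Or.inr rfl),
        fun j hj hlt => ?_⟩
      · rw [h1.2]
        exact fun h4 => s_ne_o _ h4.symm
      · rw [h1.2, h2.2]
        constructor
        · exact Or.inl
        · rintro (h4 | rfl)
          · exact h4
          · exact absurd hlt (hI.irr _ hj)
    exact hq.trans ((lt_s hb).trans ((h.growth hsb).trans h3)).le
  · intro q x v hq hx hv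
    have hx' := s_of_lt hx
    have h1 : Lt F x (F.s x) := lt_s hx.nm_left
    exact s_of_lt (hv.trans_lt (mono _ _ h1 hx'))

/-- addition -/
noncomputable def add (F : Frame D) : D → D → D := (exists_add F).choose

theorem Lf.add {n : ℕ} {t s : (Fin n → D) → D} (ht : Lf F t) (hs : Lf F s) :
    Lf F fun a => add F (t a) (s a) :=
  Lf.app2 (exists_add F).choose_spec.1 ht hs

theorem add_o {x : D} (hx : Nm F x) : add F x F.o = x := (exists_add F).choose_spec.2.1 x hx

theorem add_s {x y : D} (hx : Nm F x) (hy : Nm F y) : add F x (F.s y) = F.s (add F x y) :=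
  (exists_add F).choose_spec.2.2 x y hx hy

theorem nm_add {x y : D} (hx : Nm F x) (hy : Nm F y) : Nm F (add F x y) := by
  have := Lf.nm (exists_add F).choose_spec.1 (a := ![x, y]) (by
    intro i
    fin_cases i
    · exact hx
    · exact hy)
  exact this

/-- induction with no parameter -/
theorem nind {P : D → Prop} (h : Lc F (n := 1) fun b => P (b 0)) (h0 : P F.o)
    (hs : ∀ x, Nm F x → P x → P (F.s x)) {x : D} (hx : Nm F x) : P x :=
  Lc.ind (n := 0) (Q := fun _ x => P x) h (a := ![]) (fun i => i.elim0) h0 hs hx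

/-- induction with one parameter -/
theorem nind1 {P : D → D → Prop} (h : Lc F (n := 2) fun b => P (b 1) (b 0)) {p : D}
    (hp : Nm F p) (h0 : P p F.o) (hs : ∀ x, Nm F x → P p x → P p (F.s x)) {x : D}
    (hx : Nm F x) : P p x :=
  Lc.ind (n := 1) (Q := fun a x => P (a 0) x) h (a := ![p]) (fun i => by
    fin_cases i
    exact hp) h0 hs hx

/-- induction with two parameters -/
theorem nind2 {P : D → D → D → Prop} (h : Lc F (n := 3) fun b => P (b 1) (b 2) (b 0)) {p q : D}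
    (hp : Nm F p) (hq : Nm F q) (h0 : P p q F.o)
    (hs : ∀ x, Nm F x → P p q x → P p q (F.s x)) {x : D} (hx : Nm F x) : P p q x :=
  Lc.ind (n := 2) (Q := fun a x => P (a 0) (a 1) x) h (a := ![p, q]) (fun i => by
    fin_cases i
    · exact hp
    · exact hq) h0 hs hx

theorem le_add {x y : D} (hx : Nm F x) (hy : Nm F y) : Le F x (add F x y) := by
  refine nind1 (P := fun x y => Le F x (add F x y)) (Lc.le (Lf.proj 1)
    (Lf.add (Lf.proj 1) (Lf.proj 0))) hx ?_ ?_ hy
  · rw [add_o hx]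
    exact Le.refl hx
  · intro y hy ih
    rw [add_s hx hy]
    exact ih.trans (lt_s (nm_add hx hy)).le

theorem s_lt_s {x y : D} (h : Lt F x y) : Lt F (F.s x) (F.s y) :=
  (lt_s_iff_le h.nm_right).2 (s_of_lt h)

theorem s_le_s {x y : D} (h : Le F x y) : Le F (F.s x) (F.s y) := by
  rcases h.2 with h1 | rfl
  · exact (s_lt_s h1).le
  · exact Le.refl (nm_s h.1)

theorem lt_or_eq_of_lt_s {x z : D} (hx : Nm F x) (h : Lt F z (F.s x)) : Lt F z x ∨ z = x :=
  (lt_s_iff (nm_s hx)).1 h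

theorem not_lt_o (x : D) : ¬ Lt F x F.o := fun h =>
  lt_irr x (h.trans_le (o_le h.nm_left))

/-- addition is strictly monotone in the second argument -/
theorem add_lt {x y z : D} (hx : Nm F x) (hyz : Lt F y z) : Lt F (add F x y) (add F x z) := by
  have h1 : Lt F y z → Lt F (add F x y) (add F x z) := by
    refine nind2 (P := fun x y z => Lt F y z → Lt F (add F x y) (add F x z)) ?_ hx hyz.nm_left
      ?_ ?_ hyz.nm_right
    · exact Lc.imp (Lc.lt (Lf.proj 2) (Lf.proj 0)) (Lc.lt (Lf.add (Lf.proj 1) (Lf.proj 2))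
        (Lf.add (Lf.proj 1) (Lf.proj 0)))
    · exact fun h => absurd h (not_lt_o _)
    · intro z hz ih h
      rw [add_s hx hz]
      rcases lt_or_eq_of_lt_s hz h with h2 | rfl
      · exact (ih h2).trans (lt_s (nm_add hx hz))
      · exact lt_s (nm_add hx hz)
  exact h1 hyz

theorem add_le_right {x y z : D} (hx : Nm F x) (hyz : Le F y z) :
    Le F (add F x y) (add F x z) := by
  rcases hyz.2 with h | rfl
  · exact (add_lt hx h).le
  · exact Le.refl (nm_add hx hyz.1)

theorem add_le_left {x y z : D} (hyz : Le F x y) (hz : Nm F z) :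
    Le F (add F x z) (add F y z) := by
  have hx := hyz.nm_left
  have hy := hyz.1
  refine nind2 (P := fun x y z => Le F (add F x z) (add F y z)) ?_ hx hy ?_ ?_ hz
  · exact Lc.le (Lf.add (Lf.proj 1) (Lf.proj 0)) (Lf.add (Lf.proj 2) (Lf.proj 0))
  · rw [add_o hx, add_o hy]
    exact hyz
  · intro z hz ih
    rw [add_s hx hz, add_s hy hz]
    exact s_le_s ih

theorem add_le_add {x y x' y' : D} (h : Le F x x') (h' : Le F y y') :
    Le F (add F x y) (add F x' y') :=
  (add_le_left h h'.nm_left).trans (add_le_right h.1 h')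

theorem s_add {x y : D} (hx : Nm F x) (hy : Nm F y) : add F (F.s x) y = F.s (add F x y) := by
  refine nind1 (P := fun x y => add F (F.s x) y = F.s (add F x y)) ?_ hx ?_ ?_ hy
  · exact Lc.eq (Lf.add (Lf.s (Lf.proj 1)) (Lf.proj 0)) (Lf.s (Lf.add (Lf.proj 1) (Lf.proj 0)))
  · rw [add_o hx, add_o (nm_s hx)]
  · intro y hy ih
    rw [add_s (nm_s hx) hy, add_s hx hy, ih]

theorem o_add {y : D} (hy : Nm F y) : add F F.o y = y := by
  refine nind (P := fun y => add F F.o y = y) ?_ ?_ ?_ hy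
  · exact Lc.eq (Lf.add (Lf.const nm_o) (Lf.proj 0)) (Lf.proj 0)
  · exact add_o nm_o
  · intro y hy ih
    rw [add_s nm_o hy, ih]

theorem le_add' {x y : D} (hx : Nm F x) (hy : Nm F y) : Le F y (add F x y) := by
  have := add_le_left (o_le hx) hy
  rwa [o_add hy] at this

/-- subtraction -/
theorem exists_add_eq {x y : D} (h : Le F x y) : ∃ z, Nm F z ∧ add F x z = y := by
  have hx := h.nm_left
  obtain ⟨z, h1, h2⟩ : ∃ z, Le F z y ∧ (Le F x y → add F x z = y) := by
    have hcd : Lc F (n := 2) fun b => ∀ z, Le F z (b 0) → ¬ (Le F (b 1) (b 0) → add F (b 1) z = b 0) := by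
      refine Lc.ball (Q := fun b z => ¬ (Le F (b 1) (b 0) → add F (b 1) z = b 0)) ?_ (Lf.proj 0)
      exact Lc.not (Lc.imp (Lc.le (Lf.proj 2) (Lf.proj 1)) (Lc.eq (Lf.add (Lf.proj 2) (Lf.proj 0)) (Lf.proj 1)))
    have hcd' : Lc F (n := 2) fun b => ∃ z, Le F z (b 0) ∧ (Le F (b 1) (b 0) → add F (b 1) z = b 0) :=
      hcd.not.congr fun a _ => by
        push Not
        rfl
    refine nind1 (P := fun x y => ∃ z, Le F z y ∧ (Le F x y → add F x z = y)) hcd' hx ?_ ?_ h.1
    · refine ⟨F.o, Le.refl nm_o, fun h1 => ?_⟩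
      rw [add_o hx]
      rcases h1.2 with h2 | h2
      · exact absurd h2 (not_lt_o _)
      · exact h2
    · rintro y hy ⟨z, h1, h2⟩
      rcases le_or_lt hx hy with h3 | h3
      · exact ⟨F.s z, s_le_s h1, fun _ => by rw [add_s hx h1.nm_left, h2 h3]⟩
      · refine ⟨F.o, o_le (nm_s hy), fun h4 => ?_⟩
        rw [add_o hx]
        rcases h4.2 with h5 | h5
        · exact absurd (h5.trans_le (s_of_lt h3)) (lt_irr _)
        · exact h5
  exact ⟨z, h1.nm_left, h2 h⟩

end Pool.Agent.Work.MP_de7025_lc
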