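import Pool.Agent.Work.MP_de7025_lc.Frame

/-!
# Coded classes and functions, pairing
-/

set_option autoImplicit false

namespace Pool.Agent.Work.MP_de7025_lc

universe u

variable {D : Type u} {F : Frame D}

/-- a coded set -/
structure Cl1 (F : Frame D) where
  /-- the set -/
  r : D → Prop
  cd : F.Cd' (n := 1) fun a => r (a 0)

/-- a coded binary relation -/
structure Cl2 (F : Frame D) where
  /-- the relation -/
  r : D → D → Prop
  cd : F.Cd' (n := 2) fun a => r (a 0) (a 1)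

/-- a coded ternary relation -/
structure Cl3 (F : Frame D) where
  /-- the relation -/
  r : D → D → D → Prop
  cd : F.Cd' (n := 3) fun a => r (a 0) (a 1) (a 2)

/-- a coded function -/
structure Fn1 (F : Frame D) where
  /-- the function -/
  f : D → D
  ft : F.Ft (n := 1) fun a => f (a 0)

/-- a coded binary function -/
structure Fn2 (F : Frame D) where
  /-- the function -/
  f : D → D → D
  ft : F.Ft (n := 2) fun a => f (a 0) (a 1)

/-- a coded ternary function -/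
structure Fn3 (F : Frame D) where
  /-- the function -/
  f : D → D → D → D
  ft : F.Ft (n := 3) fun a => f (a 0) (a 1) (a 2)

instance : CoeFun (Cl1 F) (fun _ => D → Prop) := ⟨Cl1.r⟩
instance : CoeFun (Cl2 F) (fun _ => D → D → Prop) := ⟨Cl2.r⟩
instance : CoeFun (Cl3 F) (fun _ => D → D → D → Prop) := ⟨Cl3.r⟩
instance : CoeFun (Fn1 F) (fun _ => D → D) := ⟨Fn1.f⟩
instance : CoeFun (Fn2 F) (fun _ => D → D → D) := ⟨Fn2.f⟩
instance : CoeFun (Fn3 F) (fun _ => D → D → D → D) := ⟨Fn3.f⟩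

namespace Frame

variable {n : ℕ}

theorem Cd'.c1 (X : Cl1 F) {t : (Fin n → D) → D} (ht : F.Ft t) : F.Cd' fun a => X (t a) :=
  Cd'.app1 X.cd ht

theorem Cd'.c2 (X : Cl2 F) {t s : (Fin n → D) → D} (ht : F.Ft t) (hs : F.Ft s) :
    F.Cd' fun a => X (t a) (s a) :=
  Cd'.app2 X.cd ht hs

theorem Cd'.c3 (X : Cl3 F) {t s r : (Fin n → D) → D} (ht : F.Ft t) (hs : F.Ft s) (hr : F.Ft r) :
    F.Cd' fun a => X (t a) (s a) (r a) :=
  Cd'.app3 X.cd ht hs hr

theorem Ft.f1 (f : Fn1 F) {t : (Fin n → D) → D} (ht : F.Ft t) : F.Ft fun a => f (t a) :=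
  Ft.app1 f.ft ht

theorem Ft.f2 (f : Fn2 F) {t s : (Fin n → D) → D} (ht : F.Ft t) (hs : F.Ft s) :
    F.Ft fun a => f (t a) (s a) :=
  Ft.app2 f.ft ht hs

theorem Ft.f3 (f : Fn3 F) {t s r : (Fin n → D) → D} (ht : F.Ft t) (hs : F.Ft s) (hr : F.Ft r) :
    F.Ft fun a => f (t a) (s a) (r a) :=
  Ft.app3 f.ft ht hs hr

open Classical in
theorem Ft.cond {P : (Fin n → D) → Prop} {t s : (Fin n → D) → D} (hP : F.Cd' P)
    (ht : F.Ft t) (hs : F.Ft s) : F.Ft fun a => if P a then t a else s a :=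
  Ft.ite hP ht hs

/-- two coded sets with the same extension are equal -/
theorem E_inj {P Q : D → Prop} (hP : F.Cd' (n := 1) fun a => P (a 0))
    (hQ : F.Cd' (n := 1) fun a => Q (a 0)) (h : F.E P = F.E Q) (x : D) : P x ↔ Q x :=
  F.inj' hP hQ h x

theorem E_congr {P Q : D → Prop} (h : ∀ x, P x ↔ Q x) : F.E P = F.E Q := by
  have : P = Q := funext fun x => propext (h x)
  rw [this]

/-! ### Zero, successor, pairs -/

/-- zero: the extension of the empty set -/
def o (F : Frame D) : D := F.E fun _ => False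

/-- successor: the extension of the singleton -/
def s (F : Frame D) (x : D) : D := F.E fun y => y = x

/-- the extension of the set of two objects -/
def up (F : Frame D) (x y : D) : D := F.E fun z => z = x ∨ z = y

/-- the ordered pair -/
def pr (F : Frame D) (x y : D) : D := F.up (F.s x) (F.up x y)

theorem Ft.s {t : (Fin n → D) → D} (ht : F.Ft t) : F.Ft fun a => F.s (t a) :=
  Ft.app1 (f := F.s) (Ft.abs (Q := fun a y => y = a 0) (Cd'.eq (Ft.proj 0) (Ft.proj 1))) ht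

theorem Ft.up {t r : (Fin n → D) → D} (ht : F.Ft t) (hr : F.Ft r) :
    F.Ft fun a => F.up (t a) (r a) :=
  Ft.app2 (f := F.up) (Ft.abs (Q := fun a y => y = a 0 ∨ y = a 1)
    (Cd'.or (Cd'.eq (Ft.proj 0) (Ft.proj 1)) (Cd'.eq (Ft.proj 0) (Ft.proj 2)))) ht hr

theorem Ft.pr {t r : (Fin n → D) → D} (ht : F.Ft t) (hr : F.Ft r) :
    F.Ft fun a => F.pr (t a) (r a) :=
  Ft.up (Ft.s ht) (Ft.up ht hr)

private theorem cd_sing (x : D) : F.Cd' (n := 1) fun a => a 0 = x :=
  Cd'.eq (Ft.proj 0) (Ft.const x)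

private theorem cd_up (x y : D) : F.Cd' (n := 1) fun a => a 0 = x ∨ a 0 = y :=
  Cd'.or (cd_sing x) (cd_sing y)

theorem s_inj {x y : D} (h : F.s x = F.s y) : x = y :=
  (E_inj (P := fun z => z = x) (Q := fun z => z = y) (cd_sing x) (cd_sing y) h x).1 rfl

theorem s_ne_o (x : D) : F.s x ≠ F.o := fun h =>
  (E_inj (P := fun z => z = x) (Q := fun _ => False) (cd_sing x) (Cd'.const False) h x).1 rfl

theorem up_inj {x y x' y' : D} (h : F.up x y = F.up x' y') :
    (x = x' ∧ y = y') ∨ (x = y' ∧ y = x') := by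
  have h1 := E_inj (P := fun z => z = x ∨ z = y) (Q := fun z => z = x' ∨ z = y') (cd_up x y)
    (cd_up x' y') h
  have hx := (h1 x).1 (Or.inl rfl)
  have hy := (h1 y).1 (Or.inr rfl)
  have hx' := (h1 x').2 (Or.inl rfl)
  have hy' := (h1 y').2 (Or.inr rfl)
  rcases hx with rfl | rfl
  · rcases hy with rfl | rfl
    · rcases hy' with rfl | rfl <;> exact Or.inl ⟨rfl, rfl⟩
    · exact Or.inl ⟨rfl, rfl⟩
  · rcases hy with rfl | rfl
    · exact Or.inr ⟨rfl, rfl⟩
    · rcases hx' with rfl | rfl <;> exact Or.inl ⟨rfl, rfl⟩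

theorem s_eq_up (x : D) : F.s x = F.up x x := E_congr fun z => by simp

theorem pr_inj {x y x' y' : D} (h : F.pr x y = F.pr x' y') : x = x' ∧ y = y' := by
  rcases up_inj h with ⟨h1, h2⟩ | ⟨h1, h2⟩
  · have h3 := s_inj h1
    subst h3
    rcases up_inj h2 with ⟨-, h4⟩ | ⟨h4, h5⟩
    · exact ⟨rfl, h4⟩
    · exact ⟨rfl, h5.trans h4⟩
  · rw [s_eq_up] at h1 h2
    rcases up_inj h1 with ⟨h3, h4⟩ | ⟨h3, h4⟩ <;> rcases up_inj h2 with ⟨h5, h6⟩ | ⟨h5, h6⟩
    · exact ⟨h3, h6.trans (h3.symm.trans h4)⟩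
    · exact ⟨h3, h6.trans (h3.symm.trans h4)⟩
    · exact ⟨h4, h6.trans (h4.symm.trans h3)⟩
    · exact ⟨h4, h6.trans (h4.symm.trans h3)⟩

open Classical in
/-- the first component -/
noncomputable def fst (F : Frame D) (t : D) : D := if h : ∃ l r, t = F.pr l r then h.choose else F.o

open Classical in
/-- the second component -/
noncomputable def snd (F : Frame D) (t : D) : D :=
  if h : ∃ l r, t = F.pr l r then h.choose_spec.choose else F.o

theorem fst_pr (l r : D) : F.fst (F.pr l r) = l := by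
  have h : ∃ l' r', F.pr l r = F.pr l' r' := ⟨l, r, rfl⟩
  unfold fst
  rw [dif_pos h]
  exact (pr_inj h.choose_spec.choose_spec).1.symm

theorem snd_pr (l r : D) : F.snd (F.pr l r) = r := by
  have h : ∃ l' r', F.pr l r = F.pr l' r' := ⟨l, r, rfl⟩
  unfold snd
  rw [dif_pos h]
  exact (pr_inj h.choose_spec.choose_spec).2.symm

theorem Ft.fst {t : (Fin n → D) → D} (ht : F.Ft t) : F.Ft fun a => F.fst (t a) := by
  refine Ft.app1 (f := F.fst) (Ft.ofGraph (Q := fun a y => (∃ r, a 0 = F.pr y r) ∨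
    ((¬ ∃ l, ∃ r, a 0 = F.pr l r) ∧ y = F.o)) ?_ fun a y => ?_) ht
  · apply_rules [Cd'.not, Cd'.and, Cd'.or, Cd'.ex, Cd'.eq, Ft.proj, Ft.const, Ft.pr]
  · by_cases h : ∃ l, ∃ r, a 0 = F.pr l r
    · obtain ⟨l, r, h⟩ := h
      rw [h, fst_pr]
      constructor
      · rintro (⟨r', h'⟩ | ⟨h', -⟩)
        · exact (pr_inj h').1.symm
        · exact absurd ⟨l, r, rfl⟩ h'
      · rintro rfl
        exact Or.inl ⟨r, rfl⟩
    · have e : F.fst (a 0) = F.o := by
        unfold Frame.fst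
        rw [dif_neg h]
      rw [e]
      constructor
      · rintro (⟨r', h'⟩ | ⟨-, h'⟩)
        · exact absurd ⟨y, r', h'⟩ h
        · exact h'
      · rintro rfl
        exact Or.inr ⟨h, rfl⟩

theorem Ft.snd {t : (Fin n → D) → D} (ht : F.Ft t) : F.Ft fun a => F.snd (t a) := by
  refine Ft.app1 (f := F.snd) (Ft.ofGraph (Q := fun a y => (∃ l, a 0 = F.pr l y) ∨
    ((¬ ∃ l, ∃ r, a 0 = F.pr l r) ∧ y = F.o)) ?_ fun a y => ?_) ht
  · apply_rules [Cd'.not, Cd'.and, Cd'.or, Cd'.ex, Cd'.eq, Ft.proj, Ft.const, Ft.pr]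
  · by_cases h : ∃ l, ∃ r, a 0 = F.pr l r
    · obtain ⟨l, r, h⟩ := h
      rw [h, snd_pr]
      constructor
      · rintro (⟨l', h'⟩ | ⟨h', -⟩)
        · exact (pr_inj h').2.symm
        · exact absurd ⟨l, r, rfl⟩ h'
      · rintro rfl
        exact Or.inl ⟨l, rfl⟩
    · have e : F.snd (a 0) = F.o := by
        unfold Frame.snd
        rw [dif_neg h]
      rw [e]
      constructor
      · rintro (⟨r', h'⟩ | ⟨-, h'⟩)
        · exact absurd ⟨r', y, h'⟩ h
        · exact h'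
      · rintro rfl
        exact Or.inr ⟨h, rfl⟩

end Frame

end Pool.Agent.Work.MP_de7025_lc
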