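import Pool.Agent.Work.MP_de7025_lc.Add

/-!
# Exponentiation and multiplication
-/

set_option autoImplicit false

namespace Pool.Agent.Work.MP_de7025_lc

universe u

variable {D : Type u} {F : Frame D}

open Pool.Agent.Work.MP_de7025_lc.Frame

/-- add a position -/
def ad (I : Cl1 F) (ap : Fn2 F) (c i : D) : D := F.E fun j => I j ∧ (Mem I ap j c ∨ j = i)

/-- remove a position -/
def rm (I : Cl1 F) (ap : Fn2 F) (c i : D) : D := F.E fun j => I j ∧ (Mem I ap j c ∧ j ≠ i)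

theorem ft_ad {n : ℕ} {I : Cl1 F} {ap : Fn2 F} {t r : (Fin n → D) → D} (ht : F.Ft t)
    (hr : F.Ft r) : F.Ft fun a => ad I ap (t a) (r a) := by
  refine Ft.app2 (f := ad I ap) ?_ ht hr
  exact Ft.abs (Q := fun a j => I j ∧ (Mem I ap j (a 0) ∨ j = a 1)) (by
    apply_rules (transparency := .reducible) (maxDepth := 1000) [Cd'.and, Cd'.or, Ft.proj, Cd'.eq,
      Cd'.c1, Cd'.c2])

namespace PW

variable {I : Cl1 F} {lt : Cl2 F} {ap : Fn2 F} {en : Fn1 F} (h : PW I lt ap en)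

include h

theorem J_ad {c i : D} (hc : PJ I ap c) (hi : I i) :
    PJ I ap (ad I ap c i) ∧ ∀ j, Mem I ap j (ad I ap c i) ↔ Mem I ap j c ∨ j = i := by
  have h1 := h.seg.sep (P := fun j => Mem I ap j c ∨ j = i) (by
    apply_rules (transparency := .reducible) (maxDepth := 1000) [Cd'.or, Cd'.not, Ft.proj,
      Ft.const, Cd'.c2, Cd'.eq])
  refine ⟨h1.1, fun j => ?_⟩
  show Mem I ap j (F.E fun j => I j ∧ (Mem I ap j c ∨ j = i)) ↔ _
  rw [h1.2]
  constructor
  · exact fun h2 => h2.2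
  · rintro (h2 | rfl)
    · exact ⟨Good.mem_I h2, Or.inl h2⟩
    · exact ⟨hi, Or.inr rfl⟩

theorem J_rm (c i : D) :
    PJ I ap (rm I ap c i) ∧ ∀ j, Mem I ap j (rm I ap c i) ↔ Mem I ap j c ∧ j ≠ i := by
  have h1 := h.seg.sep (P := fun j => Mem I ap j c ∧ j ≠ i) (by
    apply_rules (transparency := .reducible) (maxDepth := 1000) [Cd'.and, Cd'.not, Ft.proj,
      Ft.const, Cd'.c2, Cd'.eq])
  refine ⟨h1.1, fun j => ?_⟩
  show Mem I ap j (F.E fun j => I j ∧ (Mem I ap j c ∧ j ≠ i)) ↔ _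
  rw [h1.2]
  exact ⟨fun h2 => h2.2, fun h2 => ⟨Good.mem_I h2.1, h2⟩⟩

theorem lt_sing {c i : D} (hi : I i) :
    ltJ I lt ap c (F.s i) ↔ ∀ j, Mem I ap j c → lt j i := by
  have h1 := (h.J_s hi).2
  constructor
  · rintro ⟨m, hm, h2, h3, h4⟩ j hj
    rw [h1] at h3
    subst h3
    rcases h.seg.tot j m (Good.mem_I hj) hm with h5 | rfl | h5
    · exact h5
    · exact absurd hj h2
    · have := (h4 j (Good.mem_I hj) h5).1 hj
      rw [h1] at this
      subst this
      exact absurd hj h2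
  · intro h2
    refine ⟨i, hi, fun h3 => h.seg.irr _ hi (h2 i h3), (h1 i).2 rfl, fun j hj hlt => ?_⟩
    rw [h1]
    constructor
    · exact fun h3 => absurd (h.seg.trans _ _ _ hj hi hj (h2 j h3) hlt) (h.seg.irr _ hj)
    · rintro rfl
      exact absurd hlt (h.seg.irr _ hj)

/-- first half of the translation -/
private theorem halfA {c d i : D} (hc : PJ I ap c) (hi : I i) (hci : ∀ j, Mem I ap j c → lt j i)
    (hdi : ∀ j, Mem I ap j d → lt j i ∨ j = i) (hlt : ltJ I lt ap (ad I ap c i) d) :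
    Mem I ap i d ∧ ltJ I lt ap c (rm I ap d i) := by
  have h1 := (h.J_ad hc hi).2
  have h2 := (h.J_rm d i).2
  obtain ⟨k, hk, h3, h4, h5⟩ := hlt
  rw [h1] at h3
  push Not at h3
  have hki : lt k i := by
    rcases hdi k h4 with h6 | h6
    · exact h6
    · exact absurd h6 h3.2
  refine ⟨(h5 i hi hki).1 ((h1 i).2 (Or.inr rfl)), k, hk, h3.1, (h2 k).2 ⟨h4, h3.2⟩,
    fun j hj hkj => ?_⟩
  rw [h2, ← h5 j hj hkj, h1]
  constructor
  · intro h6
    refine ⟨Or.inl h6, ?_⟩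
    rintro rfl
    exact h.seg.irr _ hj (hci _ h6)
  · rintro ⟨h6 | h6, h7⟩
    · exact h6
    · exact absurd h6 h7

/-- second half of the translation -/
private theorem halfB {c d i : D} (hc : PJ I ap c) (hi : I i) (hci : ∀ j, Mem I ap j c → lt j i)
    (hid : Mem I ap i d) (hlt : ltJ I lt ap d (ad I ap c i)) :
    (∀ j, Mem I ap j d → lt j i ∨ j = i) ∧ ltJ I lt ap (rm I ap d i) c := by
  have h1 := (h.J_ad hc hi).2
  have h2 := (h.J_rm d i).2
  obtain ⟨m, hm, h3, h4, h5⟩ := hlt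
  rw [h1] at h4
  have hmc : Mem I ap m c := by
    rcases h4 with h6 | rfl
    · exact h6
    · exact absurd hid h3
  have hmi := hci m hmc
  refine ⟨fun j hj => ?_, m, hm, fun h6 => h3 ((h2 m).1 h6).1, hmc, fun j hj hmj => ?_⟩
  · rcases h.seg.tot j i (Good.mem_I hj) hi with h6 | h6 | h6
    · exact Or.inl h6
    · exact Or.inr h6
    · have h7 := (h5 j (Good.mem_I hj) (h.seg.trans _ _ _ hm hi (Good.mem_I hj) hmi h6)).1 hj
      rw [h1] at h7
      rcases h7 with h8 | h8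
      · exact Or.inl (hci j h8)
      · exact Or.inr h8
  · rw [h2, h5 j hj hmj, h1]
    constructor
    · rintro ⟨h6 | h6, h7⟩
      · exact h6
      · exact absurd h6 h7
    · intro h6
      refine ⟨Or.inl h6, ?_⟩
      rintro rfl
      exact h.seg.irr _ hj (hci _ h6)

theorem ad_lt {c c' i : D} (hc : PJ I ap c) (hc' : PJ I ap c') (hi : I i)
    (hci : ∀ j, Mem I ap j c → lt j i) (hci' : ∀ j, Mem I ap j c' → lt j i)
    (hlt : ltJ I lt ap c c') : ltJ I lt ap (ad I ap c i) (ad I ap c' i) := by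
  have h1 := (h.J_ad hc hi).2
  have h2 := (h.J_ad hc' hi).2
  obtain ⟨k, hk, h3, h4, h5⟩ := hlt
  refine ⟨k, hk, ?_, (h2 k).2 (Or.inl h4), fun j hj hkj => ?_⟩
  · rw [h1]
    rintro (h6 | rfl)
    · exact h3 h6
    · exact h.seg.irr _ hk (hci' _ h4)
  · rw [h1, h2, h5 j hj hkj]

/-- translation preserves immediate successors -/
theorem ad_cov {c c' i : D} (hi : I i) (hci : ∀ j, Mem I ap j c → lt j i)
    (hci' : ∀ j, Mem I ap j c' → lt j i) (hcov : Cov (PJ I ap) (ltJ I lt ap) c c') :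
    Cov (PJ I ap) (ltJ I lt ap) (ad I ap c i) (ad I ap c' i) := by
  have h1 := h.J_ad hcov.1 hi
  have h2 := h.J_ad hcov.2.1 hi
  refine ⟨h1.1, h2.1, h.ad_lt hcov.1 hcov.2.1 hi hci hci' hcov.2.2.1, ?_⟩
  rintro d hd ⟨h3, h4⟩
  have hid : Mem I ap i d := by
    by_contra hn
    obtain ⟨m, hm, h5, h6, h7⟩ := id h4
    rw [h2.2] at h6
    rcases h6 with h8 | rfl
    · exact hn ((h7 i hi (hci' m h8)).2 ((h2.2 i).2 (Or.inr rfl)))
    · refine hn (h.halfA hcov.1 hi hci (fun j hj => ?_) h3).1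
      rcases h.seg.tot j m (Good.mem_I hj) hi with h8 | h8 | h8
      · exact Or.inl h8
      · exact Or.inr h8
      · have h9 := (h7 j (Good.mem_I hj) h8).1 hj
        rw [h2.2] at h9
        rcases h9 with h10 | h10
        · exact Or.inl (hci' j h10)
        · exact Or.inr h10
  have h5 := h.halfB hcov.2.1 hi hci' hid h4
  have h6 := h.halfA hcov.1 hi hci h5.1 h3
  exact hcov.2.2.2 _ (h.J_rm d i).1 ⟨h6.2, h5.2⟩

/-- the step to the next power -/
theorem top_cov {c i : D} (hsi : I (F.s i)) (hcov : Cov (PJ I ap) (ltJ I lt ap) c (F.s i)) :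
    Cov (PJ I ap) (ltJ I lt ap) (ad I ap c i) (F.s (F.s i)) := by
  have hi := h.seg.cov_s hsi
  have hci := (h.lt_sing hi.1).1 hcov.2.2.1
  have h1 := h.J_ad hcov.1 hi.1
  refine ⟨h1.1, (h.J_s hsi).1, ?_, ?_⟩
  · refine (h.lt_sing hsi).2 fun j hj => ?_
    rw [h1.2] at hj
    rcases hj with h2 | rfl
    · exact (h.seg.lt_cov hi (Good.mem_I h2)).2 (Or.inl (hci j h2))
    · exact hi.2.2.1
  · rintro d hd ⟨h3, h4⟩
    have hdi : ∀ j, Mem I ap j d → lt j i ∨ j = i := fun j hj =>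
      (h.seg.lt_cov hi (Good.mem_I hj)).1 ((h.lt_sing hsi).1 h4 j hj)
    have h5 := h.halfA hcov.1 hi.1 hci hdi h3
    refine hcov.2.2.2 _ (h.J_rm d i).1 ⟨h5.2, (h.lt_sing hi.1).2 fun j hj => ?_⟩
    rw [(h.J_rm d i).2] at hj
    rcases hdi j hj.1 with h6 | h6
    · exact h6
    · exact absurd h6 hj.2

theorem en_one : en (F.s F.o) = F.s F.o := by
  have hcov : Cov (PJ I ap) (ltJ I lt ap) F.o (F.s F.o) := by
    have h0 := h.J_o
    refine ⟨h0.1, (h.J_s h.seg.bot.1).1, (h.lt_sing h.seg.bot.1).2 fun j hj =>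
      absurd hj (h0.2 j), ?_⟩
    rintro d hd ⟨⟨k, hk, -, h1, -⟩, h2⟩
    exact h.seg.bot.2 k hk ((h.lt_sing h.seg.bot.1).1 h2 k h1)
  have := h.isEn.succ _ _ hcov
  rwa [h.en_o] at this

/-- translation -/
theorem en_ad {c i : D} (hc : PJ I ap c) (hi : I i) (hci : ltJ I lt ap c (F.s i)) :
    en (ad I ap c i) = add F (en (F.s i)) (en c) := by
  have hb := h.en_nm (h.J_s hi).1
  obtain ⟨t', e, h1, -, h2⟩ := (Lf.add (F := F) (n := 2) (Lf.proj 0) (Lf.proj 1)) _ hb
  have e3 : ∀ c : Fin 2 → D, ![c 0, c 1] = c := fun c => by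
    funext i
    fin_cases i <;> rfl
  let g : Fn2 F := ⟨fun x y => t' ![x, y], h1.congr fun c => by rw [e3]⟩
  have hg : ∀ c, PJ I ap c → ltJ I lt ap c (F.s i) →
      add F (en (F.s i)) (en c) = g (en (F.s i)) (en c) := by
    intro c hc hci
    refine (h2 ![en (F.s i), en c] fun j => ?_).1
    fin_cases j
    · exact Le.refl hb
    · exact ((h.en_lt hc (h.J_s hi).1).2 hci).le
  rw [hg c hc hci]
  refine h.seg.ordJ.ind (P := fun c => ltJ I lt ap c (F.s i) →
    en (ad I ap c i) = g (en (F.s i)) (en c)) ?_ h.isBot_o ?_ ?_ hc hci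
  · apply_rules (transparency := .reducible) (maxDepth := 1000) [Cd'.imp, Cd'.eq, Cd'.c2,
      Ft.proj, Ft.const, Ft.f1, Ft.f2, ft_ad]
  · intro h3
    rw [← hg _ h.J_o.1 h3, h.en_o, add_o hb]
    have : ad I ap F.o i = F.s i := Good.ext (h.J_ad h.J_o.1 hi).1 (h.J_s hi).1 fun j _ => by
      rw [(h.J_ad h.J_o.1 hi).2, (h.J_s hi).2]
      constructor
      · rintro (h4 | h4)
        · exact absurd h4 (h.J_o.2 j)
        · exact h4
      · exact Or.inr
    rw [this]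
  · intro c c' hcov ih hc'
    have h3 : ltJ I lt ap c (F.s i) := h.seg.ltJ_trans hcov.2.2.1 hc'
    rw [← hg _ hcov.2.1 hc', h.isEn.succ _ _ hcov, add_s hb (h.en_nm hcov.1), hg _ hcov.1 h3,
      ← ih h3]
    exact h.isEn.succ _ _ (h.ad_cov hi ((h.lt_sing hi).1 h3) ((h.lt_sing hi).1 hc') hcov)

/-- doubling -/
theorem en_double {i : D} (hsi : I (F.s i)) :
    en (F.s (F.s i)) = add F (en (F.s i)) (en (F.s i)) := by
  have hi := (h.seg.cov_s hsi).1
  obtain ⟨c, hc⟩ := h.seg.ordJ.exists_pred (h.J_s hi).1 h.J_o.1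
    ((h.lt_sing hi).2 fun j hj => absurd hj (h.J_o.2 j))
  rw [h.isEn.succ _ _ (h.top_cov hsi hc), h.en_ad hc.1 hi hc.2.2.1,
    ← add_s (h.en_nm (h.J_s hi).1) (h.en_nm hc.1), ← h.isEn.succ _ _ hc]

end PW

theorem exists_exp (F : Frame D) :
    ∃ e : D → D, Lf F (n := 1) (fun c => e (c 0)) ∧ e F.o = F.s F.o ∧
      ∀ x, Nm F x → e (F.s x) = add F (e x) (e x) := by
  obtain ⟨f, h1, h2, h3⟩ := brec (F := F) (a := fun _ => F.s F.o) (Φ := fun _ _ v => add F v v)
    (Lf.const (nm_s nm_o)) (Lf.add (Lf.proj 2) (Lf.proj 2)) (by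
    intro b hb
    obtain ⟨I, lt, ap, hI, hIb⟩ := hb
    obtain ⟨en, h⟩ := hI.pw
    have hb := hI.nm hIb
    refine ⟨⟨fun x => en (F.s x), Ft.f1 en (Ft.s (Ft.proj 0))⟩, en (F.s b),
      h.en_nm (h.J_s hIb).1, ?_, ?_, ?_⟩
    · rintro x hx
      rcases (hI.le_iff hIb).1 hx with ⟨h1, h2 | rfl⟩
      · exact ((h.en_lt (h.J_s h1).1 (h.J_s hIb).1).2 ((h.s_lt h1 hIb).2 h2)).le
      · exact Le.refl (h.en_nm (h.J_s hIb).1)
    · intro q _
      show Le F (F.s F.o) (en (F.s F.o))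
      rw [h.en_one]
      exact Le.refl (nm_s nm_o)
    · intro q x v _ hx hv
      show Le F (add F v v) (en (F.s (F.s x)))
      have h1 := (hI.le_iff hIb).1 (s_of_lt hx)
      rw [h.en_double h1.1]
      exact add_le_add hv hv)
  refine ⟨fun x => f F.o x, Lf.app2 h1 (Lf.const nm_o) (Lf.proj 0), h2 F.o nm_o,
    fun x hx => h3 F.o x nm_o hx⟩

/-- base-two exponentiation -/
noncomputable def ex (F : Frame D) : D → D := (exists_exp F).choose

theorem Lf.ex {n : ℕ} {t : (Fin n → D) → D} (ht : Lf F t) : Lf F fun a => ex F (t a) :=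
  Lf.app1 (exists_exp F).choose_spec.1 ht

theorem ex_o (F : Frame D) : ex F F.o = F.s F.o := (exists_exp F).choose_spec.2.1

theorem ex_s {x : D} (hx : Nm F x) : ex F (F.s x) = add F (ex F x) (ex F x) :=
  (exists_exp F).choose_spec.2.2 x hx

theorem nm_ex {x : D} (hx : Nm F x) : Nm F (ex F x) :=
  Lf.nm (exists_exp F).choose_spec.1 (a := ![x]) (by
    intro i
    fin_cases i
    exact hx)

theorem lt_ex {x : D} (hx : Nm F x) : Lt F x (ex F x) := by
  refine nind (P := fun x => Lt F x (ex F x)) ?_ ?_ ?_ hx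
  · exact Lc.lt (Lf.proj 0) (Lf.ex (Lf.proj 0))
  · rw [ex_o]
    exact lt_s nm_o
  · intro x hx ih
    rw [ex_s hx]
    have h1 : Lt F F.o (ex F x) := (o_le hx).trans_lt ih
    have h2 := add_lt (nm_ex hx) h1
    rw [add_o (nm_ex hx)] at h2
    exact (s_of_lt ih).trans_lt h2

theorem exists_mul (F : Frame D) :
    ∃ f : D → D → D, Lf F (n := 2) (fun c => f (c 0) (c 1)) ∧ (∀ q, Nm F q → f q F.o = F.o) ∧
      ∀ q x, Nm F q → Nm F x → f q (F.s x) = add F (f q x) q := by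
  refine brec (a := fun _ => F.o) (Φ := fun q _ v => add F v q) (Lf.const nm_o)
    (Lf.add (Lf.proj 2) (Lf.proj 0)) fun b hb => ?_
  obtain ⟨t', c, h1, h2, h3⟩ := (Lf.ex (Lf.add (Lf.const hb) (Lf.proj 0)) :
    Lf F (n := 1) fun a => ex F (add F b (a 0))) b hb
  have e1 : ∀ c : Fin 1 → D, (fun _ => c 0) = c := fun c => by
    funext i
    refine Fin.cases ?_ (fun j => j.elim0) i
    rfl
  have h4 : ∀ x, Le F x b → ex F (add F b x) = t' (fun _ => x) ∧ Le F (ex F (add F b x)) c :=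
    fun x hx => h3 (fun _ => x) fun _ => hx
  refine ⟨⟨fun x => t' fun _ => x, h1.congr fun c => by rw [e1]⟩, c, h2, ?_, ?_, ?_⟩
  · intro x hx
    show Le F (t' fun _ => x) c
    rw [← (h4 x hx).1]
    exact (h4 x hx).2
  · intro q _
    show Le F F.o (t' fun _ => F.o)
    rw [← (h4 F.o (o_le hb)).1]
    exact o_le (nm_ex (nm_add hb nm_o))
  · intro q x v hq hx hv
    show Le F (add F v q) (t' fun _ => F.s x)
    have hv : Le F v (t' fun _ => x) := hv
    rw [← (h4 x hx.le).1] at hv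
    have hbx := nm_add hb hx.nm_left
    rw [← (h4 _ (s_of_lt hx)).1, add_s hb hx.nm_left, ex_s hbx]
    exact add_le_add hv (hq.trans ((le_add hb hx.nm_left).trans (lt_ex hbx).le))

/-- multiplication -/
noncomputable def mul (F : Frame D) : D → D → D := (exists_mul F).choose

theorem Lf.mul {n : ℕ} {t s : (Fin n → D) → D} (ht : Lf F t) (hs : Lf F s) :
    Lf F fun a => mul F (t a) (s a) :=
  Lf.app2 (exists_mul F).choose_spec.1 ht hs

theorem mul_o {x : D} (hx : Nm F x) : mul F x F.o = F.o := (exists_mul F).choose_spec.2.1 x hx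

theorem mul_s {x y : D} (hx : Nm F x) (hy : Nm F y) :
    mul F x (F.s y) = add F (mul F x y) x :=
  (exists_mul F).choose_spec.2.2 x y hx hy

theorem nm_mul {x y : D} (hx : Nm F x) (hy : Nm F y) : Nm F (mul F x y) := by
  have := Lf.nm (exists_mul F).choose_spec.1 (a := ![x, y]) (by
    intro i
    fin_cases i
    · exact hx
    · exact hy)
  exact this

end Pool.Agent.Work.MP_de7025_lc
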