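import Pool.Agent.Work.MP_de7025_lc.Thy
import Pool.Agent.Work.MP_de7025_lc.Exp

/-!
# The numbers of a frame form a model of EFA
-/

set_option autoImplicit false

namespace Pool.Agent.Work.MP_de7025_lc

universe u

open Pool.Agent.Work.MP_de7025_lc.Frame

variable {D : Type u}

/-- the numbers of a frame -/
noncomputable def NA (F : Frame D) : ArStr.{u} where
  C := {x : D // Nm F x}
  zero := ⟨F.o, nm_o⟩
  succ x := ⟨F.s x.1, nm_s x.2⟩
  add x y := ⟨add F x.1 y.1, nm_add x.2 y.2⟩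
  mul x y := ⟨mul F x.1 y.1, nm_mul x.2 y.2⟩
  exp x := ⟨ex F x.1, nm_ex x.2⟩
  le x y := Le F x.1 y.1

/-- values of terms in a frame -/
noncomputable def tv (F : Frame D) {n : ℕ} (a : Fin n → D) : ATm n → D
  | .var i => a i
  | .zero => F.o
  | .succ t => F.s (tv F a t)
  | .add t s => add F (tv F a t) (tv F a s)
  | .mul t s => mul F (tv F a t) (tv F a s)
  | .exp t => ex F (tv F a t)

/-- truth of bounded formulas in a frame -/
def fv (F : Frame D) : {n : ℕ} → BFm n → (Fin n → D) → Prop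
  | _, .eq t s, a => tv F a t = tv F a s
  | _, .le t s, a => Le F (tv F a t) (tv F a s)
  | _, .neg φ, a => ¬ fv F φ a
  | _, .and φ ψ, a => fv F φ a ∧ fv F ψ a
  | _, .ball t φ, a => ∀ y, Le F y (tv F a t) → fv F φ (Fin.cons y a)

theorem lf_tv (F : Frame D) {n : ℕ} (t : ATm n) : Lf F fun a : Fin n → D => tv F a t := by
  induction t with
  | var i => exact Lf.proj i
  | zero => exact Lf.const nm_o
  | succ t ih => exact Lf.s ih
  | add t s iht ihs => exact Lf.add iht ihs
  | mul t s iht ihs => exact Lf.mul iht ihs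
  | exp t ih => exact Lf.ex ih

theorem lc_fv (F : Frame D) {n : ℕ} (φ : BFm n) : Lc F fun a : Fin n → D => fv F φ a := by
  induction φ with
  | eq t s => exact Lc.eq (lf_tv F t) (lf_tv F s)
  | le t s => exact Lc.le (lf_tv F t) (lf_tv F s)
  | neg φ ih => exact Lc.not ih
  | and φ ψ ih1 ih2 => exact Lc.and ih1 ih2
  | ball t φ ih =>
    refine Lc.ball (Q := fun a y => fv F φ (Fin.cons y a)) (ih.congr fun a _ => ?_) (lf_tv F t)
    rw [show (Fin.cons (a 0) fun i => a (Fin.succ i)) = a from Fin.cons_self_tail a]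

theorem tv_eq (F : Frame D) {n : ℕ} (t : ATm n) (v : Fin n → (NA F).C) :
    (t.val (NA F) v).1 = tv F (fun i => (v i).1) t := by
  induction t with
  | var i => rfl
  | zero => rfl
  | succ t ih =>
    show F.s (t.val (NA F) v).1 = F.s _
    rw [ih]
  | add t s iht ihs =>
    show add F (t.val (NA F) v).1 (s.val (NA F) v).1 = add F _ _
    rw [iht, ihs]
  | mul t s iht ihs =>
    show mul F (t.val (NA F) v).1 (s.val (NA F) v).1 = mul F _ _
    rw [iht, ihs]
  | exp t ih =>
    show ex F (t.val (NA F) v).1 = ex F _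
    rw [ih]

theorem cons_val (F : Frame D) {n : ℕ} (x : (NA F).C) (v : Fin n → (NA F).C) :
    (fun i => ((Fin.cons x v : Fin (n + 1) → (NA F).C) i).1) =
      (Fin.cons x.1 fun i => (v i).1 : Fin (n + 1) → D) := by
  funext i
  refine Fin.cases ?_ (fun j => ?_) i
  · rfl
  · rfl

theorem fv_iff (F : Frame D) {n : ℕ} (φ : BFm n) (v : Fin n → (NA F).C) :
    φ.Holds (NA F) v ↔ fv F φ fun i => (v i).1 := by
  induction φ with
  | eq t s =>
    show t.val (NA F) v = s.val (NA F) v ↔ tv F _ t = tv F _ s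
    rw [← tv_eq, ← tv_eq]
    exact Subtype.ext_iff
  | le t s =>
    show Le F (t.val (NA F) v).1 (s.val (NA F) v).1 ↔ Le F (tv F _ t) (tv F _ s)
    rw [← tv_eq, ← tv_eq]
  | neg φ ih => exact not_congr (ih v)
  | and φ ψ ih1 ih2 => exact and_congr (ih1 v) (ih2 v)
  | ball t φ ih =>
    show (∀ x : (NA F).C, Le F x.1 (t.val (NA F) v).1 → φ.Holds (NA F) (Fin.cons x v)) ↔
      ∀ y, Le F y (tv F (fun i => (v i).1) t) → fv F φ (Fin.cons y fun i => (v i).1)
    rw [tv_eq]
    have key : ∀ x : (NA F).C, φ.Holds (NA F) (Fin.cons x v) ↔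
        fv F φ (Fin.cons x.1 fun i => (v i).1) := fun x => by rw [ih, cons_val]
    constructor
    · exact fun h y hy => (key ⟨y, hy.nm_left⟩).1 (h ⟨y, hy.nm_left⟩ hy)
    · exact fun h x hx => (key x).2 (h x.1 hx)

/-- the numbers of a frame form a model of EFA -/
theorem efa_NA (F : Frame D) : EFA (NA F) where
  succ_ne x h := s_ne_o x.1 (congrArg Subtype.val h)
  succ_inj x y h := Subtype.ext (s_inj (F := F) (congrArg Subtype.val h))
  pred x hx := by
    obtain ⟨y, hy, h1⟩ := exists_s x.2 fun h => hx (Subtype.ext h)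
    exact ⟨⟨y, hy⟩, Subtype.ext h1⟩
  add_zero x := Subtype.ext (add_o x.2)
  add_succ x y := Subtype.ext (add_s x.2 y.2)
  mul_zero x := Subtype.ext (mul_o x.2)
  mul_succ x y := Subtype.ext (mul_s x.2 y.2)
  le_iff x y := by
    constructor
    · intro h
      obtain ⟨z, hz, h1⟩ := exists_add_eq (F := F) h
      exact ⟨⟨z, hz⟩, Subtype.ext h1⟩
    · rintro ⟨z, rfl⟩
      exact le_add x.2 z.2
  exp_zero := Subtype.ext (ex_o F)
  exp_succ x := Subtype.ext (ex_s x.2)
  ind n φ v h0 hs x := by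
    have key : ∀ x : (NA F).C, φ.Holds (NA F) (Fin.cons x v) ↔
        fv F φ (Fin.cons x.1 fun i => (v i).1) := fun x => by rw [fv_iff, cons_val]
    rw [key] at h0 ⊢
    refine Lc.ind (F := F) (Q := fun a y => fv F φ (Fin.cons y a)) ?_ (fun i => (v i).2) h0 ?_ x.2
    · refine (lc_fv F φ).congr fun a _ => ?_
      rw [show (Fin.cons (a 0) fun i => a (Fin.succ i)) = a from Fin.cons_self_tail a]
    · intro y hy h1
      exact (key ⟨F.s y, nm_s hy⟩).1 (hs ⟨y, hy⟩ ((key ⟨y, hy⟩).2 h1))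

end Pool.Agent.Work.MP_de7025_lc
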