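import Pool.Agent.Work.MP_de7025_lc.Mod
import Pool.Agent.Work.MP_de7025_lc.Efa

/-!
# The formulas of the interpretation
-/

set_option autoImplicit false

namespace Pool.Agent.Work.MP_de7025_lc

universe u

open Pool.Agent.Work.MP_de7025_lc.Frame

/-! ### Formulas -/

/-- `X_i x` -/
def A0 (i x : ℕ) : Fm := .rel 0 i fun _ => .var x

/-- `R_i x y` -/
def A1 (i x y : ℕ) : Fm := .rel 1 i ![.var x, .var y]

/-- `R_i x y z` -/
def A2 (i x y z : ℕ) : Fm := .rel 2 i ![.var x, .var y, .var z]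

/-- disjunction -/
def Fm.or (φ ψ : Fm) : Fm := .imp (.neg φ) ψ

/-- `x = 0` -/
def fO (x : ℕ) : Fm := .exR 0 (.and (.all (.neg (A0 0 0))) (.eq (.var x) (.ext 0)))

/-- `y = s x` -/
def fS (x y : ℕ) : Fm :=
  .exR 0 (.and (.all (.iff (A0 0 0) (.eq (.var 0) (.var (x + 1))))) (.eq (.var y) (.ext 0)))

/-- the ternary relation `0` is the graph of a binary function -/
def fFn2 : Fm := .all (.all (.ex (.all (.iff (A2 0 0 3 2) (.eq (.var 0) (.var 1))))))

/-- the binary relation `0` is the graph of a function -/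
def fFn1 : Fm := .all (.ex (.all (.iff (A1 0 0 2) (.eq (.var 0) (.var 1)))))

/-- `X_0, R_0, T_0` is a segment -/
def fSeg : Fm :=
  .and (.all (.imp (A0 0 0) (.neg (A1 0 0 0))))
  (.and (.all (.all (.all (.imp (A0 0 2) (.imp (A0 0 1) (.imp (A0 0 0) (.imp (A1 0 2 1)
    (.imp (A1 0 1 0) (A1 0 2 0)))))))))
  (.and (.all (.all (.imp (A0 0 1) (.imp (A0 0 0) (.or (A1 0 1 0) (.or (.eq (.var 1) (.var 0))
    (A1 0 0 1)))))))
  (.and (.allR 0 (.imp (.ex (.and (A0 1 0) (A0 0 0))) (.ex (.and (A0 1 0) (.and (A0 0 0)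
    (.all (.imp (A0 1 0) (.imp (A0 0 0) (.neg (A1 0 0 1))))))))))
  (.and (.allR 0 (.imp (.ex (.and (A0 1 0) (A0 0 0))) (.ex (.and (A0 1 0) (.and (A0 0 0)
    (.all (.imp (A0 1 0) (.imp (A0 0 0) (.neg (A1 0 1 0))))))))))
  (.and (.allR 1 (.imp fFn1 (.ex (.all (.all (.imp (A0 0 1) (.imp (A2 0 0 2 1) (A1 0 0 1))))))))
  (.and (.all (.imp (fO 0) (.and (A0 0 0) (.all (.imp (A0 0 0) (.neg (A1 0 0 1)))))))
  (.all (.all (.imp (A0 0 1) (.imp (A0 0 0) (.imp (A1 0 1 0) (.imp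
    (.all (.imp (A0 0 0) (.neg (.and (A1 0 2 0) (A1 0 0 1))))) (fS 1 0)))))))))))))

/-- `x` is a number -/
def fN (x : ℕ) : Fm := .exR 0 (.exR 1 (.exR 2 (.and (A0 0 x) (.and fFn2 fSeg))))

/-- `x + y = z` -/
def fAdd (x y z : ℕ) : Fm :=
  .allR 1 (.imp (.and (.all (.imp (fO 0) (A1 0 0 (x + 1))))
    (.all (.all (.all (.all (.imp (A1 0 3 2) (.imp (fS 3 1) (.imp (fS 2 0) (A1 0 1 0)))))))))
    (A1 0 y z))

/-- `x * y = z` -/
def fMul (x y z : ℕ) : Fm :=
  .allR 1 (.imp (.and (.all (.imp (fO 0) (A1 0 0 0)))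
    (.all (.all (.all (.all (.imp (A1 0 3 2) (.imp (fAdd 2 (x + 4) 1)
      (.imp (fS 3 0) (A1 0 0 1))))))))) (A1 0 y z))

/-- `2 ^ x = z` -/
def fExp (x z : ℕ) : Fm :=
  .allR 1 (.imp (.and (.all (.all (.imp (fO 1) (.imp (fS 1 0) (A1 0 1 0)))))
    (.all (.all (.all (.all (.imp (A1 0 3 2) (.imp (fAdd 2 2 1)
      (.imp (fS 3 0) (A1 0 0 1))))))))) (A1 0 x z))

/-- `x ≤ y` -/
def fLe (x y : ℕ) : Fm := .ex (.and (fN 0) (fAdd (x + 1) 0 (y + 1)))

/-- the interpretation -/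
def theInterp : Interp where
  dom := fN 0
  zero := fO 0
  succ := fS 0 1
  add := fAdd 0 1 2
  mul := fMul 0 1 2
  exp := fExp 0 1
  le := fLe 0 1

/-! ### Their meaning -/

variable {M : Str.{u}}

@[simp] theorem holds_A0 (v : Asg M) (i x : ℕ) :
    (A0 i x).Holds v ↔ M.app (v.r 0 i) fun _ => v.o x := Iff.rfl

@[simp] theorem holds_A1 (v : Asg M) (i x y : ℕ) :
    (A1 i x y).Holds v ↔ M.app (v.r 1 i) ![v.o x, v.o y] := by
  have e : (fun j => ((![Tm.var x, Tm.var y] : Fin 2 → Tm) j).val v) = ![v.o x, v.o y] := by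
    funext j
    fin_cases j <;> rfl
  show M.app (v.r 1 i) (fun j => ((![Tm.var x, Tm.var y] : Fin 2 → Tm) j).val v) ↔ _
  rw [e]

@[simp] theorem holds_A2 (v : Asg M) (i x y z : ℕ) :
    (A2 i x y z).Holds v ↔ M.app (v.r 2 i) ![v.o x, v.o y, v.o z] := by
  have e : (fun j => ((![Tm.var x, Tm.var y, Tm.var z] : Fin 3 → Tm) j).val v) =
      ![v.o x, v.o y, v.o z] := by
    funext j
    fin_cases j <;> rfl
  show M.app (v.r 2 i) (fun j => ((![Tm.var x, Tm.var y, Tm.var z] : Fin 3 → Tm) j).val v) ↔ _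
  rw [e]

@[simp] theorem holds_or (v : Asg M) (φ ψ : Fm) :
    (Fm.or φ ψ).Holds v ↔ φ.Holds v ∨ ψ.Holds v := by
  simp only [Fm.or, Fm.holds_imp, Fm.holds_neg]
  tauto

variable (h : DeltaBL M)

/-- the class of a set of the model -/
noncomputable def c1 (X : M.Rel 0) : Cl1 (frame h) := ⟨fun x => M.app X fun _ => x, X, fun a => (app_one X a).symm⟩

theorem two_eta {D : Type u} (a : Fin 2 → D) : ![a 0, a 1] = a := by
  funext i
  fin_cases i <;> rfl

theorem three_eta {D : Type u} (a : Fin 3 → D) : ![a 0, a 1, a 2] = a := by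
  funext i
  fin_cases i <;> rfl

/-- the class of a binary relation of the model -/
noncomputable def c2 (R : M.Rel 1) : Cl2 (frame h) :=
  ⟨fun x y => M.app R ![x, y], R, fun a => by
    beta_reduce
    rw [two_eta]⟩

theorem exists_c1 (X : Cl1 (frame h)) : ∃ R : M.Rel 0, ∀ x, M.app R (fun _ => x) ↔ X x := by
  obtain ⟨R, hR⟩ := X.cd
  exact ⟨R, fun x => (hR fun _ => x).symm⟩

theorem exists_c2 (X : Cl2 (frame h)) : ∃ R : M.Rel 1, ∀ x y, M.app R ![x, y] ↔ X x y := by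
  obtain ⟨R, hR⟩ := X.cd
  exact ⟨R, fun x y => (hR ![x, y]).symm⟩

theorem exists_f1 (f : Fn1 (frame h)) : ∃ R : M.Rel 1, ∀ y x, M.app R ![y, x] ↔ y = f x := by
  obtain ⟨R, hR⟩ := f.ft.g
  exact ⟨R, fun y x => (hR ![y, x]).symm⟩

theorem exists_f2 (f : Fn2 (frame h)) :
    ∃ R : M.Rel 2, ∀ y a b, M.app R ![y, a, b] ↔ y = f a b := by
  obtain ⟨R, hR⟩ := f.ft.g
  exact ⟨R, fun y a b => (hR ![y, a, b]).symm⟩

theorem exists_of_fn1 {R : M.Rel 1} (hR : ∀ a, ∃ y, ∀ z, M.app R ![z, a] ↔ z = y) :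
    ∃ f : Fn1 (frame h), ∀ y a, M.app R ![y, a] ↔ y = f a := by
  choose f hf using hR
  refine ⟨⟨f, ⟨R, fun a => ?_⟩⟩, fun y a => hf a y⟩
  have := hf (a 1) (a 0)
  rw [two_eta] at this
  exact this.symm

theorem exists_of_fn2 {R : M.Rel 2} (hR : ∀ a b, ∃ y, ∀ z, M.app R ![z, a, b] ↔ z = y) :
    ∃ f : Fn2 (frame h), ∀ y a b, M.app R ![y, a, b] ↔ y = f a b := by
  choose f hf using hR
  refine ⟨⟨f, ⟨R, fun a => ?_⟩⟩, fun y a b => hf a b y⟩
  have := hf (a 1) (a 2) (a 0)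
  rw [three_eta] at this
  exact this.symm

@[simp] theorem holds_fO (v : Asg M) (x : ℕ) : (fO x).Holds v ↔ v.o x = (frame h).o := by
  simp only [fO, Fm.holds_exR, Fm.holds_and, Fm.holds_all, Fm.holds_neg, holds_A0, Asg.consO_r,
    Asg.consR_zero, Asg.consO_zero, Fm.holds_eq, Tm.val_var, Tm.val_ext, Asg.consR_o]
  have hE : ∀ X : M.Rel 0, (∀ x, ¬ M.app X fun _ => x) → (frame h).o = M.ext X := fun X hX =>
    ME_eq h fun x => ⟨fun h1 => h1.elim, fun h1 => hX x h1⟩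
  constructor
  · rintro ⟨X, h1, h2⟩
    rw [h2, hE X h1]
  · intro h1
    obtain ⟨X, hX⟩ := exists_c1 h ⟨fun _ => False, Cd'.const _⟩
    refine ⟨X, fun x hx => (hX x).1 hx, ?_⟩
    rw [h1, hE X fun x hx => (hX x).1 hx]

@[simp] theorem holds_fS (v : Asg M) (x y : ℕ) :
    (fS x y).Holds v ↔ v.o y = (frame h).s (v.o x) := by
  simp only [fS, Fm.holds_exR, Fm.holds_and, Fm.holds_all, Fm.holds_iff, holds_A0, Asg.consO_r,
    Asg.consR_zero, Asg.consO_zero, Asg.consO_succ, Fm.holds_eq, Tm.val_var, Tm.val_ext,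
    Asg.consR_o]
  have hE : ∀ X : M.Rel 0, (∀ z, (M.app X fun _ => z) ↔ z = v.o x) →
      (frame h).s (v.o x) = M.ext X := fun X hX => ME_eq h fun z => (hX z).symm
  constructor
  · rintro ⟨X, h1, h2⟩
    rw [h2, hE X h1]
  · intro h1
    obtain ⟨X, hX⟩ := exists_c1 h ⟨fun z => z = v.o x, Cd'.eq (Ft.proj 0) (Ft.const _)⟩
    refine ⟨X, hX, ?_⟩
    rw [h1, hE X hX]

/-- numbers are defined by `fN` -/
theorem holds_fN (v : Asg M) (x : ℕ) : (fN x).Holds v ↔ Nm (frame h) (v.o x) := by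
  simp only [fN, fSeg, fFn1, fFn2, Fm.holds_exR, Fm.holds_allR, Fm.holds_ex, Fm.holds_and,
    Fm.holds_all, Fm.holds_neg, Fm.holds_imp, Fm.holds_iff, holds_or, holds_A0, holds_A1, holds_A2,
    Asg.consO_r, Asg.consR_zero, Asg.consR_one, Asg.consR_01, Asg.consR_02, Asg.consR_10,
    Asg.consR_12, Asg.consR_20, Asg.consR_21, Asg.consO_zero, Asg.consO_one, Asg.consO_two,
    Asg.consO_three, Fm.holds_eq, Tm.val_var, Asg.consR_o, holds_fO h, holds_fS h]
  constructor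
  · rintro ⟨X, R, T, hx, hT, h1, h2, h3, h4, h5, h6, h7, h8⟩
    obtain ⟨ap, hap⟩ := exists_of_fn2 h hT
    refine ⟨c1 h X, c2 h R, ap, ⟨⟨⟨?_, h1, ?_, h3, ?_, ?_⟩, ?_⟩, ?_, ?_⟩, hx⟩
    · exact ⟨v.o x, hx⟩
    · exact h2
    · intro Y hY
      obtain ⟨S, hS⟩ := exists_c1 h Y
      have := h4 S (by
        obtain ⟨y, h9, h10⟩ := hY
        exact ⟨y, h9, (hS y).2 h10⟩)
      obtain ⟨m, h9, h10, h11⟩ := this
      exact ⟨m, h9, (hS m).1 h10, fun z hz hz' => h11 z hz ((hS z).2 hz')⟩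
    · intro Y hY
      obtain ⟨S, hS⟩ := exists_c1 h Y
      have := h5 S (by
        obtain ⟨y, h9, h10⟩ := hY
        exact ⟨y, h9, (hS y).2 h10⟩)
      obtain ⟨m, h9, h10, h11⟩ := this
      exact ⟨m, h9, (hS m).1 h10, fun z hz hz' => h11 z hz ((hS z).2 hz')⟩
    · intro g
      obtain ⟨G, hG⟩ := exists_f1 h g
      obtain ⟨f, hf⟩ := h6 G fun a => ⟨g a, fun z => hG z a⟩
      exact ⟨f, fun i hi => (hG _ _).1 (hf i (ap f i) hi ((hap _ _ _).2 rfl))⟩
    · exact h7 _ rfl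
    · intro a b hc
      exact h8 a b hc.1 hc.2.1 hc.2.2.1 hc.2.2.2
  · rintro ⟨I, lt, ap, hI, hx⟩
    obtain ⟨X, hX⟩ := exists_c1 h I
    obtain ⟨R, hR⟩ := exists_c2 h lt
    obtain ⟨T, hT⟩ := exists_f2 h ap
    refine ⟨X, R, T, (hX _).2 hx, fun a b => ⟨ap a b, fun z => hT z a b⟩, ?_⟩
    simp only [hX, hR, hT]
    refine ⟨hI.irr, hI.trans, hI.tot, ?_, ?_, ?_, ?_, ?_⟩
    · intro Y hY
      exact hI.min (c1 h Y) hY
    · intro Y hY
      exact hI.max (c1 h Y) hY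
    · intro G hG
      obtain ⟨g, hg⟩ := exists_of_fn1 h hG
      obtain ⟨f, hf⟩ := hI.code g
      refine ⟨f, fun i y hi hy => ?_⟩
      rw [hg, hy]
      exact hf i hi
    · rintro b rfl
      exact hI.bot
    · intro a b h1 h2 h3 h4
      exact hI.succ a b ⟨h1, h2, h3, h4⟩

/-- a class which traces a function up to `b` -/
theorem trace {F : Frame M.Obj} {f : M.Obj → M.Obj} (hf : Lf F (n := 1) fun c => f (c 0))
    {b : M.Obj} (hb : Nm F b) : ∃ G : Cl2 F, ∀ u w, G u w ↔ (Le F u b → w = f u) := by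
  obtain ⟨t', c, h1, -, h2⟩ := hf b hb
  obtain ⟨X, hX⟩ := cd_le hb
  have e1 : ∀ c : Fin 1 → M.Obj, (fun _ => c 0) = c := fun c => by
    funext i
    refine Fin.cases ?_ (fun j => j.elim0) i
    rfl
  let g : Fn1 F := ⟨fun x => t' fun _ => x, h1.congr fun c => by rw [e1]⟩
  refine ⟨⟨fun u w => X u → w = g u, ?_⟩, fun u w => ?_⟩
  · apply_rules (transparency := .reducible) (maxDepth := 1000) [Cd'.imp, Cd'.eq, Cd'.c1,
      Ft.proj, Ft.f1]
  · show (X u → w = g u) ↔ _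
    rw [hX]
    refine imp_congr_right fun hu => ?_
    have h3 : f u = g u := (h2 (fun _ => u) fun _ => hu).1
    rw [h3]

/-- the meaning of `fAdd` -/
def AddP (h : DeltaBL M) (a b c : M.Obj) : Prop :=
  ∀ G : M.Rel 1, (∀ w, w = (frame h).o → M.app G ![w, a]) ∧
    (∀ u w u' w', M.app G ![u, w] → u' = (frame h).s u → w' = (frame h).s w →
      M.app G ![u', w']) → M.app G ![b, c]

theorem holds_fAdd (v : Asg M) (x y z : ℕ) :
    (fAdd x y z).Holds v ↔ AddP h (v.o x) (v.o y) (v.o z) := by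
  simp only [fAdd, AddP, Fm.holds_allR, Fm.holds_and, Fm.holds_all, Fm.holds_imp, holds_A1,
    Asg.consO_r, Asg.consR_zero, Asg.consO_zero, Asg.consO_succ, Asg.consO_one, Asg.consO_two,
    Asg.consO_three, Asg.consR_o, holds_fO h, holds_fS h]

theorem addP_iff {a b c : M.Obj} (ha : Nm (frame h) a) (hb : Nm (frame h) b) :
    AddP h a b c ↔ c = add (frame h) a b := by
  constructor
  · intro h1
    obtain ⟨G, hG⟩ := trace (f := fun u => add (frame h) a u)
      (Lf.add (Lf.const ha) (Lf.proj 0)) hb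
    obtain ⟨R, hR⟩ := exists_c2 h G
    have h2 := h1 R ⟨?_, ?_⟩
    · rw [hR, hG] at h2
      exact h2 (Le.refl hb)
    · rintro w rfl
      rw [hR, hG]
      exact fun _ => (add_o ha).symm
    · rintro u w _ _ h3 rfl rfl
      rw [hR, hG] at h3 ⊢
      intro h4
      have hu : Nm (frame h) u := nm_pred h4.nm_left
      rw [h3 ((lt_s hu).trans_le h4).le, add_s ha hu]
  · rintro rfl R ⟨h1, h2⟩
    refine nind (F := frame h) (P := fun u => M.app R ![u, add (frame h) a u]) ?_ ?_ ?_ hb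
    · exact Lc.app2 (P := fun x y => M.app R ![x, y])
        (Cd'.lc (Cd'.c2 (c2 h R) (Ft.proj 0) (Ft.proj 1))) (Lf.proj 0)
        (Lf.add (Lf.const ha) (Lf.proj 0))
    · rw [add_o ha]
      exact h1 _ rfl
    · intro u hu ih
      rw [add_s ha hu]
      exact h2 _ _ _ _ ih rfl rfl

/-- the meaning of `fMul` -/
def MulP (h : DeltaBL M) (a b c : M.Obj) : Prop :=
  ∀ G : M.Rel 1, (∀ w, w = (frame h).o → M.app G ![w, w]) ∧
    (∀ u w w' u', M.app G ![u, w] → AddP h w a w' → u' = (frame h).s u →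
      M.app G ![u', w']) → M.app G ![b, c]

theorem holds_fMul (v : Asg M) (x y z : ℕ) :
    (fMul x y z).Holds v ↔ MulP h (v.o x) (v.o y) (v.o z) := by
  simp only [fMul, MulP, Fm.holds_allR, Fm.holds_and, Fm.holds_all, Fm.holds_imp, holds_A1,
    Asg.consO_r, Asg.consR_zero, Asg.consO_zero, Asg.consO_succ, Asg.consO_one, Asg.consO_two,
    Asg.consO_three, Asg.consR_o, holds_fO h, holds_fS h, holds_fAdd h]

theorem mulP_iff {a b c : M.Obj} (ha : Nm (frame h) a) (hb : Nm (frame h) b) :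
    MulP h a b c ↔ c = mul (frame h) a b := by
  constructor
  · intro h1
    obtain ⟨G, hG⟩ := trace (f := fun u => mul (frame h) a u)
      (Lf.mul (Lf.const ha) (Lf.proj 0)) hb
    obtain ⟨R, hR⟩ := exists_c2 h G
    have h2 := h1 R ⟨?_, ?_⟩
    · rw [hR, hG] at h2
      exact h2 (Le.refl hb)
    · rintro w rfl
      rw [hR, hG]
      exact fun _ => (mul_o ha).symm
    · rintro u w w' _ h3 h5 rfl
      rw [hR, hG] at h3 ⊢
      intro h4
      have hu : Nm (frame h) u := nm_pred h4.nm_left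
      have h6 := h3 ((lt_s hu).trans_le h4).le
      rw [h6, addP_iff h (nm_mul ha hu) ha] at h5
      rw [h5, mul_s ha hu]
  · rintro rfl R ⟨h1, h2⟩
    refine nind (F := frame h) (P := fun u => M.app R ![u, mul (frame h) a u]) ?_ ?_ ?_ hb
    · exact Lc.app2 (P := fun x y => M.app R ![x, y])
        (Cd'.lc (Cd'.c2 (c2 h R) (Ft.proj 0) (Ft.proj 1))) (Lf.proj 0)
        (Lf.mul (Lf.const ha) (Lf.proj 0))
    · rw [mul_o ha]
      exact h1 _ rfl
    · intro u hu ih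
      rw [mul_s ha hu]
      exact h2 _ _ _ _ ih ((addP_iff h (nm_mul ha hu) ha).2 rfl) rfl

/-- the meaning of `fExp` -/
def ExpP (h : DeltaBL M) (a c : M.Obj) : Prop :=
  ∀ G : M.Rel 1, (∀ u w, u = (frame h).o → w = (frame h).s u → M.app G ![u, w]) ∧
    (∀ u w w' u', M.app G ![u, w] → AddP h w w w' → u' = (frame h).s u →
      M.app G ![u', w']) → M.app G ![a, c]

theorem holds_fExp (v : Asg M) (x z : ℕ) :
    (fExp x z).Holds v ↔ ExpP h (v.o x) (v.o z) := by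
  simp only [fExp, ExpP, Fm.holds_allR, Fm.holds_and, Fm.holds_all, Fm.holds_imp, holds_A1,
    Asg.consO_r, Asg.consR_zero, Asg.consO_zero, Asg.consO_succ, Asg.consO_one, Asg.consO_two,
    Asg.consO_three, Asg.consR_o, holds_fO h, holds_fS h, holds_fAdd h]

theorem expP_iff {a c : M.Obj} (ha : Nm (frame h) a) :
    ExpP h a c ↔ c = ex (frame h) a := by
  constructor
  · intro h1
    obtain ⟨G, hG⟩ := trace (f := fun u => ex (frame h) u) (Lf.ex (Lf.proj 0)) ha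
    obtain ⟨R, hR⟩ := exists_c2 h G
    have h2 := h1 R ⟨?_, ?_⟩
    · rw [hR, hG] at h2
      exact h2 (Le.refl ha)
    · rintro _ _ rfl rfl
      rw [hR, hG]
      exact fun _ => (ex_o _).symm
    · rintro u w w' _ h3 h5 rfl
      rw [hR, hG] at h3 ⊢
      intro h4
      have hu : Nm (frame h) u := nm_pred h4.nm_left
      have h6 := h3 ((lt_s hu).trans_le h4).le
      rw [h6, addP_iff h (nm_ex hu) (nm_ex hu)] at h5
      rw [h5, ex_s hu]
  · rintro rfl R ⟨h1, h2⟩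
    refine nind (F := frame h) (P := fun u => M.app R ![u, ex (frame h) u]) ?_ ?_ ?_ ha
    · exact Lc.app2 (P := fun x y => M.app R ![x, y])
        (Cd'.lc (Cd'.c2 (c2 h R) (Ft.proj 0) (Ft.proj 1))) (Lf.proj 0) (Lf.ex (Lf.proj 0))
    · rw [ex_o]
      exact h1 _ _ rfl rfl
    · intro u hu ih
      rw [ex_s hu]
      exact h2 _ _ _ _ ih ((addP_iff h (nm_ex hu) (nm_ex hu)).2 rfl) rfl

theorem holds_fLe (v : Asg M) (x y : ℕ) (hx : Nm (frame h) (v.o x)) :
    (fLe x y).Holds v ↔ Le (frame h) (v.o x) (v.o y) := by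
  simp only [fLe, Fm.holds_ex, Fm.holds_and, holds_fN h, holds_fAdd h, Asg.consO_zero,
    Asg.consO_succ]
  constructor
  · rintro ⟨z, h1, h2⟩
    rw [(addP_iff h hx h1).1 h2]
    exact le_add hx h1
  · intro h1
    obtain ⟨z, hz, h2⟩ := exists_add_eq h1
    exact ⟨z, hz, (addP_iff h hx hz).2 h2.symm⟩

/-- the formulas define the numbers of the frame of the model -/
theorem defines (h : DeltaBL M) : Defines theInterp M (NA (frame h)) := by
  refine ⟨fun x => x.1, Subtype.val_injective, ?_, ?_, ?_, ?_, ?_, ?_, ?_⟩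
  · intro v
    show (fN 0).Holds v ↔ _
    rw [holds_fN h]
    constructor
    · exact fun h1 => ⟨⟨v.o 0, h1⟩, rfl⟩
    · rintro ⟨a, ha⟩
      rw [← ha]
      exact a.2
  · intro v a ha
    show (fO 0).Holds v ↔ _
    rw [holds_fO h, ha]
    constructor
    · exact fun h1 => Subtype.ext h1.symm
    · exact fun h1 => (congrArg Subtype.val h1).symm
  · intro v a b ha hb
    show (fS 0 1).Holds v ↔ _
    rw [holds_fS h, ha, hb]
    constructor
    · exact fun h1 => Subtype.ext h1.symm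
    · exact fun h1 => (congrArg Subtype.val h1).symm
  · intro v a b c ha hb hc
    show (fAdd 0 1 2).Holds v ↔ _
    rw [holds_fAdd h, ha, hb, hc, addP_iff h a.2 b.2]
    constructor
    · exact fun h1 => Subtype.ext h1.symm
    · exact fun h1 => (congrArg Subtype.val h1).symm
  · intro v a b c ha hb hc
    show (fMul 0 1 2).Holds v ↔ _
    rw [holds_fMul h, ha, hb, hc, mulP_iff h a.2 b.2]
    constructor
    · exact fun h1 => Subtype.ext h1.symm
    · exact fun h1 => (congrArg Subtype.val h1).symm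
  · intro v a b ha hb
    show (fExp 0 1).Holds v ↔ _
    rw [holds_fExp h, ha, hb, expP_iff h a.2]
    constructor
    · exact fun h1 => Subtype.ext h1.symm
    · exact fun h1 => (congrArg Subtype.val h1).symm
  · intro v a b ha hb
    show (fLe 0 1).Holds v ↔ _
    rw [holds_fLe h _ _ _ (by rw [ha]; exact a.2), ha, hb]
    exact Iff.rfl

end Pool.Agent.Work.MP_de7025_lc
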