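import Mathlib

/-!
# Frames: classes closed under first-order definability, with extensions

A frame on `D` is a family of coded relations on `D` which is closed under first-order definability
with parameters, together with a function `E` which assigns objects to coded sets, injectively,
such that the functions `a ↦ E {y | P a y}` (`P` coded) have coded graphs.
-/

set_option autoImplicit false

namespace Pool.Agent.Work.MP_de7025_lc

universe u

/-- A family of coded relations closed under first-order definability, and an extension operator. -/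
structure Frame (D : Type u) where
  /-- coded relations -/
  Cd : (n : ℕ) → ((Fin n → D) → Prop) → Prop
  /-- extensions of coded sets -/
  E : (D → Prop) → D
  eq' : ∀ {n : ℕ} (i j : Fin n), Cd n fun a => a i = a j
  const' : ∀ {n : ℕ} (i : Fin n) (c : D), Cd n fun a => a i = c
  neg' : ∀ {n : ℕ} {P : (Fin n → D) → Prop}, Cd n P → Cd n fun a => ¬ P a
  and' : ∀ {n : ℕ} {P Q : (Fin n → D) → Prop}, Cd n P → Cd n Q → Cd n fun a => P a ∧ Q a
  ex' : ∀ {n : ℕ} {P : (Fin (n + 1) → D) → Prop}, Cd (n + 1) P →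
    Cd n fun a => ∃ y, P (Fin.cons y a)
  sub' : ∀ {m n : ℕ} {P : (Fin m → D) → Prop} (e : Fin m → Fin n), Cd m P →
    Cd n fun a => P fun i => a (e i)
  inj' : ∀ {P Q : D → Prop}, Cd 1 (fun a => P (a 0)) → Cd 1 (fun a => Q (a 0)) → E P = E Q →
    ∀ x, P x ↔ Q x
  abs' : ∀ {n : ℕ} {P : (Fin (n + 1) → D) → Prop}, Cd (n + 1) P →
    Cd (n + 1) fun a => a 0 = E fun y => P (Fin.cons y fun i => a i.succ)

variable {D : Type u} {F : Frame D}

namespace Frame

/-- coded relations on `D ^ n` -/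
def Cd' (F : Frame D) {n : ℕ} (P : (Fin n → D) → Prop) : Prop := F.Cd n P

/-- functions with coded graphs -/
structure Ft (F : Frame D) {n : ℕ} (t : (Fin n → D) → D) : Prop where
  g : F.Cd' (n := n + 1) fun b => b 0 = t fun i => b i.succ

theorem Cd'.congr {n : ℕ} {P Q : (Fin n → D) → Prop} (h : F.Cd' P) (e : ∀ a, P a ↔ Q a) :
    F.Cd' Q := by
  have : P = Q := funext fun a => propext (e a)
  rwa [← this]

theorem Cd'.not {n : ℕ} {P : (Fin n → D) → Prop} (h : F.Cd' P) : F.Cd' fun a => ¬ P a :=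
  F.neg' h

theorem Cd'.and {n : ℕ} {P Q : (Fin n → D) → Prop} (h : F.Cd' P) (h' : F.Cd' Q) :
    F.Cd' fun a => P a ∧ Q a := F.and' h h'

theorem Cd'.or {n : ℕ} {P Q : (Fin n → D) → Prop} (h : F.Cd' P) (h' : F.Cd' Q) :
    F.Cd' fun a => P a ∨ Q a :=
  (h.not.and h'.not).not.congr fun a => by tauto

theorem Cd'.imp {n : ℕ} {P Q : (Fin n → D) → Prop} (h : F.Cd' P) (h' : F.Cd' Q) :
    F.Cd' fun a => P a → Q a :=
  (h.and h'.not).not.congr fun a => by tauto

theorem Cd'.iff {n : ℕ} {P Q : (Fin n → D) → Prop} (h : F.Cd' P) (h' : F.Cd' Q) :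
    F.Cd' fun a => P a ↔ Q a :=
  ((h.imp h').and (h'.imp h)).congr fun a => by tauto

theorem Cd'.ex {n : ℕ} {Q : (Fin n → D) → D → Prop}
    (h : F.Cd' (n := n + 1) fun b => Q (fun i => b i.succ) (b 0)) : F.Cd' fun a => ∃ y, Q a y :=
  Cd'.congr (F := F) (F.ex' h) fun a => by simp

theorem Cd'.all {n : ℕ} {Q : (Fin n → D) → D → Prop}
    (h : F.Cd' (n := n + 1) fun b => Q (fun i => b i.succ) (b 0)) : F.Cd' fun a => ∀ y, Q a y :=
  (Cd'.ex (Q := fun a y => ¬ Q a y) h.not).not.congr fun a => by simp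

theorem Cd'.exAnd {n : ℕ} {Q R : (Fin n → D) → D → Prop}
    (h : F.Cd' (n := n + 1) fun b => Q (fun i => b i.succ) (b 0) ∧ R (fun i => b i.succ) (b 0)) :
    F.Cd' fun a => ∃ y, Q a y ∧ R a y := Cd'.ex h

theorem Cd'.sub {m n : ℕ} {P : (Fin m → D) → Prop} (h : F.Cd' P) (e : Fin m → Fin n) :
    F.Cd' fun a : Fin n → D => P fun i => a (e i) := F.sub' e h

theorem Cd'.true {n : ℕ} : F.Cd' fun _ : Fin n → D => True := by
  have h : F.Cd' (n := n + 1) fun b => b 0 = b 0 := F.eq' 0 0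
  by_cases hD : Nonempty D
  · exact (Cd'.ex (Q := fun (_ : Fin n → D) y => y = y) h).congr fun a => by
      simp only [iff_true]
      exact ⟨Classical.choice hD, trivial⟩
  · have h1 : F.Cd' (n := n + 1) fun b => ¬ b 0 = b 0 := h.not
    refine (Cd'.ex (Q := fun (_ : Fin n → D) y => ¬ y = y) h1).not.congr fun a => ?_
    simp only [not_true_eq_false, iff_true]
    rintro ⟨y, -⟩
    exact hD ⟨y⟩

theorem Cd'.const {n : ℕ} (p : Prop) : F.Cd' fun _ : Fin n → D => p := by
  by_cases h : p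
  · exact Cd'.true.congr fun a => by simp [h]
  · exact Cd'.true.not.congr fun a => by simp [h]

/-! ### Terms -/

theorem Ft.proj {n : ℕ} (i : Fin n) : F.Ft fun a => a i := ⟨F.eq' 0 i.succ⟩

theorem Ft.const {n : ℕ} (c : D) : F.Ft fun _ : Fin n → D => c := ⟨F.const' 0 c⟩

theorem Ft.congr {n : ℕ} {t t' : (Fin n → D) → D} (h : F.Ft t) (e : ∀ a, t a = t' a) : F.Ft t' := by
  have : t = t' := funext e
  rwa [← this]

theorem Ft.abs {n : ℕ} {Q : (Fin n → D) → D → Prop}
    (h : F.Cd' (n := n + 1) fun b => Q (fun i => b i.succ) (b 0)) : F.Ft fun a => F.E (Q a) :=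
  ⟨Cd'.congr (F := F) (F.abs' h) fun a => by simp⟩

/-- substitution of a term for the first variable -/
theorem Cd'.inst {n : ℕ} {Q : (Fin n → D) → D → Prop}
    (h : F.Cd' (n := n + 1) fun b => Q (fun i => b i.succ) (b 0)) {t : (Fin n → D) → D}
    (ht : F.Ft t) : F.Cd' fun a => Q a (t a) :=
  (Cd'.ex (Q := fun a y => y = t a ∧ Q a y) (Cd'.and ht.g h)).congr fun a => by simp

theorem Cd'.eq {n : ℕ} {t t' : (Fin n → D) → D} (ht : F.Ft t) (ht' : F.Ft t') :
    F.Cd' fun a => t a = t' a :=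
  (Cd'.inst (Q := fun a y => y = t' a) ht'.g ht)

theorem Cd'.app1 {n : ℕ} {P : D → Prop} (hP : F.Cd' (n := 1) fun a => P (a 0))
    {t : (Fin n → D) → D} (ht : F.Ft t) : F.Cd' fun a => P (t a) :=
  Cd'.inst (Q := fun _ y => P y) (hP.sub fun _ => 0) ht

theorem Cd'.app2 {n : ℕ} {P : D → D → Prop} (hP : F.Cd' (n := 2) fun a => P (a 0) (a 1))
    {t s : (Fin n → D) → D} (ht : F.Ft t) (hs : F.Ft s) : F.Cd' fun a => P (t a) (s a) := by
  have h1 : F.Cd' (n := n + 1) fun b => P (b 0) (s fun i => b i.succ) := by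
    have h2 : F.Cd' (n := n + 1 + 1) fun c => P (c 1) (c 0) := hP.sub ![1, 0]
    have h3 : F.Ft (n := n + 1) fun b => s fun i => b i.succ := by
      have := Cd'.sub hs.g (Fin.cons 0 fun i => i.succ.succ : Fin (n + 1) → Fin (n + 1 + 1))
      exact ⟨this.congr fun a => by simp⟩
    exact Cd'.inst (Q := fun b y => P (b 0) y) h2 h3
  exact Cd'.inst (Q := fun a y => P y (s a)) h1 ht

/-- weakening of a term -/
theorem Ft.wk {n : ℕ} {s : (Fin n → D) → D} (hs : F.Ft s) :
    F.Ft (n := n + 1) fun b => s fun i => b i.succ := by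
  have := Cd'.sub hs.g (Fin.cons 0 fun i => i.succ.succ : Fin (n + 1) → Fin (n + 1 + 1))
  exact ⟨this.congr fun a => by simp⟩

theorem Cd'.app3 {n : ℕ} {P : D → D → D → Prop}
    (hP : F.Cd' (n := 3) fun a => P (a 0) (a 1) (a 2)) {t s r : (Fin n → D) → D} (ht : F.Ft t)
    (hs : F.Ft s) (hr : F.Ft r) : F.Cd' fun a => P (t a) (s a) (r a) := by
  have h1 : F.Cd' (n := n + 1) fun b => P (b 0) (s fun i => b i.succ) (r fun i => b i.succ) := by
    have h2 : F.Cd' (n := n + 1 + 1) fun c => P (c 1) (c 0) (r fun i => c i.succ.succ) := by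
      have h3 : F.Cd' (n := n + 1 + 1 + 1) fun c => P (c 2) (c 1) (c 0) := hP.sub ![2, 1, 0]
      exact Cd'.inst (Q := fun c y => P (c 1) (c 0) y) h3 hr.wk.wk
    exact Cd'.inst (Q := fun b y => P (b 0) y (r fun i => b i.succ)) h2 hs.wk
  exact Cd'.inst (Q := fun a y => P y (s a) (r a)) h1 ht

theorem Cd'.app4 {n : ℕ} {P : D → D → D → D → Prop}
    (hP : F.Cd' (n := 4) fun a => P (a 0) (a 1) (a 2) (a 3)) {t s r q : (Fin n → D) → D}
    (ht : F.Ft t) (hs : F.Ft s) (hr : F.Ft r) (hq : F.Ft q) :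
    F.Cd' fun a => P (t a) (s a) (r a) (q a) := by
  have h1 : F.Cd' (n := n + 1) fun b =>
      P (b 0) (s fun i => b i.succ) (r fun i => b i.succ) (q fun i => b i.succ) := by
    have h2 : F.Cd' (n := n + 1 + 1) fun c =>
        P (c 1) (c 0) (r fun i => c i.succ.succ) (q fun i => c i.succ.succ) := by
      have h3 : F.Cd' (n := n + 1 + 1 + 1) fun c =>
          P (c 2) (c 1) (c 0) (q fun i => c i.succ.succ.succ) := by
        have h4 : F.Cd' (n := n + 1 + 1 + 1 + 1) fun c => P (c 3) (c 2) (c 1) (c 0) :=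
          hP.sub ![3, 2, 1, 0]
        exact Cd'.inst (Q := fun c y => P (c 2) (c 1) (c 0) y) h4 hq.wk.wk.wk
      exact Cd'.inst (Q := fun c y => P (c 1) (c 0) y (q fun i => c i.succ.succ)) h3 hr.wk.wk
    exact Cd'.inst
      (Q := fun b y => P (b 0) y (r fun i => b i.succ) (q fun i => b i.succ)) h2 hs.wk
  exact Cd'.inst (Q := fun a y => P y (s a) (r a) (q a)) h1 ht

/-- substitution in terms -/
theorem Ft.inst {n : ℕ} {f : (Fin n → D) → D → D}
    (h : F.Ft (n := n + 1) fun b => f (fun i => b i.succ) (b 0)) {t : (Fin n → D) → D}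
    (ht : F.Ft t) : F.Ft fun a => f a (t a) := by
  have h1 : F.Cd' (n := n + 1 + 1) fun c => c 1 = f (fun i => c i.succ.succ) (c 0) := by
    have := Cd'.sub h.g (Fin.cons 1 (Fin.cons 0 fun i => i.succ.succ) :
      Fin (n + 1 + 1) → Fin (n + 1 + 1))
    refine this.congr fun a => ?_
    simp only [Fin.cons_zero, Fin.cons_succ]
  exact ⟨Cd'.inst (Q := fun b y => b 0 = f (fun i => b i.succ) y) h1 ht.wk⟩

theorem Ft.sub {m n : ℕ} {t : (Fin m → D) → D} (h : F.Ft t) (e : Fin m → Fin n) :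
    F.Ft fun a : Fin n → D => t fun i => a (e i) := by
  have := Cd'.sub h.g (Fin.cons 0 fun i => (e i).succ : Fin (m + 1) → Fin (n + 1))
  exact ⟨this.congr fun a => by simp⟩

theorem Ft.app1 {n : ℕ} {f : D → D} (hf : F.Ft (n := 1) fun a => f (a 0))
    {t : (Fin n → D) → D} (ht : F.Ft t) : F.Ft fun a => f (t a) :=
  Ft.inst (f := fun _ y => f y) (hf.sub fun _ => 0) ht

theorem Ft.app2 {n : ℕ} {f : D → D → D} (hf : F.Ft (n := 2) fun a => f (a 0) (a 1))
    {t s : (Fin n → D) → D} (ht : F.Ft t) (hs : F.Ft s) : F.Ft fun a => f (t a) (s a) := by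
  have h1 : F.Ft (n := n + 1) fun b => f (b 0) (s fun i => b i.succ) :=
    Ft.inst (f := fun b y => f (b 0) y)
      (hf.sub ![1, 0] : F.Ft (n := n + 1 + 1) fun c => f (c 1) (c 0)) hs.wk
  exact Ft.inst (f := fun a y => f y (s a)) h1 ht

theorem Ft.app3 {n : ℕ} {f : D → D → D → D} (hf : F.Ft (n := 3) fun a => f (a 0) (a 1) (a 2))
    {t s r : (Fin n → D) → D} (ht : F.Ft t) (hs : F.Ft s) (hr : F.Ft r) :
    F.Ft fun a => f (t a) (s a) (r a) := by
  have h1 : F.Ft (n := n + 1) fun b => f (b 0) (s fun i => b i.succ) (r fun i => b i.succ) := by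
    have h2 : F.Ft (n := n + 1 + 1) fun c => f (c 1) (c 0) (r fun i => c i.succ.succ) :=
      Ft.inst (f := fun c y => f (c 1) (c 0) y)
        (hf.sub ![2, 1, 0] : F.Ft (n := n + 1 + 1 + 1) fun c => f (c 2) (c 1) (c 0)) hr.wk.wk
    exact Ft.inst (f := fun b y => f (b 0) y (r fun i => b i.succ)) h2 hs.wk
  exact Ft.inst (f := fun a y => f y (s a) (r a)) h1 ht

/-- a definite description -/
theorem Ft.ofGraph {n : ℕ} {t : (Fin n → D) → D} {Q : (Fin n → D) → D → Prop}
    (h : F.Cd' (n := n + 1) fun b => Q (fun i => b i.succ) (b 0))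
    (e : ∀ a y, Q a y ↔ y = t a) : F.Ft t :=
  ⟨Cd'.congr h fun _ => e _ _⟩

theorem Ft.ite {n : ℕ} {P : (Fin n → D) → Prop} {t s : (Fin n → D) → D} (hP : F.Cd' P)
    (ht : F.Ft t) (hs : F.Ft s) [DecidablePred P] : F.Ft fun a => if P a then t a else s a := by
  refine ⟨Cd'.congr (P := fun b : Fin (n + 1) → D =>
    (P (fun i => b i.succ) ∧ b 0 = t fun i => b i.succ) ∨
      (¬ P (fun i => b i.succ) ∧ b 0 = s fun i => b i.succ)) ?_ fun b => ?_⟩
  · exact Cd'.or (Cd'.and (hP.sub Fin.succ) ht.g) (Cd'.and (Cd'.not (hP.sub Fin.succ)) hs.g)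
  · by_cases h : P fun i => b i.succ <;> simp [h]

end Frame

end Pool.Agent.Work.MP_de7025_lc
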