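import Pool.Agent.Work.MP_de7025_lc.Cls

/-!
# Class-finite linear orders with coded functions; induction and recursion
-/

set_option autoImplicit false

namespace Pool.Agent.Work.MP_de7025_lc

universe u

variable {D : Type u} {F : Frame D}

open Pool.Agent.Work.MP_de7025_lc.Frame

/-- A class-finite linear order: every class that meets `I` has a least and a greatest element. -/
structure Ord (I : Cl1 F) (lt : Cl2 F) : Prop where
  ne : ∃ x, I x
  irr : ∀ x, I x → ¬ lt x x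
  trans : ∀ x y z, I x → I y → I z → lt x y → lt y z → lt x z
  tot : ∀ x y, I x → I y → lt x y ∨ x = y ∨ lt y x
  min : ∀ X : Cl1 F, (∃ x, I x ∧ X x) → ∃ m, I m ∧ X m ∧ ∀ x, I x → X x → ¬ lt x m
  max : ∀ X : Cl1 F, (∃ x, I x ∧ X x) → ∃ m, I m ∧ X m ∧ ∀ x, I x → X x → ¬ lt m x

/-- A good structure: a class-finite linear order, and all coded functions on it have codes. -/
structure Good (I : Cl1 F) (lt : Cl2 F) (ap : Fn2 F) : Prop extends Ord I lt where
  code : ∀ g : Fn1 F, ∃ f, ∀ i, I i → ap f i = g i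

/-- `y` is the immediate successor of `x` -/
def Cov (I : Cl1 F) (lt : Cl2 F) (x y : D) : Prop :=
  I x ∧ I y ∧ lt x y ∧ ∀ z, I z → ¬ (lt x z ∧ lt z y)

theorem cd_cov {n : ℕ} (I : Cl1 F) (lt : Cl2 F) {t s : (Fin n → D) → D} (ht : F.Ft t)
    (hs : F.Ft s) : F.Cd' fun a => Cov I lt (t a) (s a) := by
  refine Cd'.app2 (P := fun x y => Cov I lt x y) ?_ ht hs
  unfold Cov
  apply_rules (transparency := .reducible) (maxDepth := 1000) [Cd'.not, Cd'.and, Cd'.imp, Cd'.all, Ft.proj, Cd'.c1, Cd'.c2]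

/-- least element -/
def IsBot (I : Cl1 F) (lt : Cl2 F) (b : D) : Prop := I b ∧ ∀ x, I x → ¬ lt x b

theorem cd_isBot {n : ℕ} (I : Cl1 F) (lt : Cl2 F) {t : (Fin n → D) → D} (ht : F.Ft t) :
    F.Cd' fun a => IsBot I lt (t a) := by
  refine Cd'.app1 (P := fun x => IsBot I lt x) ?_ ht
  unfold IsBot
  apply_rules (transparency := .reducible) (maxDepth := 1000) [Cd'.not, Cd'.and, Cd'.imp, Cd'.all, Ft.proj, Cd'.c1, Cd'.c2]

/-- the converse relation -/
def Cl2.rev (lt : Cl2 F) : Cl2 F := ⟨fun x y => lt y x, Cd'.c2 lt (Ft.proj 1) (Ft.proj 0)⟩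

/-- greatest element -/
abbrev IsTop (I : Cl1 F) (lt : Cl2 F) (b : D) : Prop := IsBot I lt.rev b

namespace Ord

variable {I : Cl1 F} {lt : Cl2 F}

theorem rev (h : Ord I lt) : Ord I lt.rev where
  ne := h.ne
  irr := h.irr
  trans x y z hx hy hz h1 h2 := h.trans z y x hz hy hx h2 h1
  tot x y hx hy := by
    rcases h.tot x y hx hy with h1 | h1 | h1
    · exact Or.inr (Or.inr h1)
    · exact Or.inr (Or.inl h1)
    · exact Or.inl h1
  min := h.max
  max := h.min

theorem exists_bot (h : Ord I lt) : ∃ b, IsBot I lt b := by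
  obtain ⟨m, h1, -, h2⟩ := h.min ⟨fun _ => True, Cd'.true⟩ (by
    obtain ⟨x, hx⟩ := h.ne
    exact ⟨x, hx, trivial⟩)
  exact ⟨m, h1, fun x hx => h2 x hx trivial⟩

theorem exists_top (h : Ord I lt) : ∃ b, IsTop I lt b := h.rev.exists_bot

theorem bot_uniq (h : Ord I lt) {b b' : D} (hb : IsBot I lt b) (hb' : IsBot I lt b') : b = b' := by
  rcases h.tot b b' hb.1 hb'.1 with h1 | h1 | h1
  · exact absurd h1 (hb'.2 b hb.1)
  · exact h1
  · exact absurd h1 (hb.2 b' hb'.1)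

theorem bot_le (h : Ord I lt) {b x : D} (hb : IsBot I lt b) (hx : I x) : b = x ∨ lt b x := by
  rcases h.tot b x hb.1 hx with h1 | h1 | h1
  · exact Or.inr h1
  · exact Or.inl h1
  · exact absurd h1 (hb.2 x hx)

/-- every element which is not the least one has an immediate predecessor -/
theorem exists_pred (h : Ord I lt) {y z : D} (hy : I y) (hz : I z) (hzy : lt z y) :
    ∃ x, Cov I lt x y := by
  obtain ⟨m, h1, h2, h3⟩ := h.max ⟨fun x => lt x y, Cd'.c2 lt (Ft.proj 0) (Ft.const y)⟩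
    ⟨z, hz, hzy⟩
  exact ⟨m, h1, hy, h2, fun w hw hc => h3 w hw hc.2 hc.1⟩

theorem exists_pred' (h : Ord I lt) {y : D} (hy : I y) (hn : ¬ IsBot I lt y) :
    ∃ x, Cov I lt x y := by
  have : ∃ z, I z ∧ lt z y := by
    by_contra hc
    push Not at hc
    exact hn ⟨hy, hc⟩
  obtain ⟨z, hz, hzy⟩ := this
  exact h.exists_pred hy hz hzy

theorem cov_rev {x y : D} : Cov I lt.rev x y ↔ Cov I lt y x :=
  ⟨fun h => ⟨h.2.1, h.1, h.2.2.1, fun z hz hc => h.2.2.2 z hz ⟨hc.2, hc.1⟩⟩,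
    fun h => ⟨h.2.1, h.1, h.2.2.1, fun z hz hc => h.2.2.2 z hz ⟨hc.2, hc.1⟩⟩⟩

/-- every element which is not the greatest one has an immediate successor -/
theorem exists_succ (h : Ord I lt) {y z : D} (hy : I y) (hz : I z) (hzy : lt y z) :
    ∃ x, Cov I lt y x := by
  obtain ⟨x, hx⟩ := h.rev.exists_pred (y := y) (z := z) hy hz hzy
  exact ⟨x, cov_rev.1 hx⟩

theorem cov_uniq (h : Ord I lt) {x y y' : D} (h1 : Cov I lt x y) (h2 : Cov I lt x y') :
    y = y' := by
  rcases h.tot y y' h1.2.1 h2.2.1 with h3 | h3 | h3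
  · exact absurd ⟨h1.2.2.1, h3⟩ (h2.2.2.2 y h1.2.1)
  · exact h3
  · exact absurd ⟨h2.2.2.1, h3⟩ (h1.2.2.2 y' h2.2.1)

theorem cov_uniq' (h : Ord I lt) {x x' y : D} (h1 : Cov I lt x y) (h2 : Cov I lt x' y) :
    x = x' := h.rev.cov_uniq (cov_rev.2 h1) (cov_rev.2 h2)

/-- below an immediate successor -/
theorem lt_cov (h : Ord I lt) {x y z : D} (hc : Cov I lt x y) (hz : I z) :
    lt z y ↔ lt z x ∨ z = x := by
  constructor
  · intro h1
    rcases h.tot z x hz hc.1 with h2 | h2 | h2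
    · exact Or.inl h2
    · exact Or.inr h2
    · exact absurd ⟨h2, h1⟩ (hc.2.2.2 z hz)
  · rintro (h1 | rfl)
    · exact h.trans z x y hz hc.1 hc.2.1 h1 hc.2.2.1
    · exact hc.2.2.1

theorem cov_lt (h : Ord I lt) {x y z : D} (hc : Cov I lt x y) (hz : I z) :
    lt x z ↔ lt y z ∨ y = z := by
  have := h.rev.lt_cov (cov_rev.2 hc) hz
  constructor
  · intro h1
    rcases this.1 h1 with h2 | h2
    · exact Or.inl h2
    · exact Or.inr h2.symm
  · rintro (h1 | h1)
    · exact this.2 (Or.inl h1)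
    · exact this.2 (Or.inr h1.symm)

/-- induction -/
theorem ind (h : Ord I lt) {P : D → Prop} (hP : F.Cd' (n := 1) fun a => P (a 0)) {b : D}
    (hb : IsBot I lt b) (h0 : P b) (hs : ∀ x y, Cov I lt x y → P x → P y) {x : D} (hx : I x) :
    P x := by
  by_contra hn
  obtain ⟨m, h1, h2, h3⟩ := h.min ⟨fun x => ¬ P x, hP.not⟩ ⟨x, hx, hn⟩
  rcases h.bot_le hb h1 with rfl | h4
  · exact h2 h0
  · obtain ⟨w, hw⟩ := h.exists_pred h1 hb.1 h4
    refine h2 (hs w m hw ?_)
    by_contra h5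
    exact h3 w hw.1 h5 hw.2.2.1

/-- downward induction -/
theorem dind (h : Ord I lt) {P : D → Prop} (hP : F.Cd' (n := 1) fun a => P (a 0)) {b : D}
    (hb : IsTop I lt b) (h0 : P b) (hs : ∀ x y, Cov I lt x y → P y → P x) {x : D} (hx : I x) :
    P x :=
  h.rev.ind hP hb h0 (fun x y hc => hs y x (cov_rev.1 hc)) hx

end Ord

namespace Good

variable {I : Cl1 F} {lt : Cl2 F} {ap : Fn2 F}

theorem rev (h : Good I lt ap) : Good I lt.rev ap := ⟨h.toOrd.rev, h.code⟩

/-- `f` codes the recursion up to `i` -/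
private def Ap (I : Cl1 F) (lt : Cl2 F) (ap : Fn2 F) (b : D) (a : Fn1 F) (Φ : Fn3 F) (q i f : D) :
    Prop :=
  ap f b = a q ∧ ∀ x y, Cov I lt x y → (lt y i ∨ y = i) → ap f y = Φ q x (ap f x)

private theorem cd_Ap {n : ℕ} (I : Cl1 F) (lt : Cl2 F) (ap : Fn2 F) (b : D) (a : Fn1 F)
    (Φ : Fn3 F) {t s r : (Fin n → D) → D} (ht : F.Ft t) (hs : F.Ft s) (hr : F.Ft r) :
    F.Cd' fun c => Ap I lt ap b a Φ (t c) (s c) (r c) := by
  refine Cd'.app3 (P := fun x y z => Ap I lt ap b a Φ x y z) ?_ ht hs hr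
  unfold Ap
  apply_rules (transparency := .reducible) (maxDepth := 1000) [Cd'.not, Cd'.and, Cd'.or, Cd'.imp, Cd'.all, Cd'.eq, Ft.proj, Ft.const, Cd'.c1,
    Cd'.c2, cd_cov, Ft.f1, Ft.f2, Ft.f3]

private theorem ap_uniq (h : Good I lt ap) {b : D} (hb : IsBot I lt b) {a : Fn1 F} {Φ : Fn3 F}
    {q i i' f f' : D} (hi : I i) (hi' : I i') (h1 : Ap I lt ap b a Φ q i f)
    (h2 : Ap I lt ap b a Φ q i' f') {x : D} (hx : I x) (hxi : lt x i ∨ x = i)
    (hxi' : lt x i' ∨ x = i') : ap f x = ap f' x := by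
  refine h.ind (P := fun x => (lt x i ∨ x = i) → (lt x i' ∨ x = i') → ap f x = ap f' x) ?_ hb ?_
    ?_ hx hxi hxi'
  · apply_rules (transparency := .reducible) (maxDepth := 1000) [Cd'.not, Cd'.and, Cd'.or, Cd'.imp, Cd'.all, Cd'.eq, Ft.proj, Ft.const, Cd'.c1,
      Cd'.c2, cd_cov, Ft.f1, Ft.f2, Ft.f3]
  · intro _ _
    rw [h1.1, h2.1]
  · intro u v hc ih hv hv'
    rw [h1.2 u v hc hv, h2.2 u v hc hv', ih ?_ ?_]
    · left
      rcases hv with hv | rfl
      · exact h.trans u v i hc.1 hc.2.1 hi hc.2.2.1 hv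
      · exact hc.2.2.1
    · left
      rcases hv' with hv | rfl
      · exact h.trans u v i' hc.1 hc.2.1 hi' hc.2.2.1 hv
      · exact hc.2.2.1

private theorem exists_Ap (h : Good I lt ap) {b : D} (hb : IsBot I lt b) (a : Fn1 F) (Φ : Fn3 F)
    (q : D) {i : D} (hi : I i) : ∃ f, Ap I lt ap b a Φ q i f := by
  classical
  refine h.ind (P := fun i => ∃ f, Ap I lt ap b a Φ q i f) ?_ hb ?_ ?_ hi
  · apply_rules (transparency := .reducible) (maxDepth := 1000) [Cd'.ex, Ft.proj, Ft.const, cd_Ap]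
  · obtain ⟨f, hf⟩ := h.code ⟨fun _ => a q, Ft.const _⟩
    refine ⟨f, hf b hb.1, fun x y hc hy => ?_⟩
    exfalso
    rcases hy with hy | rfl
    · exact hb.2 y hc.2.1 hy
    · exact hb.2 x hc.1 hc.2.2.1
  · rintro u v hc ⟨f, h1, h2⟩
    obtain ⟨f', hf'⟩ := h.code ⟨fun j => if j = v then Φ q u (ap f u) else ap f j, by
      apply_rules (transparency := .reducible) (maxDepth := 1000) [Ft.cond, Cd'.eq, Ft.proj, Ft.const, Ft.f1, Ft.f2, Ft.f3]⟩
    have hbv : b ≠ v := by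
      rintro rfl
      exact hb.2 u hc.1 hc.2.2.1
    have key : ∀ j, I j → j ≠ v → ap f' j = ap f j := fun j hj hjv => by
      have h3 := hf' j hj
      simp only [if_neg hjv] at h3
      exact h3
    refine ⟨f', by rw [key b hb.1 hbv, h1], fun x y hxy hy => ?_⟩
    rcases hy with hy | rfl
    · have hyv : y ≠ v := by
        rintro rfl
        exact h.irr y hxy.2.1 hy
      have hxv : x ≠ v := by
        rintro rfl
        exact h.irr x hxy.1 (h.trans x y x hxy.1 hxy.2.1 hxy.1 hxy.2.2.1 hy)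
      rw [key y hxy.2.1 hyv, key x hxy.1 hxv]
      exact h2 x y hxy ((h.lt_cov hc hxy.2.1).1 hy)
    · have hxu : x = u := h.cov_uniq' hxy hc
      subst hxu
      have hxy' : x ≠ y := by
        rintro rfl
        exact h.irr x hxy.1 hxy.2.2.1
      have h3 := hf' y hxy.2.1
      simp only [if_true] at h3
      rw [h3, key x hxy.1 hxy']

/-- recursion with a parameter `q` -/
theorem recursion (h : Good I lt ap) {b : D} (hb : IsBot I lt b) (a : Fn1 F) (Φ : Fn3 F) :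
    ∃ g : Fn2 F, (∀ q, g q b = a q) ∧ ∀ q x y, Cov I lt x y → g q y = Φ q x (g q x) := by
  classical
  have hex : ∀ q i, I i → ∃ f, Ap I lt ap b a Φ q i f := fun q i hi => h.exists_Ap hb a Φ q hi
  let g : D → D → D := fun q i => if hi : I i then ap (hex q i hi).choose i else F.o
  have hg : ∀ q i, I i → ∀ f, Ap I lt ap b a Φ q i f → g q i = ap f i := by
    intro q i hi f hf
    show (if hi : I i then ap (hex q i hi).choose i else F.o) = _
    rw [dif_pos hi]
    exact h.ap_uniq hb hi hi (hex q i hi).choose_spec hf hi (Or.inr rfl) (Or.inr rfl)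
  have hg' : ∀ q i j, I i → I j → (lt j i ∨ j = i) → ∀ f, Ap I lt ap b a Φ q i f →
      g q j = ap f j := by
    intro q i j hi hj hji f hf
    obtain ⟨f', hf'⟩ := hex q j hj
    rw [hg q j hj f' hf']
    exact h.ap_uniq hb hj hi hf' hf hj (Or.inr rfl) hji
  refine ⟨⟨g, ?_⟩, ?_, ?_⟩
  · refine Ft.ofGraph (Q := fun c y => (I (c 1) ∧ ∃ f, Ap I lt ap b a Φ (c 0) (c 1) f ∧
      y = ap f (c 1)) ∨ (¬ I (c 1) ∧ y = F.o)) ?_ fun c y => ?_
    · apply_rules (transparency := .reducible) (maxDepth := 1000) [Cd'.not, Cd'.and, Cd'.or, Cd'.imp, Cd'.all, Cd'.ex, Cd'.eq, Ft.proj, Ft.const,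
        Cd'.c1, Cd'.c2, cd_Ap, Ft.f1, Ft.f2, Ft.f3]
    · by_cases hi : I (c 1)
      · constructor
        · rintro (⟨-, f, hf, rfl⟩ | ⟨hn, -⟩)
          · exact (hg _ _ hi f hf).symm
          · exact absurd hi hn
        · intro hy
          obtain ⟨f, hf⟩ := hex (c 0) (c 1) hi
          exact Or.inl ⟨hi, f, hf, hy.trans (hg _ _ hi f hf)⟩
      · have e : g (c 0) (c 1) = F.o := dif_neg hi
        rw [e]
        constructor
        · rintro (⟨hn, -⟩ | ⟨-, h1⟩)
          · exact absurd hn hi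
          · exact h1
        · exact fun h1 => Or.inr ⟨hi, h1⟩
  · intro q
    obtain ⟨f, hf⟩ := hex q b hb.1
    exact (hg q b hb.1 f hf).trans hf.1
  · intro q x y hc
    obtain ⟨f, hf⟩ := hex q y hc.2.1
    have h1 : g q y = ap f y := hg q y hc.2.1 f hf
    have h2 : g q x = ap f x := hg' q y x hc.2.1 hc.1 (Or.inl hc.2.2.1) f hf
    show g q y = Φ q x (g q x)
    rw [h1, h2]
    exact hf.2 x y hc (Or.inr rfl)

end Good

end Pool.Agent.Work.MP_de7025_lc
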