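import Pool.Agent.Work.MP_de7025_lc.Num

/-!
# Locally coded relations and functions on numbers
-/

set_option autoImplicit false

namespace Pool.Agent.Work.MP_de7025_lc

universe u

variable {D : Type u} {F : Frame D}

open Pool.Agent.Work.MP_de7025_lc.Frame

/-- locally coded relations on numbers -/
def Lc (F : Frame D) {n : ℕ} (P : (Fin n → D) → Prop) : Prop :=
  ∀ b, Nm F b → ∃ P' : (Fin n → D) → Prop, F.Cd' P' ∧
    ∀ a, (∀ i, Le F (a i) b) → (P a ↔ P' a)

/-- locally coded functions on numbers -/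
def Lf (F : Frame D) {n : ℕ} (t : (Fin n → D) → D) : Prop :=
  ∀ b, Nm F b → ∃ (t' : (Fin n → D) → D) (c : D), F.Ft t' ∧ Nm F c ∧
    ∀ a, (∀ i, Le F (a i) b) → t a = t' a ∧ Le F (t a) c

theorem exists_max {x y : D} (hx : Nm F x) (hy : Nm F y) :
    ∃ z, Nm F z ∧ Le F x z ∧ Le F y z := by
  rcases le_or_lt hx hy with h | h
  · exact ⟨y, hy, h, Le.refl hy⟩
  · exact ⟨x, hx, Le.refl hx, h.le⟩

theorem exists_bound {n : ℕ} (a : Fin n → D) (h : ∀ i, Nm F (a i)) :
    ∃ b, Nm F b ∧ ∀ i, Le F (a i) b := by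
  induction n with
  | zero => exact ⟨F.o, nm_o, fun i => i.elim0⟩
  | succ n ih =>
    obtain ⟨b, h1, h2⟩ := ih (fun i => a i.succ) (fun i => h i.succ)
    obtain ⟨c, h3, h4, h5⟩ := exists_max h1 (h 0)
    refine ⟨c, h3, fun i => ?_⟩
    refine Fin.cases ?_ (fun j => ?_) i
    · exact h5
    · exact (h2 j).trans h4

variable {n m : ℕ}

theorem Lf.nm {t : (Fin n → D) → D} (h : Lf F t) {a : Fin n → D} (ha : ∀ i, Nm F (a i)) :
    Nm F (t a) := by
  obtain ⟨b, h1, h2⟩ := exists_bound a ha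
  obtain ⟨t', c, -, h3, h4⟩ := h b h1
  exact (h4 a h2).2.nm_left

theorem Cd'.lc {P : (Fin n → D) → Prop} (h : F.Cd' P) : Lc F P :=
  fun _ _ => ⟨P, h, fun _ _ => Iff.rfl⟩

theorem Lc.not {P : (Fin n → D) → Prop} (h : Lc F P) : Lc F fun a => ¬ P a := by
  intro b hb
  obtain ⟨P', h1, h2⟩ := h b hb
  exact ⟨_, h1.not, fun a ha => not_congr (h2 a ha)⟩

theorem Lc.and {P Q : (Fin n → D) → Prop} (h : Lc F P) (h' : Lc F Q) :
    Lc F fun a => P a ∧ Q a := by
  intro b hb
  obtain ⟨P', h1, h2⟩ := h b hb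
  obtain ⟨Q', h3, h4⟩ := h' b hb
  exact ⟨_, h1.and h3, fun a ha => and_congr (h2 a ha) (h4 a ha)⟩

theorem Lc.congr {P Q : (Fin n → D) → Prop} (h : Lc F P)
    (e : ∀ a, (∀ i, Nm F (a i)) → (P a ↔ Q a)) : Lc F Q := by
  intro b hb
  obtain ⟨P', h1, h2⟩ := h b hb
  exact ⟨_, h1, fun a ha => by rw [← h2 a ha, e a fun i => (ha i).nm_left]⟩

theorem Lc.or {P Q : (Fin n → D) → Prop} (h : Lc F P) (h' : Lc F Q) :
    Lc F fun a => P a ∨ Q a :=
  (h.not.and h'.not).not.congr fun a _ => by tauto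

theorem Lc.imp {P Q : (Fin n → D) → Prop} (h : Lc F P) (h' : Lc F Q) :
    Lc F fun a => P a → Q a :=
  (h.and h'.not).not.congr fun a _ => by tauto

theorem Lc.iff {P Q : (Fin n → D) → Prop} (h : Lc F P) (h' : Lc F Q) :
    Lc F fun a => P a ↔ Q a :=
  ((h.imp h').and (h'.imp h)).congr fun a _ => by tauto

theorem Lc.sub {P : (Fin m → D) → Prop} (h : Lc F P) (e : Fin m → Fin n) :
    Lc F fun a : Fin n → D => P fun i => a (e i) := by
  intro b hb
  obtain ⟨P', h1, h2⟩ := h b hb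
  exact ⟨_, h1.sub e, fun a ha => h2 _ fun i => ha (e i)⟩

theorem Lf.congr {t t' : (Fin n → D) → D} (h : Lf F t)
    (e : ∀ a, (∀ i, Nm F (a i)) → t a = t' a) : Lf F t' := by
  intro b hb
  obtain ⟨t₁, c, h1, h2, h3⟩ := h b hb
  exact ⟨t₁, c, h1, h2, fun a ha => by
    rw [← e a fun i => (ha i).nm_left]
    exact h3 a ha⟩

theorem Lf.proj (i : Fin n) : Lf F fun a => a i :=
  fun b hb => ⟨_, b, Ft.proj i, hb, fun _ ha => ⟨rfl, ha i⟩⟩

theorem Lf.const {c : D} (hc : Nm F c) : Lf F fun _ : Fin n → D => c :=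
  fun _ _ => ⟨_, c, Ft.const c, hc, fun _ _ => ⟨rfl, Le.refl hc⟩⟩

theorem Lf.sub {t : (Fin m → D) → D} (h : Lf F t) (e : Fin m → Fin n) :
    Lf F fun a : Fin n → D => t fun i => a (e i) := by
  intro b hb
  obtain ⟨t', c, h1, h2, h3⟩ := h b hb
  exact ⟨_, c, h1.sub e, h2, fun a ha => h3 _ fun i => ha (e i)⟩

theorem Lf.wk {t : (Fin n → D) → D} (h : Lf F t) :
    Lf F (n := n + 1) fun b => t fun i => b i.succ := h.sub Fin.succ

theorem Lc.inst {Q : (Fin n → D) → D → Prop}
    (h : Lc F (n := n + 1) fun b => Q (fun i => b i.succ) (b 0)) {t : (Fin n → D) → D}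
    (ht : Lf F t) : Lc F fun a => Q a (t a) := by
  intro b hb
  obtain ⟨t', c, h1, h2, h3⟩ := ht b hb
  obtain ⟨d, h4, h5, h6⟩ := exists_max hb h2
  obtain ⟨P', h7, h8⟩ := h d h4
  refine ⟨fun a => P' (Fin.cons (t' a) a), ?_, fun a ha => ?_⟩
  · refine Cd'.inst (Q := fun a y => P' (Fin.cons y a)) (h7.congr fun a => ?_) h1
    rw [show (Fin.cons (a 0) fun i => a (Fin.succ i)) = a from Fin.cons_self_tail a]
  · beta_reduce
    rw [← h8 (Fin.cons (t' a) a) fun i => ?_]
    · simp only [Fin.cons_zero, Fin.cons_succ]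
      rw [(h3 a ha).1]
    · refine Fin.cases ?_ (fun j => ?_) i
      · rw [Fin.cons_zero, ← (h3 a ha).1]
        exact (h3 a ha).2.trans h6
      · rw [Fin.cons_succ]
        exact (ha j).trans h5

theorem Lf.inst {f : (Fin n → D) → D → D}
    (h : Lf F (n := n + 1) fun b => f (fun i => b i.succ) (b 0)) {t : (Fin n → D) → D}
    (ht : Lf F t) : Lf F fun a => f a (t a) := by
  intro b hb
  obtain ⟨t', c, h1, h2, h3⟩ := ht b hb
  obtain ⟨d, h4, h5, h6⟩ := exists_max hb h2
  obtain ⟨f', e, h7, h9, h8⟩ := h d h4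
  refine ⟨fun a => f' (Fin.cons (t' a) a), e, ?_, h9, fun a ha => ?_⟩
  · refine Ft.inst (f := fun a y => f' (Fin.cons y a)) (h7.congr fun a => ?_) h1
    rw [show (Fin.cons (a 0) fun i => a (Fin.succ i)) = a from Fin.cons_self_tail a]
  · beta_reduce
    have := h8 (Fin.cons (t' a) a) fun i => ?_
    · simp only [Fin.cons_zero, Fin.cons_succ] at this
      rw [(h3 a ha).1]
      exact this
    · refine Fin.cases ?_ (fun j => ?_) i
      · rw [Fin.cons_zero, ← (h3 a ha).1]
        exact (h3 a ha).2.trans h6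
      · rw [Fin.cons_succ]
        exact (ha j).trans h5

theorem Lf.app1 {f : D → D} (hf : Lf F (n := 1) fun a => f (a 0)) {t : (Fin n → D) → D}
    (ht : Lf F t) : Lf F fun a => f (t a) :=
  Lf.inst (f := fun _ y => f y) (hf.sub fun _ => 0) ht

theorem Lf.app2 {f : D → D → D} (hf : Lf F (n := 2) fun a => f (a 0) (a 1))
    {t s : (Fin n → D) → D} (ht : Lf F t) (hs : Lf F s) : Lf F fun a => f (t a) (s a) := by
  have h1 : Lf F (n := n + 1) fun b => f (b 0) (s fun i => b i.succ) :=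
    Lf.inst (f := fun b y => f (b 0) y)
      (hf.sub ![1, 0] : Lf F (n := n + 1 + 1) fun c => f (c 1) (c 0)) hs.wk
  exact Lf.inst (f := fun a y => f y (s a)) h1 ht

theorem Lc.app2 {P : D → D → Prop} (hf : Lc F (n := 2) fun a => P (a 0) (a 1))
    {t s : (Fin n → D) → D} (ht : Lf F t) (hs : Lf F s) : Lc F fun a => P (t a) (s a) := by
  have h1 : Lc F (n := n + 1) fun b => P (b 0) (s fun i => b i.succ) :=
    Lc.inst (Q := fun b y => P (b 0) y)
      (hf.sub ![1, 0] : Lc F (n := n + 1 + 1) fun c => P (c 1) (c 0)) hs.wk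
  exact Lc.inst (Q := fun a y => P y (s a)) h1 ht

theorem Lc.eq {t s : (Fin n → D) → D} (ht : Lf F t) (hs : Lf F s) : Lc F fun a => t a = s a :=
  Lc.app2 (P := fun x y => x = y) (Cd'.lc (Cd'.eq (Ft.proj 0) (Ft.proj 1))) ht hs

theorem Lc.lt {t s : (Fin n → D) → D} (ht : Lf F t) (hs : Lf F s) :
    Lc F fun a => Lt F (t a) (s a) := by
  refine Lc.app2 (P := fun x y => Lt F x y) (fun b hb => ?_) ht hs
  obtain ⟨X, hX⟩ := cd_lt hb
  refine ⟨fun a => X (a 0) (a 1), Cd'.c2 X (Ft.proj 0) (Ft.proj 1), fun a ha => ?_⟩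
  beta_reduce
  rw [hX]
  exact ⟨fun h => ⟨h, ha 1⟩, fun h => h.1⟩

theorem Lc.le {t s : (Fin n → D) → D} (ht : Lf F t) (hs : Lf F s) :
    Lc F fun a => Le F (t a) (s a) :=
  ((Lc.lt ht hs).or (Lc.eq ht hs)).congr fun _ ha =>
    ⟨fun h => ⟨hs.nm ha, h⟩, fun h => h.2⟩

theorem Lf.s {t : (Fin n → D) → D} (ht : Lf F t) : Lf F fun a => F.s (t a) := by
  intro b hb
  obtain ⟨t', c, h1, h2, h3⟩ := ht b hb
  refine ⟨_, F.s c, Ft.s h1, nm_s h2, fun a ha => ?_⟩
  have h4 := h3 a ha
  refine ⟨congrArg F.s h4.1, ?_⟩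
  exact (s_le_iff h4.2.nm_left).2 ((lt_s_iff_le h2).2 h4.2)

/-- bounded quantification -/
theorem Lc.ball {Q : (Fin n → D) → D → Prop}
    (h : Lc F (n := n + 1) fun b => Q (fun i => b i.succ) (b 0)) {t : (Fin n → D) → D}
    (ht : Lf F t) : Lc F fun a => ∀ y, Le F y (t a) → Q a y := by
  intro b hb
  obtain ⟨t', c, h1, h2, h3⟩ := ht b hb
  obtain ⟨d, h4, h5, h6⟩ := exists_max hb h2
  obtain ⟨P', h7, h8⟩ := h d h4
  obtain ⟨X, hX⟩ := cd_lt h4
  refine ⟨fun a => ∀ y, (X y (t' a) ∨ y = t' a) → P' (Fin.cons y a), ?_, fun a ha => ?_⟩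
  · have h9 : F.Cd' (n := n + 1) fun b => (X (b 0) (t' fun i => b i.succ) ∨
        b 0 = t' fun i => b i.succ) → P' b :=
      Cd'.imp (Cd'.or (Cd'.c2 X (Ft.proj 0) h1.wk) (Cd'.eq (Ft.proj 0) h1.wk)) h7
    refine Cd'.all (Q := fun a y => (X y (t' a) ∨ y = t' a) → P' (Fin.cons y a))
      (h9.congr fun a => ?_)
    rw [show (Fin.cons (a 0) fun i => a (Fin.succ i)) = a from Fin.cons_self_tail a]
  · have h9 := h3 a ha
    refine forall_congr' fun y => ?_
    have h10 : Le F y (t a) ↔ (X y (t' a) ∨ y = t' a) := by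
      rw [hX, ← h9.1]
      constructor
      · rintro ⟨h11, h12 | rfl⟩
        · exact Or.inl ⟨h12, h9.2.trans h6⟩
        · exact Or.inr rfl
      · rintro (⟨h11, -⟩ | rfl)
        · exact h11.le
        · exact Le.refl h9.2.nm_left
    rw [h10]
    constructor
    · intro h11 h12
      have h13 := h11 h12
      rw [← h10] at h12
      rw [← h8 (Fin.cons y a) fun i => ?_]
      · simpa only [Fin.cons_zero, Fin.cons_succ] using h13
      · refine Fin.cases ?_ (fun j => ?_) i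
        · rw [Fin.cons_zero]
          exact h12.trans (h9.2.trans h6)
        · rw [Fin.cons_succ]
          exact (ha j).trans h5
    · intro h11 h12
      have h13 := h11 h12
      rw [← h10] at h12
      rw [← h8 (Fin.cons y a) fun i => ?_] at h13
      · simpa only [Fin.cons_zero, Fin.cons_succ] using h13
      · refine Fin.cases ?_ (fun j => ?_) i
        · rw [Fin.cons_zero]
          exact h12.trans (h9.2.trans h6)
        · rw [Fin.cons_succ]
          exact (ha j).trans h5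

/-- induction for locally coded relations with parameters -/
theorem Lc.ind {Q : (Fin n → D) → D → Prop}
    (h : Lc F (n := n + 1) fun b => Q (fun i => b i.succ) (b 0)) {a : Fin n → D}
    (ha : ∀ i, Nm F (a i)) (h0 : Q a F.o) (hs : ∀ x, Nm F x → Q a x → Q a (F.s x)) {x : D}
    (hx : Nm F x) : Q a x := by
  obtain ⟨b, hb, hab⟩ := exists_bound a ha
  obtain ⟨d, h4, h5, h6⟩ := exists_max hb hx
  obtain ⟨P', h7, h8⟩ := h d h4
  have key : ∀ y, Le F y x → (Q a y ↔ P' (Fin.cons y a)) := by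
    intro y hy
    rw [← h8 (Fin.cons y a) fun i => ?_]
    · simp only [Fin.cons_zero, Fin.cons_succ]
    · refine Fin.cases ?_ (fun j => ?_) i
      · rw [Fin.cons_zero]
        exact hy.trans h6
      · rw [Fin.cons_succ]
        exact (hab j).trans h5
  have hcd : F.Cd' (n := 1) fun c => P' (Fin.cons (c 0) a) := by
    have h9 : ∀ k (P : (Fin (k + 1) → D) → Prop) (a : Fin k → D), F.Cd' P →
        F.Cd' (n := 1) fun c => P (Fin.cons (c 0) a) := by
      intro k
      induction k with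
      | zero =>
        intro P a hP
        refine hP.congr fun c => ?_
        rw [show (Fin.cons (c 0) a : Fin 1 → D) = c from by
          funext i
          refine Fin.cases ?_ (fun j => j.elim0) i
          rfl]
      | succ k ih =>
        intro P a hP
        have h10 : F.Cd' (n := k + 1 + 1) fun c =>
            P (Fin.cons (c 1) (Fin.cons (c 0) fun i => c i.succ.succ)) := by
          refine (hP.sub (Fin.cons 1 (Fin.cons 0 fun i => i.succ.succ) :
            Fin (k + 1 + 1) → Fin (k + 1 + 1))).congr fun c => ?_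
          rw [show (fun i => c ((Fin.cons 1 (Fin.cons 0 fun i => i.succ.succ) :
              Fin (k + 1 + 1) → Fin (k + 1 + 1)) i)) =
              Fin.cons (c 1) (Fin.cons (c 0) fun i => c i.succ.succ) from ?_]
          funext i
          refine Fin.cases ?_ (fun j => ?_) i
          · simp
          · refine Fin.cases ?_ (fun l => ?_) j
            · simp
            · simp
        have h11 : F.Cd' (n := k + 1) fun c =>
            P (Fin.cons (c 0) (Fin.cons (a 0) fun i => c i.succ)) :=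
          Cd'.inst (Q := fun c y => P (Fin.cons (c 0) (Fin.cons y fun i => c i.succ))) h10
            (Ft.const (a 0))
        refine (ih _ (fun i => a i.succ) h11).congr fun c => ?_
        simp only [Fin.cons_zero, Fin.cons_succ]
        rw [show (Fin.cons (a 0) fun i => a (Fin.succ i)) = a from Fin.cons_self_tail a]
    exact h9 _ _ _ h7
  refine (key x (Le.refl hx)).2 (nm_ind hx ⟨fun y => P' (Fin.cons y a), hcd⟩ ?_ ?_)
  · exact (key _ (o_le hx)).1 h0
  · intro y hy h9
    exact (key _ (s_of_lt hy)).1 (hs y hy.nm_left ((key y hy.le).2 h9))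

end Pool.Agent.Work.MP_de7025_lc
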