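import Pool.Agent.Work.MP_de7025_lc.Thy
import Pool.Agent.Work.MP_de7025_lc.Exp

/-!
# The frame of a model of `Δ¹₁-BL₀`
-/

set_option autoImplicit false

namespace Pool.Agent.Work.MP_de7025_lc

universe u

open Pool.Agent.Work.MP_de7025_lc.Frame

variable {M : Str.{u}}

/-! ### Evaluation -/

@[simp] theorem Asg.consO_zero (v : Asg M) (x : M.Obj) : (v.consO x).o 0 = x := rfl

@[simp] theorem Asg.consO_succ (v : Asg M) (x : M.Obj) (i : ℕ) : (v.consO x).o (i + 1) = v.o i :=
  rfl

@[simp] theorem Asg.consO_one (v : Asg M) (x : M.Obj) : (v.consO x).o 1 = v.o 0 := rfl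

@[simp] theorem Asg.consO_two (v : Asg M) (x : M.Obj) : (v.consO x).o 2 = v.o 1 := rfl

@[simp] theorem Asg.consO_three (v : Asg M) (x : M.Obj) : (v.consO x).o 3 = v.o 2 := rfl

@[simp] theorem Asg.consO_four (v : Asg M) (x : M.Obj) : (v.consO x).o 4 = v.o 3 := rfl

@[simp] theorem Asg.consO_r (v : Asg M) (x : M.Obj) : (v.consO x).r = v.r := rfl

@[simp] theorem Asg.consR_o (v : Asg M) {n : ℕ} (R : M.Rel n) : (v.consR n R).o = v.o := rfl

@[simp] theorem Asg.consR_zero (v : Asg M) {n : ℕ} (R : M.Rel n) : (v.consR n R).r n 0 = R := by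
  simp [Asg.consR]

@[simp] theorem Asg.consR_one (v : Asg M) {n : ℕ} (R : M.Rel n) :
    (v.consR n R).r n 1 = v.r n 0 := by
  simp [Asg.consR]

theorem Asg.consR_succ (v : Asg M) {n : ℕ} (R : M.Rel n) (i : ℕ) :
    (v.consR n R).r n (i + 1) = v.r n i := by
  simp [Asg.consR]

theorem Asg.consR_ne (v : Asg M) {n m : ℕ} (h : m ≠ n) (R : M.Rel n) (i : ℕ) :
    (v.consR n R).r m i = v.r m i := by
  simp [Asg.consR, Function.update_of_ne h]

@[simp] theorem Asg.consR_01 (v : Asg M) (R : M.Rel 1) (i : ℕ) : (v.consR 1 R).r 0 i = v.r 0 i :=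
  v.consR_ne (by decide) R i

@[simp] theorem Asg.consR_02 (v : Asg M) (R : M.Rel 2) (i : ℕ) : (v.consR 2 R).r 0 i = v.r 0 i :=
  v.consR_ne (by decide) R i

@[simp] theorem Asg.consR_10 (v : Asg M) (R : M.Rel 0) (i : ℕ) : (v.consR 0 R).r 1 i = v.r 1 i :=
  v.consR_ne (by decide) R i

@[simp] theorem Asg.consR_12 (v : Asg M) (R : M.Rel 2) (i : ℕ) : (v.consR 2 R).r 1 i = v.r 1 i :=
  v.consR_ne (by decide) R i

@[simp] theorem Asg.consR_20 (v : Asg M) (R : M.Rel 0) (i : ℕ) : (v.consR 0 R).r 2 i = v.r 2 i :=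
  v.consR_ne (by decide) R i

@[simp] theorem Asg.consR_21 (v : Asg M) (R : M.Rel 1) (i : ℕ) : (v.consR 1 R).r 2 i = v.r 2 i :=
  v.consR_ne (by decide) R i

@[simp] theorem Tm.val_var (v : Asg M) (i : ℕ) : (Tm.var i).val v = v.o i := rfl

@[simp] theorem Tm.val_ext (v : Asg M) (i : ℕ) : (Tm.ext i).val v = M.ext (v.r 0 i) := rfl

@[simp] theorem Fm.holds_eq (v : Asg M) (t s : Tm) :
    (Fm.eq t s).Holds v ↔ t.val v = s.val v := Iff.rfl

@[simp] theorem Fm.holds_rel (v : Asg M) (n i : ℕ) (t : Fin (n + 1) → Tm) :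
    (Fm.rel n i t).Holds v ↔ M.app (v.r n i) fun j => (t j).val v := Iff.rfl

@[simp] theorem Fm.holds_neg (v : Asg M) (φ : Fm) : (Fm.neg φ).Holds v ↔ ¬ φ.Holds v := Iff.rfl

@[simp] theorem Fm.holds_and (v : Asg M) (φ ψ : Fm) :
    (Fm.and φ ψ).Holds v ↔ φ.Holds v ∧ ψ.Holds v := Iff.rfl

@[simp] theorem Fm.holds_ex (v : Asg M) (φ : Fm) :
    (Fm.ex φ).Holds v ↔ ∃ x, φ.Holds (v.consO x) := Iff.rfl

@[simp] theorem Fm.holds_exR (v : Asg M) (n : ℕ) (φ : Fm) :
    (Fm.exR n φ).Holds v ↔ ∃ R, φ.Holds (v.consR n R) := Iff.rfl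

@[simp] theorem Fm.holds_all (v : Asg M) (φ : Fm) :
    (Fm.all φ).Holds v ↔ ∀ x, φ.Holds (v.consO x) := by
  simp [Fm.all]

@[simp] theorem Fm.holds_allR (v : Asg M) (n : ℕ) (φ : Fm) :
    (Fm.allR n φ).Holds v ↔ ∀ R, φ.Holds (v.consR n R) := by
  simp [Fm.allR]

@[simp] theorem Fm.holds_imp (v : Asg M) (φ ψ : Fm) :
    (Fm.imp φ ψ).Holds v ↔ (φ.Holds v → ψ.Holds v) := by
  simp [Fm.imp]

@[simp] theorem Fm.holds_iff (v : Asg M) (φ ψ : Fm) :
    (Fm.iff φ ψ).Holds v ↔ (φ.Holds v ↔ ψ.Holds v) := by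
  simp only [Fm.iff, holds_and, holds_imp]
  exact ⟨fun h => ⟨h.1, h.2⟩, fun h => ⟨h.1, h.2⟩⟩

/-- an assignment with prescribed values -/
theorem exists_asg (M : Str.{u}) : Nonempty (Asg M) :=
  ⟨⟨fun _ => Classical.choice M.neO, fun n _ => Classical.choice (M.neR n)⟩⟩

/-- the values of the first variables of a tuple assignment -/
@[simp] theorem Asg.tup_fin {n : ℕ} (v : Asg M) (a : Fin (n + 1) → M.Obj) (i : Fin (n + 1)) :
    (v.tup a).o i = a i := by
  simp only [Asg.tup, i.2, dif_pos, Fin.eta]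

theorem Asg.tup_ge {n i : ℕ} (v : Asg M) (a : Fin (n + 1) → M.Obj) (h : n + 1 ≤ i) :
    (v.tup a).o i = v.o i := by
  simp only [Asg.tup, not_lt.2 h, dif_neg, not_false_eq_true]

@[simp] theorem Asg.tup_r {n : ℕ} (v : Asg M) (a : Fin (n + 1) → M.Obj) : (v.tup a).r = v.r := rfl

namespace DeltaBL

variable (h : DeltaBL M)

include h

/-- arithmetical comprehension -/
theorem ca {n : ℕ} (φ : Fm) (hφ : φ.Arith) (v : Asg M) :
    ∃ R : M.Rel n, ∀ a : Fin (n + 1) → M.Obj, M.app R a ↔ φ.Holds (v.tup a) :=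
  h.comp n φ φ (.arith hφ) (.arith hφ) v fun _ => Iff.rfl

end DeltaBL

/-- coded relations of a model -/
def MCd (M : Str.{u}) : (n : ℕ) → ((Fin n → M.Obj) → Prop) → Prop
  | 0, _ => True
  | n + 1, P => ∃ R : M.Rel n, ∀ a : Fin (n + 1) → M.Obj, P a ↔ M.app R a

open Classical in
/-- extensions in a model -/
noncomputable def ME (M : Str.{u}) (P : M.Obj → Prop) : M.Obj :=
  if h : ∃ R : M.Rel 0, ∀ x, P x ↔ M.app R (fun _ => x) then M.ext h.choose
  else Classical.choice M.neO

theorem ME_eq (h : DeltaBL M) {P : M.Obj → Prop} {R : M.Rel 0}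
    (hR : ∀ x, P x ↔ M.app R fun _ => x) : ME M P = M.ext R := by
  have h1 : ∃ R : M.Rel 0, ∀ x, P x ↔ M.app R (fun _ => x) := ⟨R, hR⟩
  unfold ME
  rw [dif_pos h1, h.blv]
  intro x
  rw [← h1.choose_spec x, hR]

theorem app_one (R : M.Rel 0) (a : Fin 1 → M.Obj) : M.app R a ↔ M.app R fun _ => a 0 := by
  rw [show (fun _ => a 0) = a from by
    funext i
    refine Fin.cases ?_ (fun j => j.elim0) i
    rfl]

/-- the frame of a model -/
noncomputable def frame (h : DeltaBL M) : Frame M.Obj where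
  Cd := MCd M
  E := ME M
  eq' := by
    intro n i j
    cases n with
    | zero => trivial
    | succ n =>
      obtain ⟨v⟩ := exists_asg M
      obtain ⟨R, hR⟩ := h.ca (n := n) (.eq (.var i) (.var j)) trivial v
      exact ⟨R, fun a => by rw [hR]; simp⟩
  const' := by
    intro n i c
    cases n with
    | zero => trivial
    | succ n =>
      obtain ⟨v⟩ := exists_asg M
      obtain ⟨R, hR⟩ := h.ca (n := n) (.eq (.var i) (.var (n + 1))) trivial ⟨fun _ => c, v.r⟩
      exact ⟨R, fun a => by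
        rw [hR]
        simp [Asg.tup_ge]⟩
  neg' := by
    intro n P hP
    cases n with
    | zero => trivial
    | succ n =>
      obtain ⟨v⟩ := exists_asg M
      obtain ⟨R, hR⟩ := hP
      obtain ⟨S, hS⟩ := h.ca (n := n) (.neg (.rel n 0 fun i => .var i)) trivial (v.consR n R)
      exact ⟨S, fun a => by
        beta_reduce
        rw [hS, hR]
        simp⟩
  and' := by
    intro n P Q hP hQ
    cases n with
    | zero => trivial
    | succ n =>
      obtain ⟨v⟩ := exists_asg M
      obtain ⟨R, hR⟩ := hP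
      obtain ⟨R', hR'⟩ := hQ
      obtain ⟨S, hS⟩ := h.ca (n := n) (.and (.rel n 1 fun i => .var i) (.rel n 0 fun i => .var i))
        ⟨trivial, trivial⟩ ((v.consR n R).consR n R')
      exact ⟨S, fun a => by
        beta_reduce
        rw [hS, hR, hR']
        simp⟩
  ex' := by
    intro n P hP
    cases n with
    | zero => trivial
    | succ n =>
      obtain ⟨v⟩ := exists_asg M
      obtain ⟨R, hR⟩ := hP
      obtain ⟨S, hS⟩ := h.ca (n := n) (.ex (.rel (n + 1) 0
        (Fin.cons (.var 0) fun i => .var (i + 1)))) trivial (v.consR (n + 1) R)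
      refine ⟨S, fun a => ?_⟩
      rw [hS]
      simp only [Fm.holds_ex, Fm.holds_rel, Asg.consO_r, Asg.tup_r, Asg.consR_zero]
      refine exists_congr fun y => ?_
      rw [hR]
      have e : (fun j => ((Fin.cons (Tm.var 0) fun i : Fin (n + 1) => Tm.var (i + 1) :
          Fin (n + 1 + 1) → Tm) j).val (((v.consR (n + 1) R).tup a).consO y)) = Fin.cons y a := by
        funext j
        refine Fin.cases ?_ (fun i => ?_) j
        · simp
        · simp
      rw [e]
  sub' := by
    intro m n P e hP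
    cases n with
    | zero => trivial
    | succ n =>
      obtain ⟨v⟩ := exists_asg M
      cases m with
      | zero =>
        by_cases hp : P fun i => i.elim0
        · obtain ⟨S, hS⟩ := h.ca (n := n) (.eq (.var 0) (.var 0)) trivial v
          refine ⟨S, fun a => ?_⟩
          beta_reduce
          rw [hS, show (fun i => a (e i)) = fun i => i.elim0 from funext fun i => i.elim0]
          simp [hp]
        · obtain ⟨S, hS⟩ := h.ca (n := n) (.neg (.eq (.var 0) (.var 0))) trivial v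
          refine ⟨S, fun a => ?_⟩
          beta_reduce
          rw [hS, show (fun i => a (e i)) = fun i => i.elim0 from funext fun i => i.elim0]
          simp [hp]
      | succ m =>
        obtain ⟨R, hR⟩ := hP
        obtain ⟨S, hS⟩ := h.ca (n := n) (.rel m 0 fun i => .var (e i)) trivial (v.consR m R)
        refine ⟨S, fun a => ?_⟩
        beta_reduce
        rw [hS, hR]
        simp
  inj' := by
    intro P Q hP hQ he x
    obtain ⟨R, hR⟩ := hP
    obtain ⟨S, hS⟩ := hQ
    rw [ME_eq h fun x => hR fun _ => x, ME_eq h fun x => hS fun _ => x, h.blv] at he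
    have h1 := hR fun _ => x
    have h2 := hS fun _ => x
    exact h1.trans ((he x).trans h2.symm)
  abs' := by
    intro n P hP
    obtain ⟨v⟩ := exists_asg M
    obtain ⟨R, hR⟩ := hP
    let θ : Fm := .all (.iff (.rel 0 0 fun _ => .var 0)
      (.rel n (if n = 0 then 1 else 0) (Fin.cons (.var 0) fun i => .var (i + 2))))
    have hθ : ∀ (X : M.Rel 0) (a : Fin (n + 1) → M.Obj),
        θ.Holds (((v.consR n R).tup a).consR 0 X) ↔
          ∀ x, M.app X (fun _ => x) ↔ P (Fin.cons x fun i => a i.succ) := by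
      intro X a
      simp only [θ, Fm.holds_all, Fm.holds_iff, Fm.holds_rel, Asg.consO_r, Asg.consR_zero,
        Tm.val_var, Asg.consO_zero]
      refine forall_congr' fun x => ?_
      have e1 : (((v.consR n R).tup a).consR 0 X).r n (if n = 0 then 1 else 0) = R := by
        by_cases hn : n = 0
        · subst hn
          simp
        · rw [if_neg hn, Asg.consR_ne _ hn]
          simp
      have e : (fun j => ((Fin.cons (Tm.var 0) fun i : Fin n => Tm.var (i + 2) :
          Fin (n + 1) → Tm) j).val ((((v.consR n R).tup a).consR 0 X).consO x)) =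
            Fin.cons x fun i => a i.succ := by
        funext j
        refine Fin.cases ?_ (fun i => ?_) j
        · simp
        · have := (v.consR n R).tup_fin a i.succ
          simpa using this
      rw [e1, e, ← hR]
    have hX : ∀ a : Fin (n + 1) → M.Obj, ∃ X : M.Rel 0,
        ∀ x, M.app X (fun _ => x) ↔ P (Fin.cons x fun i => a i.succ) := by
      intro a
      obtain ⟨X, hX⟩ := h.ca (n := 0) (.rel n 0 (Fin.cons (.var 0) fun i => .var (i + 1))) trivial
        (⟨fun i => if hi : i < n + 1 then a ⟨i, hi⟩ else v.o i, (v.consR n R).r⟩)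
      refine ⟨X, fun x => ?_⟩
      rw [hX, hR]
      simp only [Fm.holds_rel, Asg.tup_r]
      have e : (fun j => ((Fin.cons (Tm.var 0) fun i : Fin n => Tm.var (i + 1) :
          Fin (n + 1) → Tm) j).val (Asg.tup (n := 0) (M := M)
            ⟨fun i => if hi : i < n + 1 then a ⟨i, hi⟩ else v.o i, (v.consR n R).r⟩
              fun _ => x)) = Fin.cons x fun i => a i.succ := by
        funext j
        refine Fin.cases ?_ (fun i => ?_) j
        · simp [Asg.tup]
        · simp [Asg.tup]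
          rfl
      rw [e]
      simp
    obtain ⟨S, hS⟩ := h.comp n (.exR 0 (.and θ (.eq (.var 0) (.ext 0))))
      (.allR 0 (.imp θ (.eq (.var 0) (.ext 0)))) (.exR (.arith (by
        simp [θ, Fm.Arith, Fm.all, Fm.iff, Fm.imp]))) (.allR (.arith (by
        simp [θ, Fm.Arith, Fm.all, Fm.iff, Fm.imp]))) (v.consR n R) (by
      intro a
      simp only [Fm.holds_exR, Fm.holds_allR, Fm.holds_and, Fm.holds_imp, hθ]
      obtain ⟨X, hX⟩ := hX a
      constructor
      · rintro ⟨Y, h1, h2⟩ Z h3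
        simp only [Fm.holds_eq, Tm.val_var, Tm.val_ext, Asg.consR_o, Asg.consR_zero] at h2 ⊢
        rw [h2, h.blv]
        intro x
        rw [h1, h3]
      · exact fun h1 => ⟨X, hX, h1 X hX⟩)
    refine ⟨S, fun a => ?_⟩
    rw [hS]
    simp only [Fm.holds_exR, Fm.holds_and, hθ]
    obtain ⟨X, hX⟩ := hX a
    constructor
    · intro h1
      refine ⟨X, hX, ?_⟩
      simp only [Fm.holds_eq, Tm.val_var, Tm.val_ext, Asg.consR_o, Asg.consR_zero]
      have h2 := (v.consR n R).tup_fin a 0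
      rw [Fin.val_zero] at h2
      rw [h2, h1, ME_eq h fun x => (hX x).symm]
    · rintro ⟨Y, h1, h2⟩
      simp only [Fm.holds_eq, Tm.val_var, Tm.val_ext, Asg.consR_o, Asg.consR_zero] at h2
      have h3 := (v.consR n R).tup_fin a 0
      rw [Fin.val_zero] at h3
      rw [← h3, h2, ME_eq h fun x => (h1 x).symm]

end Pool.Agent.Work.MP_de7025_lc
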