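import Pool.Agent.Work.MP_de7025_lc.Seg

/-!
# Numbers: the elements of segments
-/

set_option autoImplicit false

namespace Pool.Agent.Work.MP_de7025_lc

universe u

variable {D : Type u} {F : Frame D}

open Pool.Agent.Work.MP_de7025_lc.Frame

/-- numbers -/
def Nm (F : Frame D) (x : D) : Prop :=
  ∃ (I : Cl1 F) (lt : Cl2 F) (ap : Fn2 F), Seg I lt ap ∧ I x

/-- order of numbers -/
def Lt (F : Frame D) (x y : D) : Prop :=
  ∃ (I : Cl1 F) (lt : Cl2 F) (ap : Fn2 F), Seg I lt ap ∧ I x ∧ I y ∧ lt x y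

/-- order of numbers -/
def Le (F : Frame D) (x y : D) : Prop := Nm F y ∧ (Lt F x y ∨ x = y)

variable {I : Cl1 F} {lt : Cl2 F} {ap : Fn2 F}

theorem exists_seg2 {x y : D} (hx : Nm F x) (hy : Nm F y) :
    ∃ (I : Cl1 F) (lt : Cl2 F) (ap : Fn2 F), Seg I lt ap ∧ I x ∧ I y := by
  obtain ⟨I, lt, ap, h, h1⟩ := hx
  obtain ⟨I', lt', ap', h', h2⟩ := hy
  rcases h.comparable h' with h3 | h3
  · exact ⟨I', lt', ap', h', h3 x h1, h2⟩
  · exact ⟨I, lt, ap, h, h1, h3 y h2⟩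

theorem Seg.lt_iff (h : Seg I lt ap) {x y : D} (hy : I y) : Lt F x y ↔ I x ∧ lt x y := by
  constructor
  · rintro ⟨I', lt', ap', h', h1, h2, h3⟩
    exact (h.agree h' hy h2 x).2 ⟨h1, h3⟩
  · exact fun h1 => ⟨I, lt, ap, h, h1.1, hy, h1.2⟩

theorem Seg.nm (h : Seg I lt ap) {x : D} (hx : I x) : Nm F x := ⟨I, lt, ap, h, hx⟩

theorem Seg.le_iff (h : Seg I lt ap) {x y : D} (hy : I y) :
    Le F x y ↔ I x ∧ (lt x y ∨ x = y) := by
  unfold Le
  rw [h.lt_iff hy]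
  constructor
  · rintro ⟨-, h1 | rfl⟩
    · exact ⟨h1.1, Or.inl h1.2⟩
    · exact ⟨hy, Or.inr rfl⟩
  · rintro ⟨h1, h2 | rfl⟩
    · exact ⟨h.nm hy, Or.inl ⟨h1, h2⟩⟩
    · exact ⟨h.nm hy, Or.inr rfl⟩

/-- the one-point segment -/
theorem exists_seg (F : Frame D) :
    ∃ (I : Cl1 F) (lt : Cl2 F) (ap : Fn2 F), Seg I lt ap ∧ I F.o := by
  refine ⟨⟨fun x => x = F.o, Cd'.eq (Ft.proj 0) (Ft.const _)⟩, ⟨fun _ _ => False, Cd'.const _⟩,
    ⟨fun f _ => f, Ft.proj 0⟩, ⟨⟨⟨⟨_, rfl⟩, ?_, ?_, ?_, ?_, ?_⟩, ?_⟩, ?_, ?_⟩, rfl⟩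
  · exact fun _ _ h => h
  · exact fun _ _ _ _ _ _ h => h.elim
  · rintro x y rfl rfl
    exact Or.inr (Or.inl rfl)
  · rintro X ⟨x, hx, hX⟩
    exact ⟨x, hx, hX, fun _ _ _ h => h⟩
  · rintro X ⟨x, hx, hX⟩
    exact ⟨x, hx, hX, fun _ _ _ h => h⟩
  · intro g
    refine ⟨g F.o, ?_⟩
    rintro i rfl
    rfl
  · exact ⟨rfl, fun _ _ h => h⟩
  · exact fun _ _ hc => hc.2.2.1.elim

theorem nm_o : Nm F F.o := exists_seg F

theorem Lt.nm_left {x y : D} (h : Lt F x y) : Nm F x := by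
  obtain ⟨I, lt, ap, h, h1, h2, h3⟩ := h
  exact h.nm h1

theorem Lt.nm_right {x y : D} (h : Lt F x y) : Nm F y := by
  obtain ⟨I, lt, ap, h, h1, h2, h3⟩ := h
  exact h.nm h2

theorem Le.nm_left {x y : D} (h : Le F x y) : Nm F x := by
  rcases h.2 with h1 | rfl
  · exact h1.nm_left
  · exact h.1

theorem Lt.trans {x y z : D} (h1 : Lt F x y) (h2 : Lt F y z) : Lt F x z := by
  obtain ⟨I, lt, ap, h, -, hz, -⟩ := id h2
  rw [h.lt_iff hz] at h2
  rw [h.lt_iff h2.1] at h1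
  exact (h.lt_iff hz).2 ⟨h1.1, h.trans x y z h1.1 h2.1 hz h1.2 h2.2⟩

theorem lt_irr (x : D) : ¬ Lt F x x := by
  intro h1
  obtain ⟨I, lt, ap, h, hx, -, -⟩ := id h1
  exact h.irr x hx ((h.lt_iff hx).1 h1).2

theorem lt_tri {x y : D} (hx : Nm F x) (hy : Nm F y) : Lt F x y ∨ x = y ∨ Lt F y x := by
  obtain ⟨I, lt, ap, h, h1, h2⟩ := exists_seg2 hx hy
  rw [h.lt_iff h2, h.lt_iff h1]
  rcases h.tot x y h1 h2 with h3 | h3 | h3
  · exact Or.inl ⟨h1, h3⟩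
  · exact Or.inr (Or.inl h3)
  · exact Or.inr (Or.inr ⟨h2, h3⟩)

theorem Lt.le {x y : D} (h : Lt F x y) : Le F x y := ⟨h.nm_right, Or.inl h⟩

theorem Le.refl {x : D} (h : Nm F x) : Le F x x := ⟨h, Or.inr rfl⟩

theorem Le.trans {x y z : D} (h1 : Le F x y) (h2 : Le F y z) : Le F x z := by
  rcases h1.2 with h3 | rfl
  · rcases h2.2 with h4 | rfl
    · exact (h3.trans h4).le
    · exact h1
  · exact h2

theorem Lt.trans_le {x y z : D} (h1 : Lt F x y) (h2 : Le F y z) : Lt F x z := by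
  rcases h2.2 with h3 | rfl
  · exact h1.trans h3
  · exact h1

theorem Le.trans_lt {x y z : D} (h1 : Le F x y) (h2 : Lt F y z) : Lt F x z := by
  rcases h1.2 with h3 | rfl
  · exact h3.trans h2
  · exact h2

theorem le_or_lt {x y : D} (hx : Nm F x) (hy : Nm F y) : Le F x y ∨ Lt F y x := by
  rcases lt_tri hx hy with h | rfl | h
  · exact Or.inl h.le
  · exact Or.inl (Le.refl hx)
  · exact Or.inr h

theorem o_le {x : D} (hx : Nm F x) : Le F F.o x := by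
  obtain ⟨I, lt, ap, h, h1⟩ := hx
  rw [h.le_iff h1]
  refine ⟨h.bot.1, ?_⟩
  rcases h.bot_le h.bot h1 with h2 | h2
  · exact Or.inr h2
  · exact Or.inl h2

theorem nm_pred {x : D} (hx : Nm F (F.s x)) : Nm F x := by
  obtain ⟨I, lt, ap, h, h1⟩ := hx
  exact h.nm (h.cov_s h1).1

theorem lt_s_iff {x z : D} (hx : Nm F (F.s x)) : Lt F z (F.s x) ↔ Lt F z x ∨ z = x := by
  obtain ⟨I, lt, ap, h, h1⟩ := hx
  have hc := h.cov_s h1
  rw [h.lt_iff h1, h.lt_iff hc.1]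
  constructor
  · rintro ⟨h2, h3⟩
    rcases (h.lt_cov hc h2).1 h3 with h4 | h4
    · exact Or.inl ⟨h2, h4⟩
    · exact Or.inr h4
  · rintro (⟨h2, h3⟩ | rfl)
    · exact ⟨h2, (h.lt_cov hc h2).2 (Or.inl h3)⟩
    · exact ⟨hc.1, hc.2.2.1⟩

/-- the successor of a number which is below some number -/
theorem s_of_lt {x y : D} (h1 : Lt F x y) : Le F (F.s x) y := by
  obtain ⟨I, lt, ap, h, hy⟩ := h1.nm_right
  rw [h.lt_iff hy] at h1
  obtain ⟨z, hz⟩ := h.exists_succ h1.1 hy h1.2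
  have e := h.succ x z hz
  subst e
  rw [h.le_iff hy]
  refine ⟨hz.2.1, ?_⟩
  rcases (h.cov_lt hz hy).1 h1.2 with h2 | h2
  · exact Or.inl h2
  · exact Or.inr h2

/-- a number which is not zero is a successor -/
theorem exists_s {x : D} (hx : Nm F x) (h0 : x ≠ F.o) : ∃ y, Nm F y ∧ x = F.s y := by
  obtain ⟨I, lt, ap, h, h1⟩ := hx
  obtain ⟨z, hz⟩ := h.exists_pred' h1 (fun hb => h0 (h.bot_uniq hb h.bot))
  exact ⟨z, h.nm hz.1, h.succ z x hz⟩

/-- initial segments are coded -/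
theorem cd_le {b : D} (hb : Nm F b) : ∃ X : Cl1 F, ∀ x, X x ↔ Le F x b := by
  obtain ⟨I, lt, ap, h, h1⟩ := hb
  refine ⟨⟨fun x => I x ∧ (lt x b ∨ x = b), ?_⟩, fun x => (h.le_iff h1).symm⟩
  apply_rules (transparency := .reducible) (maxDepth := 1000) [Cd'.and, Cd'.or, Cd'.eq, Cd'.c1,
    Cd'.c2, Ft.proj, Ft.const]

/-- the order of an initial segment is coded -/
theorem cd_lt {b : D} (hb : Nm F b) : ∃ X : Cl2 F, ∀ x y, X x y ↔ Lt F x y ∧ Le F y b := by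
  obtain ⟨I, lt, ap, h, h1⟩ := hb
  refine ⟨⟨fun x y => (I x ∧ lt x y) ∧ I y ∧ (lt y b ∨ y = b), ?_⟩, fun x y => ?_⟩
  · apply_rules (transparency := .reducible) (maxDepth := 1000) [Cd'.and, Cd'.or, Cd'.eq, Cd'.c1,
      Cd'.c2, Ft.proj, Ft.const]
  · show (I x ∧ lt x y) ∧ I y ∧ (lt y b ∨ y = b) ↔ _
    rw [h.le_iff h1]
    constructor
    · rintro ⟨h2, h3, h4⟩
      exact ⟨(h.lt_iff h3).2 h2, h3, h4⟩
    · rintro ⟨h2, h3, h4⟩
      exact ⟨(h.lt_iff h3).1 h2, h3, h4⟩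

/-- induction up to `b` -/
theorem nm_ind {b : D} (hb : Nm F b) (P : Cl1 F) (h0 : P F.o)
    (hs : ∀ x, Lt F x b → P x → P (F.s x)) : P b := by
  obtain ⟨I, lt, ap, h, h1⟩ := hb
  refine h.ind (P := fun x => (lt x b ∨ x = b) → P x) ?_ h.bot (fun _ => h0) ?_ h1 (Or.inr rfl)
  · apply_rules (transparency := .reducible) (maxDepth := 1000) [Cd'.and, Cd'.or, Cd'.imp, Cd'.eq,
      Cd'.c1, Cd'.c2, Ft.proj, Ft.const]
  · intro x y hc ih hy
    have e := h.succ x y hc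
    subst e
    have hlt : lt x b := by
      rcases hy with h2 | rfl
      · exact h.trans _ _ _ hc.1 hc.2.1 h1 hc.2.2.1 h2
      · exact hc.2.2.1
    exact hs x ((h.lt_iff h1).2 ⟨hc.1, hlt⟩) (ih (Or.inl hlt))

/-! ### The power of a segment -/

/-- the data of the power of a segment -/
structure PW (I : Cl1 F) (lt : Cl2 F) (ap : Fn2 F) (en : Fn1 F) : Prop where
  seg : Seg I lt ap
  isEn : IsEn (PJ I ap) (ltJ I lt ap) en
  img : ∃ ap', Seg (im (PJ I ap) en) (imlt (PJ I ap) (ltJ I lt ap) en) ap'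

theorem Seg.pw (h : Seg I lt ap) : ∃ en, PW I lt ap en := by
  obtain ⟨ev, h1⟩ := h.power
  obtain ⟨en, h2⟩ := h1.exists_en
  exact ⟨en, h, h2, h1.seg h2⟩

namespace PW

variable {en : Fn1 F} (h : PW I lt ap en)

include h

theorem J_o : PJ I ap F.o ∧ ∀ i, ¬ Mem I ap i F.o := by
  have h1 := h.seg.sep (P := fun _ => False) (Cd'.const _)
  have e : (F.E fun i => I i ∧ False) = F.o := E_congr fun i => by simp
  rw [e] at h1
  exact ⟨h1.1, fun i hi => ((h1.2 i).1 hi).2⟩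

theorem J_s {i : D} (hi : I i) : PJ I ap (F.s i) ∧ ∀ j, Mem I ap j (F.s i) ↔ j = i := by
  have h1 := h.seg.sep (P := fun j => j = i) (Cd'.eq (Ft.proj 0) (Ft.const _))
  have e : (F.E fun j => I j ∧ j = i) = F.s i := E_congr fun j => by
    constructor
    · exact fun h2 => h2.2
    · rintro rfl
      exact ⟨hi, rfl⟩
  rw [e] at h1
  refine ⟨h1.1, fun j => ?_⟩
  rw [h1.2]
  constructor
  · exact fun h2 => h2.2
  · rintro rfl
    exact ⟨hi, rfl⟩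

theorem isBot_o : IsBot (PJ I ap) (ltJ I lt ap) F.o := by
  refine ⟨h.J_o.1, ?_⟩
  rintro c - ⟨i, -, -, h1, -⟩
  exact h.J_o.2 i h1

theorem en_o : en F.o = F.o := h.isEn.bot _ h.isBot_o

theorem inj {c c' : D} (hc : PJ I ap c) (hc' : PJ I ap c') (he : en c = en c') : c = c' :=
  h.isEn.inj h.seg.ordJ hc hc' he

theorem en_nm {c : D} (hc : PJ I ap c) : Nm F (en c) := by
  obtain ⟨ap', h1⟩ := h.img
  exact h1.nm ⟨c, hc, rfl⟩

theorem en_lt {c c' : D} (hc : PJ I ap c) (hc' : PJ I ap c') :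
    Lt F (en c) (en c') ↔ ltJ I lt ap c c' := by
  obtain ⟨ap', h1⟩ := h.img
  rw [h1.lt_iff ⟨c', hc', rfl⟩, imlt_iff (fun x y hx hy hxy => h.inj hx hy hxy) hc hc']
  exact ⟨fun h2 => h2.2, fun h2 => ⟨⟨c, hc, rfl⟩, h2⟩⟩

theorem s_lt {i j : D} (hi : I i) (hj : I j) : ltJ I lt ap (F.s i) (F.s j) ↔ lt i j := by
  have h1 := (h.J_s hi).2
  have h2 := (h.J_s hj).2
  constructor
  · rintro ⟨k, hk, h3, h4, h5⟩
    rw [h1] at h3
    rw [h2] at h4
    subst h4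
    rcases h.seg.tot i k hi hk with h6 | h6 | h6
    · exact h6
    · exact absurd h6.symm h3
    · have := h5 i hi h6
      rw [h1, h2] at this
      exact absurd (this.1 rfl).symm h3
  · intro h3
    refine ⟨j, hj, ?_, (h2 j).2 rfl, fun k hk hlt => ?_⟩
    · rw [h1]
      rintro rfl
      exact h.seg.irr _ hi h3
    · rw [h1, h2]
      constructor
      · rintro rfl
        exact absurd (h.seg.trans _ _ _ hk hj hk h3 hlt) (h.seg.irr _ hk)
      · rintro rfl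
        exact absurd hlt (h.seg.irr _ hk)

/-- growth -/
theorem growth {i : D} (hi : I i) : Lt F i (en (F.s i)) := by
  obtain ⟨ap', h1⟩ := h.img
  have key : im (PJ I ap) en i ∧ imlt (PJ I ap) (ltJ I lt ap) en i (en (F.s i)) := by
    refine h.seg.ind (P := fun i => im (PJ I ap) en i ∧
      imlt (PJ I ap) (ltJ I lt ap) en i (en (F.s i))) ?_ h.seg.bot ?_ ?_ hi
    · apply_rules (transparency := .reducible) (maxDepth := 1000) [Cd'.and, Cd'.or, Cd'.imp, Cd'.eq,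
        Cd'.c1, Cd'.c2, Ft.proj, Ft.const, Ft.f1, Ft.s]
    · have h2 := h.J_s h.seg.bot.1
      have h3 : Lt F (en F.o) (en (F.s F.o)) := (h.en_lt h.J_o.1 h2.1).2
        ⟨F.o, h.seg.bot.1, h.J_o.2 _, (h2.2 _).2 rfl, fun j hj hlt => by
          rw [h2.2]
          constructor
          · exact fun h4 => absurd h4 (h.J_o.2 j)
          · rintro rfl
            exact absurd hlt (h.seg.irr _ hj)⟩
      rw [h.en_o, h1.lt_iff ⟨F.s F.o, h2.1, rfl⟩] at h3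
      exact h3
    · rintro x y hc ⟨h2, h3⟩
      have e := h.seg.succ x y hc
      subst e
      have hx := h.J_s hc.1
      have hy := h.J_s hc.2.1
      have h4 : Lt F x (en (F.s x)) := (h1.lt_iff ⟨_, hx.1, rfl⟩).2 ⟨h2, h3⟩
      have h5 : Lt F (en (F.s x)) (en (F.s (F.s x))) :=
        (h.en_lt hx.1 hy.1).2 ((h.s_lt hc.1 hc.2.1).2 hc.2.2.1)
      have h6 : Lt F (F.s x) (en (F.s (F.s x))) := (s_of_lt h4).trans_lt h5
      exact (h1.lt_iff ⟨_, hy.1, rfl⟩).1 h6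
  exact (h1.lt_iff ⟨_, (h.J_s hi).1, rfl⟩).2 key

end PW

/-- numbers are closed under successor -/
theorem nm_s {x : D} (hx : Nm F x) : Nm F (F.s x) := by
  obtain ⟨I, lt, ap, h, h1⟩ := hx
  obtain ⟨en, hen⟩ := h.pw
  exact (s_of_lt (hen.growth h1)).nm_left

theorem lt_s {x : D} (hx : Nm F x) : Lt F x (F.s x) := (lt_s_iff (nm_s hx)).2 (Or.inr rfl)

theorem lt_s_iff_le {x z : D} (hx : Nm F x) : Lt F z (F.s x) ↔ Le F z x := by
  rw [lt_s_iff (nm_s hx)]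
  exact ⟨fun h => ⟨hx, h⟩, fun h => h.2⟩

theorem s_le_iff {x z : D} (hz : Nm F z) : Le F (F.s z) x ↔ Lt F z x := by
  constructor
  · exact fun h => (lt_s hz).trans_le h
  · exact s_of_lt

end Pool.Agent.Work.MP_de7025_lc
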