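import Pool.Agent.Work.MP_de7025_lc.Good

/-!
# The power of a good structure

`J` consists of the codes of the coded subclasses of `I`, ordered lexicographically (the greatest
element of `I` is the most significant one). It is again a good structure: functions on `J` are
coded by binary trees.
-/

set_option autoImplicit false

namespace Pool.Agent.Work.MP_de7025_lc

universe u

variable {D : Type u} {F : Frame D}

open Pool.Agent.Work.MP_de7025_lc.Frame

section defs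

variable (I : Cl1 F) (lt : Cl2 F) (ap : Fn2 F)

/-- the subset of `I` coded by `f` -/
def sb (f : D) : D := F.E fun i => I i ∧ ap f i = F.o

theorem ft_sb {n : ℕ} {t : (Fin n → D) → D} (ht : F.Ft t) : F.Ft fun a => sb I ap (t a) := by
  refine Ft.app1 (f := sb I ap) ?_ ht
  exact Ft.abs (Q := fun a i => I i ∧ ap (a 0) i = F.o) (by
    apply_rules (transparency := .reducible) (maxDepth := 1000) [Cd'.and, Cd'.eq, Ft.proj, Ft.const,
      Cd'.c1, Ft.f2])

/-- the codes of the subsets of `I` -/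
def PJ : Cl1 F := ⟨fun c => ∃ f, c = sb I ap f, by
  apply_rules (transparency := .reducible) (maxDepth := 1000) [Cd'.ex, Cd'.eq, Ft.proj, ft_sb]⟩

/-- membership -/
def Mem : Cl2 F := ⟨fun i c => ∃ f, c = sb I ap f ∧ I i ∧ ap f i = F.o, by
  apply_rules (transparency := .reducible) (maxDepth := 1000) [Cd'.and, Cd'.ex, Cd'.eq, Ft.proj,
    Ft.const, Cd'.c1, Ft.f2, ft_sb]⟩

/-- the lexicographic order -/
def ltJ : Cl2 F := ⟨fun c c' => ∃ i, I i ∧ ¬ Mem I ap i c ∧ Mem I ap i c' ∧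
    ∀ j, I j → lt i j → (Mem I ap j c ↔ Mem I ap j c'), by
  apply_rules (transparency := .reducible) (maxDepth := 1000) [Cd'.and, Cd'.ex, Cd'.not, Cd'.all,
    Cd'.imp, Cd'.iff, Cd'.c1, Cd'.c2, Ft.proj]⟩

end defs

variable {I : Cl1 F} {lt : Cl2 F} {ap : Fn2 F}

namespace Good

variable (h : Good I lt ap)

include h

theorem exists_code {P : D → Prop} (hP : F.Cd' (n := 1) fun a => P (a 0)) :
    ∃ f, ∀ i, I i → (ap f i = F.o ↔ P i) := by
  classical
  obtain ⟨f, hf⟩ := h.code ⟨fun i => if P i then F.o else F.s F.o, by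
    apply_rules (transparency := .reducible) (maxDepth := 1000) [Ft.cond, Cd'.eq, Ft.proj, Ft.const,
      Ft.f1, Ft.f2, Ft.f3]⟩
  refine ⟨f, fun i hi => ?_⟩
  rw [hf i hi]
  show (if P i then F.o else F.s F.o) = F.o ↔ P i
  split_ifs with h1
  · exact ⟨fun _ => h1, fun _ => rfl⟩
  · exact ⟨fun h2 => absurd h2 (s_ne_o _), fun h2 => absurd h2 h1⟩

omit h in
theorem mem_sb {i f : D} : Mem I ap i (sb I ap f) ↔ I i ∧ ap f i = F.o := by
  constructor
  · rintro ⟨f', h1, h2⟩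
    exact (E_inj (P := fun i => I i ∧ ap f i = F.o) (Q := fun i => I i ∧ ap f' i = F.o) (by
      apply_rules (transparency := .reducible) (maxDepth := 1000) [Cd'.and, Cd'.eq, Ft.proj, Ft.const,
      Cd'.c1, Ft.f2]) (by
      apply_rules (transparency := .reducible) (maxDepth := 1000) [Cd'.and, Cd'.eq, Ft.proj, Ft.const,
      Cd'.c1, Ft.f2]) h1 i).2 h2
  · exact fun h1 => ⟨f, rfl, h1⟩

omit h in
theorem mem_I {i c : D} (hc : Mem I ap i c) : I i := by
  obtain ⟨f, -, h1, -⟩ := hc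
  exact h1

theorem sep {P : D → Prop} (hP : F.Cd' (n := 1) fun a => P (a 0)) :
    PJ I ap (F.E fun i => I i ∧ P i) ∧ ∀ i, Mem I ap i (F.E fun i => I i ∧ P i) ↔ I i ∧ P i := by
  obtain ⟨f, hf⟩ := h.exists_code hP
  have e : (F.E fun i => I i ∧ P i) = sb I ap f := E_congr fun i => by
    constructor
    · exact fun h1 => ⟨h1.1, (hf i h1.1).2 h1.2⟩
    · exact fun h1 => ⟨h1.1, (hf i h1.1).1 h1.2⟩
  rw [e]
  refine ⟨⟨f, rfl⟩, fun i => ?_⟩
  rw [mem_sb]
  constructor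
  · exact fun h1 => ⟨h1.1, (hf i h1.1).1 h1.2⟩
  · exact fun h1 => ⟨h1.1, (hf i h1.1).2 h1.2⟩

omit h in
theorem ext {c c' : D} (hc : PJ I ap c) (hc' : PJ I ap c')
    (he : ∀ i, I i → (Mem I ap i c ↔ Mem I ap i c')) : c = c' := by
  obtain ⟨f, rfl⟩ := hc
  obtain ⟨f', rfl⟩ := hc'
  refine E_congr fun i => ?_
  constructor
  · exact fun h1 => mem_sb.1 ((he i h1.1).1 (mem_sb.2 h1))
  · exact fun h1 => mem_sb.1 ((he i h1.1).2 (mem_sb.2 h1))

/-- the greatest element of `I` with a given property -/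
theorem greatest {P : D → Prop} (hP : F.Cd' (n := 1) fun a => P (a 0)) (he : ∃ i, I i ∧ P i) :
    ∃ i, I i ∧ P i ∧ ∀ j, I j → lt i j → ¬ P j := by
  obtain ⟨m, h1, h2, h3⟩ := h.max ⟨P, hP⟩ he
  exact ⟨m, h1, h2, fun j hj hlt hp => h3 j hj hp hlt⟩

omit h in
theorem ltJ_irr (c : D) : ¬ ltJ I lt ap c c := by
  rintro ⟨i, -, h1, h2, -⟩
  exact h1 h2

theorem ltJ_tot {c c' : D} (hc : PJ I ap c) (hc' : PJ I ap c') :
    ltJ I lt ap c c' ∨ c = c' ∨ ltJ I lt ap c' c := by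
  by_cases he : ∀ i, I i → (Mem I ap i c ↔ Mem I ap i c')
  · exact Or.inr (Or.inl (ext hc hc' he))
  · push Not at he
    obtain ⟨i, h1, h2, h3⟩ := h.greatest (P := fun i => ¬ (Mem I ap i c ↔ Mem I ap i c')) (by
      apply_rules (transparency := .reducible) (maxDepth := 1000) [Cd'.not, Cd'.iff, Cd'.c2, Ft.proj,
        Ft.const]) (by
      obtain ⟨i, h1, h2⟩ := he
      exact ⟨i, h1, fun h3 => by tauto⟩)
    have h4 : ∀ j, I j → lt i j → (Mem I ap j c ↔ Mem I ap j c') := fun j hj hlt =>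
      not_not.1 (h3 j hj hlt)
    by_cases h5 : Mem I ap i c
    · right; right
      exact ⟨i, h1, fun h6 => h2 ⟨fun _ => h6, fun _ => h5⟩, h5, fun j hj hlt =>
        (h4 j hj hlt).symm⟩
    · left
      refine ⟨i, h1, h5, ?_, h4⟩
      by_contra h6
      exact h2 ⟨fun h => absurd h h5, fun h => absurd h h6⟩

theorem ltJ_trans {c c' c'' : D} (h1 : ltJ I lt ap c c') (h2 : ltJ I lt ap c' c'') :
    ltJ I lt ap c c'' := by
  obtain ⟨i, hi, a1, a2, a3⟩ := h1
  obtain ⟨k, hk, b1, b2, b3⟩ := h2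
  rcases h.tot i k hi hk with hik | rfl | hik
  · refine ⟨k, hk, fun hm => b1 ((a3 k hk hik).1 hm), b2, fun j hj hlt => ?_⟩
    rw [a3 j hj (h.trans i k j hi hk hj hik hlt), b3 j hj hlt]
  · exact absurd a2 b1
  · refine ⟨i, hi, a1, (b3 i hi hik).1 a2, fun j hj hlt => ?_⟩
    rw [a3 j hj hlt, b3 j hj (h.trans k i j hk hi hj hik hlt)]

/-- lexicographic order on the positions from `i` on -/
private def lt' (I : Cl1 F) (lt : Cl2 F) (ap : Fn2 F) (i c c' : D) : Prop :=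
  ∃ k, I k ∧ (k = i ∨ lt i k) ∧ ¬ Mem I ap k c ∧ Mem I ap k c' ∧
    ∀ j, I j → lt k j → (Mem I ap j c ↔ Mem I ap j c')

omit h in
private theorem cd_lt' {n : ℕ} {t s r : (Fin n → D) → D} (ht : F.Ft t) (hs : F.Ft s)
    (hr : F.Ft r) : F.Cd' fun a => lt' I lt ap (t a) (s a) (r a) := by
  refine Cd'.app3 (P := fun x y z => lt' I lt ap x y z) ?_ ht hs hr
  unfold lt'
  apply_rules (transparency := .reducible) (maxDepth := 1000) [Cd'.and, Cd'.or, Cd'.ex, Cd'.not,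
    Cd'.all, Cd'.imp, Cd'.iff, Cd'.eq, Cd'.c1, Cd'.c2, Ft.proj]

theorem ltJ_min (X : Cl1 F) (hX : ∃ c, PJ I ap c ∧ X c) :
    ∃ m, PJ I ap m ∧ X m ∧ ∀ c, PJ I ap c → X c → ¬ ltJ I lt ap c m := by
  obtain ⟨c₀, hc₀, hX₀⟩ := hX
  obtain ⟨b, hb⟩ := h.exists_bot
  obtain ⟨t, ht⟩ := h.exists_top
  have key : ∀ i, I i → ∃ c, PJ I ap c ∧ X c ∧ ∀ c', PJ I ap c' → X c' → ¬ lt' I lt ap i c' c := by
    intro i hi
    refine h.dind (P := fun i => ∃ c, PJ I ap c ∧ X c ∧ ∀ c', PJ I ap c' → X c' →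
      ¬ lt' I lt ap i c' c) ?_ ht ?_ ?_ hi
    · apply_rules (transparency := .reducible) (maxDepth := 1000) [Cd'.and, Cd'.or, Cd'.ex, Cd'.not,
        Cd'.all, Cd'.imp, Cd'.iff, Cd'.eq, Cd'.c1, Cd'.c2, Ft.proj, cd_lt']
    · by_cases h1 : ∃ c, PJ I ap c ∧ X c ∧ ¬ Mem I ap t c
      · obtain ⟨c, h2, h3, h4⟩ := h1
        refine ⟨c, h2, h3, ?_⟩
        rintro c' - - ⟨k, hk, h5 | h5, -, h6, -⟩
        · rw [h5] at h6
          exact h4 h6
        · exact ht.2 k hk h5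
      · push Not at h1
        refine ⟨c₀, hc₀, hX₀, ?_⟩
        rintro c' hc' hXc' ⟨k, hk, h5 | h5, h6, -, -⟩
        · rw [h5] at h6
          exact h6 (h1 c' hc' hXc')
        · exact ht.2 k hk h5
    · rintro y i hcov ⟨c, hc, hXc, hmin⟩
      by_cases h1 : ∃ c₁, PJ I ap c₁ ∧ X c₁ ∧ ¬ Mem I ap y c₁ ∧
          ∀ j, I j → lt y j → (Mem I ap j c₁ ↔ Mem I ap j c)
      · obtain ⟨c₁, h2, h3, h4, h5⟩ := h1
        refine ⟨c₁, h2, h3, ?_⟩
        rintro c' hc' hXc' ⟨k, hk, h6 | h6, h7, h8, h9⟩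
        · rw [h6] at h8
          exact h4 h8
        · refine hmin c' hc' hXc' ⟨k, hk, ?_, h7, (h5 k hk h6).1 h8, fun j hj hlt => ?_⟩
          · rcases (h.cov_lt hcov hk).1 h6 with h10 | h10
            · exact Or.inr h10
            · exact Or.inl h10.symm
          · rw [h9 j hj hlt, h5 j hj (h.trans y k j hcov.1 hk hj h6 hlt)]
      · push Not at h1
        refine ⟨c, hc, hXc, ?_⟩
        rintro c' hc' hXc' ⟨k, hk, h6 | h6, h7, h8, h9⟩
        · subst h6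
          obtain ⟨j, hj, h10, h11⟩ := h1 c' hc' hXc' h7
          have h12 := h9 j hj h10
          tauto
        · refine hmin c' hc' hXc' ⟨k, hk, ?_, h7, h8, h9⟩
          rcases (h.cov_lt hcov hk).1 h6 with h10 | h10
          · exact Or.inr h10
          · exact Or.inl h10.symm
  obtain ⟨c, h1, h2, h3⟩ := key b hb.1
  refine ⟨c, h1, h2, fun c' hc' hXc' hlt => h3 c' hc' hXc' ?_⟩
  obtain ⟨k, hk, h4, h5, h6⟩ := hlt
  refine ⟨k, hk, ?_, h4, h5, h6⟩
  rcases h.bot_le hb hk with h7 | h7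
  · exact Or.inl h7.symm
  · exact Or.inr h7

end Good

end Pool.Agent.Work.MP_de7025_lc
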