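import Pool.Agent.Work.MP_de7025_lc.Pow

/-!
# The power of a good structure is good
-/

set_option autoImplicit false

namespace Pool.Agent.Work.MP_de7025_lc

universe u

variable {D : Type u} {F : Frame D}

open Pool.Agent.Work.MP_de7025_lc.Frame

variable {I : Cl1 F} {lt : Cl2 F} {ap : Fn2 F}

/-- the complement -/
def compl (I : Cl1 F) (ap : Fn2 F) (c : D) : D := F.E fun i => I i ∧ ¬ Mem I ap i c

theorem ft_compl {n : ℕ} {t : (Fin n → D) → D} (ht : F.Ft t) :
    F.Ft fun a => compl I ap (t a) := by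
  refine Ft.app1 (f := compl I ap) ?_ ht
  exact Ft.abs (Q := fun a i => I i ∧ ¬ Mem I ap i (a 0)) (by
    apply_rules (transparency := .reducible) (maxDepth := 1000) [Cd'.and, Cd'.not, Ft.proj,
      Cd'.c1, Cd'.c2])

namespace Good

variable (h : Good I lt ap)

include h

theorem compl_spec (c : D) : PJ I ap (compl I ap c) ∧
    ∀ i, Mem I ap i (compl I ap c) ↔ I i ∧ ¬ Mem I ap i c :=
  h.sep (P := fun i => ¬ Mem I ap i c) (by
    apply_rules (transparency := .reducible) (maxDepth := 1000) [Cd'.not, Ft.proj, Ft.const,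
      Cd'.c2])

theorem ltJ_compl {c c' : D} : ltJ I lt ap (compl I ap c') (compl I ap c) ↔ ltJ I lt ap c c' := by
  have h1 := (h.compl_spec c).2
  have h2 := (h.compl_spec c').2
  constructor
  · rintro ⟨i, hi, h3, h4, h5⟩
    refine ⟨i, hi, ?_, ?_, fun j hj hlt => ?_⟩
    · have := (h1 i).1 h4
      exact this.2
    · by_contra h6
      exact h3 ((h2 i).2 ⟨hi, h6⟩)
    · have := h5 j hj hlt
      rw [h1, h2] at this
      tauto
  · rintro ⟨i, hi, h3, h4, h5⟩
    refine ⟨i, hi, ?_, ?_, fun j hj hlt => ?_⟩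
    · intro h6
      exact ((h2 i).1 h6).2 h4
    · exact (h1 i).2 ⟨hi, h3⟩
    · have := h5 j hj hlt
      rw [h1, h2]
      tauto

theorem compl_compl {c : D} (hc : PJ I ap c) : compl I ap (compl I ap c) = c := by
  refine ext (h.compl_spec _).1 hc fun i hi => ?_
  rw [(h.compl_spec _).2, (h.compl_spec _).2]
  tauto

theorem ltJ_max (X : Cl1 F) (hX : ∃ c, PJ I ap c ∧ X c) :
    ∃ m, PJ I ap m ∧ X m ∧ ∀ c, PJ I ap c → X c → ¬ ltJ I lt ap m c := by
  obtain ⟨c, hc, hXc⟩ := hX
  obtain ⟨m, h1, h2, h3⟩ := h.ltJ_min ⟨fun c => X (compl I ap c), by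
    apply_rules (transparency := .reducible) (maxDepth := 1000) [Cd'.c1, Ft.proj, ft_compl]⟩
    ⟨compl I ap c, (h.compl_spec c).1, by
      show X (compl I ap (compl I ap c))
      rw [h.compl_compl hc]
      exact hXc⟩
  refine ⟨compl I ap m, (h.compl_spec m).1, h2, fun c hc hXc hlt => ?_⟩
  refine h3 (compl I ap c) (h.compl_spec c).1 ?_ ?_
  · show X (compl I ap (compl I ap c))
    rw [h.compl_compl hc]
    exact hXc
  · rw [← h.compl_compl h1]
    exact h.ltJ_compl.2 hlt

theorem ordJ : Ord (PJ I ap) (ltJ I lt ap) where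
  ne := ⟨_, (h.compl_spec F.o).1⟩
  irr c _ := ltJ_irr c
  trans _ _ _ _ _ _ h1 h2 := h.ltJ_trans h1 h2
  tot _ _ hc hc' := h.ltJ_tot hc hc'
  min := h.ltJ_min
  max := h.ltJ_max

/-- remove a position -/
private def rem (I : Cl1 F) (ap : Fn2 F) (c i : D) : D := F.E fun j => I j ∧ (Mem I ap j c ∧ j ≠ i)

/-- add a position -/
private def ins (I : Cl1 F) (ap : Fn2 F) (c i : D) : D := F.E fun j => I j ∧ (Mem I ap j c ∨ j = i)

private theorem rem_spec (c i : D) : PJ I ap (rem I ap c i) ∧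
    ∀ j, Mem I ap j (rem I ap c i) ↔ I j ∧ (Mem I ap j c ∧ j ≠ i) :=
  h.sep (P := fun j => Mem I ap j c ∧ j ≠ i) (by
    apply_rules (transparency := .reducible) (maxDepth := 1000) [Cd'.and, Cd'.not, Ft.proj,
      Ft.const, Cd'.c2, Cd'.eq])

private theorem ins_spec (c i : D) : PJ I ap (ins I ap c i) ∧
    ∀ j, Mem I ap j (ins I ap c i) ↔ I j ∧ (Mem I ap j c ∨ j = i) :=
  h.sep (P := fun j => Mem I ap j c ∨ j = i) (by
    apply_rules (transparency := .reducible) (maxDepth := 1000) [Cd'.or, Cd'.not, Ft.proj,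
      Ft.const, Cd'.c2, Cd'.eq])

/-- the power structure is good -/
theorem power : ∃ ev : Fn2 F, Good (PJ I ap) (ltJ I lt ap) ev := by
  classical
  obtain ⟨b, hb⟩ := h.exists_bot
  obtain ⟨t, ht⟩ := h.exists_top
  obtain ⟨g, hg1, hg2⟩ := h.rev.recursion ht ⟨fun q => F.fst q, Ft.fst (Ft.proj 0)⟩
    ⟨fun q x v => if Mem I ap x (F.snd q) then F.snd v else F.fst v, by
      apply_rules (transparency := .reducible) (maxDepth := 1000) [Ft.cond, Cd'.c2, Ft.fst, Ft.snd,
        Ft.proj]⟩
  let ev : Fn2 F := ⟨fun t c => if Mem I ap b c then F.snd (g (F.pr t c) b)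
      else F.fst (g (F.pr t c) b), by
    apply_rules (transparency := .reducible) (maxDepth := 1000) [Ft.cond, Cd'.c2, Ft.fst, Ft.snd,
      Ft.proj, Ft.const, Ft.f2, Ft.pr]⟩
  have hev : ∀ t c, ev t c = if Mem I ap b c then F.snd (g (F.pr t c) b)
      else F.fst (g (F.pr t c) b) := fun t c => rfl
  refine ⟨ev, h.ordJ, fun G => ?_⟩
  have key : ∀ i, I i → ∀ c, PJ I ap c → ∃ t, ∀ c', PJ I ap c' →
      (∀ j, I j → lt i j → (Mem I ap j c ↔ Mem I ap j c')) → ∀ t₀, g (F.pr t₀ c') i = t →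
      ev t₀ c' = G c' := by
    intro i hi
    refine h.ind (P := fun i => ∀ c, PJ I ap c → ∃ t, ∀ c', PJ I ap c' →
      (∀ j, I j → lt i j → (Mem I ap j c ↔ Mem I ap j c')) → ∀ t₀, g (F.pr t₀ c') i = t →
      ev t₀ c' = G c') ?_ hb ?_ ?_ hi
    · apply_rules (transparency := .reducible) (maxDepth := 1000) [Cd'.and, Cd'.or, Cd'.ex, Cd'.not,
        Cd'.all, Cd'.imp, Cd'.iff, Cd'.eq, Cd'.c1, Cd'.c2, Ft.proj, Ft.f1, Ft.f2, Ft.pr]
    · intro c hc
      have h0 := h.rem_spec c b
      have h1 := h.ins_spec c b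
      refine ⟨F.pr (G (rem I ap c b)) (G (ins I ap c b)), fun c' hc' he t₀ ht₀ => ?_⟩
      rw [hev, ht₀, fst_pr, snd_pr]
      by_cases hm : Mem I ap b c'
      · rw [if_pos hm]
        have : ins I ap c b = c' := ext h1.1 hc' fun j hj => by
          rw [h1.2]
          rcases h.bot_le hb hj with rfl | hlt
          · exact ⟨fun _ => hm, fun _ => ⟨hj, Or.inr rfl⟩⟩
          · rw [he j hj hlt]
            constructor
            · rintro ⟨-, h2 | rfl⟩
              · exact h2
              · exact absurd hlt (h.irr _ hj)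
            · exact fun h2 => ⟨hj, Or.inl h2⟩
        rw [this]
      · rw [if_neg hm]
        have : rem I ap c b = c' := ext h0.1 hc' fun j hj => by
          rw [h0.2]
          rcases h.bot_le hb hj with rfl | hlt
          · exact ⟨fun h2 => absurd rfl h2.2.2, fun h2 => absurd h2 hm⟩
          · rw [he j hj hlt]
            constructor
            · exact fun h2 => h2.2.1
            · intro h2
              refine ⟨hj, h2, ?_⟩
              rintro rfl
              exact h.irr _ hj hlt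
        rw [this]
    · intro x y hcov ih c hc
      have h0 := h.rem_spec c y
      have h1 := h.ins_spec c y
      obtain ⟨t0, ht0⟩ := ih _ h0.1
      obtain ⟨t1, ht1⟩ := ih _ h1.1
      refine ⟨F.pr t0 t1, fun c' hc' he t₀ ht₀ => ?_⟩
      have h2 : g (F.pr t₀ c') x = if Mem I ap y c' then t1 else t0 := by
        rw [hg2 (F.pr t₀ c') y x (Ord.cov_rev.2 hcov), ht₀]
        show (if Mem I ap y (F.snd (F.pr t₀ c')) then F.snd (F.pr t0 t1) else F.fst (F.pr t0 t1)) = _
        rw [snd_pr, snd_pr, fst_pr]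
      by_cases hm : Mem I ap y c'
      · rw [if_pos hm] at h2
        refine ht1 c' hc' (fun j hj hlt => ?_) t₀ h2
        rw [h1.2]
        rcases (h.cov_lt hcov hj).1 hlt with h3 | rfl
        · rw [he j hj h3]
          constructor
          · rintro ⟨-, h4 | rfl⟩
            · exact h4
            · exact absurd h3 (h.irr _ hj)
          · exact fun h4 => ⟨hj, Or.inl h4⟩
        · exact ⟨fun _ => hm, fun _ => ⟨hj, Or.inr rfl⟩⟩
      · rw [if_neg hm] at h2
        refine ht0 c' hc' (fun j hj hlt => ?_) t₀ h2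
        rw [h0.2]
        rcases (h.cov_lt hcov hj).1 hlt with h3 | rfl
        · rw [he j hj h3]
          constructor
          · exact fun h4 => h4.2.1
          · intro h4
            refine ⟨hj, h4, ?_⟩
            rintro rfl
            exact h.irr _ hj h3
        · exact ⟨fun h4 => absurd rfl h4.2.2, fun h4 => absurd h4 hm⟩
  obtain ⟨tr, htr⟩ := key t ht.1 _ (h.compl_spec F.o).1
  refine ⟨tr, fun c hc => htr c hc (fun j hj hlt => absurd hlt (ht.2 j hj)) tr ?_⟩
  rw [hg1]
  exact fst_pr _ _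

end Good

end Pool.Agent.Work.MP_de7025_lc
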