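import Pool.Agent.Work.MP_de7025_lc.Pow2

/-!
# Enumerations and segments
-/

set_option autoImplicit false

namespace Pool.Agent.Work.MP_de7025_lc

universe u

variable {D : Type u} {F : Frame D}

open Pool.Agent.Work.MP_de7025_lc.Frame

variable {I : Cl1 F} {lt : Cl2 F} {ap : Fn2 F}

/-- `en` enumerates `I` -/
structure IsEn (I : Cl1 F) (lt : Cl2 F) (en : Fn1 F) : Prop where
  bot : ∀ b, IsBot I lt b → en b = F.o
  succ : ∀ x y, Cov I lt x y → en y = F.s (en x)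

/-- a segment: a good structure which starts with zero and in which successors are successors -/
structure Seg (I : Cl1 F) (lt : Cl2 F) (ap : Fn2 F) : Prop extends Good I lt ap where
  bot : IsBot I lt F.o
  succ : ∀ x y, Cov I lt x y → y = F.s x

theorem Good.exists_en (h : Good I lt ap) : ∃ en : Fn1 F, IsEn I lt en := by
  obtain ⟨b, hb⟩ := h.exists_bot
  obtain ⟨g, h1, h2⟩ := h.recursion hb ⟨fun _ => F.o, Ft.const _⟩ ⟨fun _ _ v => F.s v, Ft.s (Ft.proj 2)⟩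
  refine ⟨⟨fun x => g F.o x, Ft.f2 g (Ft.const _) (Ft.proj 0)⟩, fun b' hb' => ?_, fun x y hc => ?_⟩
  · rw [h.bot_uniq hb' hb]
    exact h1 F.o
  · exact h2 F.o x y hc

theorem IsEn.inj {en : Fn1 F} (he : IsEn I lt en) (h : Ord I lt) {x y : D} (hx : I x) (hy : I y)
    (hxy : en x = en y) : x = y := by
  obtain ⟨b, hb⟩ := h.exists_bot
  refine h.ind (P := fun x => ∀ y, I y → en x = en y → x = y) ?_ hb ?_ ?_ hx y hy hxy
  · apply_rules (transparency := .reducible) (maxDepth := 1000) [Cd'.and, Cd'.all, Cd'.imp, Cd'.eq,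
      Cd'.c1, Ft.proj, Ft.f1]
  · intro y hy h1
    by_contra hne
    obtain ⟨z, hz⟩ := h.exists_pred' hy (fun hb' => hne (h.bot_uniq hb hb'))
    rw [he.bot b hb, he.succ z y hz] at h1
    exact s_ne_o _ h1.symm
  · intro x x' hc ih y hy h1
    rw [he.succ x x' hc] at h1
    have hnb : ¬ IsBot I lt y := by
      intro hb'
      rw [he.bot y hb'] at h1
      exact s_ne_o _ h1
    obtain ⟨z, hz⟩ := h.exists_pred' hy hnb
    rw [he.succ z y hz] at h1
    have := ih z hz.1 (s_inj h1)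
    subst this
    exact h.cov_uniq hc hz

/-! ### Images -/

/-- the image of `I` -/
def im (I : Cl1 F) (e : Fn1 F) : Cl1 F := ⟨fun y => ∃ x, I x ∧ y = e x, by
  apply_rules (transparency := .reducible) (maxDepth := 1000) [Cd'.and, Cd'.ex, Cd'.eq,
      Cd'.c1, Ft.proj, Ft.f1]⟩

/-- the image of the order -/
def imlt (I : Cl1 F) (lt : Cl2 F) (e : Fn1 F) : Cl2 F :=
  ⟨fun y y' => ∃ x, ∃ x', I x ∧ I x' ∧ y = e x ∧ y' = e x' ∧ lt x x', by
  apply_rules (transparency := .reducible) (maxDepth := 1000) [Cd'.and, Cd'.ex, Cd'.eq,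
      Cd'.c1, Cd'.c2, Ft.proj, Ft.f1]⟩

section image

variable {e : Fn1 F} (inj : ∀ x y, I x → I y → e x = e y → x = y)

include inj

theorem imlt_iff {x y : D} (hx : I x) (hy : I y) : imlt I lt e (e x) (e y) ↔ lt x y := by
  constructor
  · rintro ⟨x', y', hx', hy', h1, h2, h3⟩
    rwa [inj x x' hx hx' h1, inj y y' hy hy' h2]
  · exact fun h => ⟨x, y, hx, hy, rfl, rfl, h⟩

theorem im_isBot {x : D} (hx : I x) : IsBot (im I e) (imlt I lt e) (e x) ↔ IsBot I lt x := by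
  constructor
  · rintro ⟨-, h2⟩
    exact ⟨hx, fun y hy hlt => h2 (e y) ⟨y, hy, rfl⟩ ((imlt_iff inj hy hx).2 hlt)⟩
  · rintro ⟨-, h2⟩
    refine ⟨⟨x, hx, rfl⟩, ?_⟩
    rintro _ ⟨y, hy, rfl⟩ hlt
    exact h2 y hy ((imlt_iff inj hy hx).1 hlt)

theorem im_cov {x y : D} (hx : I x) (hy : I y) :
    Cov (im I e) (imlt I lt e) (e x) (e y) ↔ Cov I lt x y := by
  constructor
  · rintro ⟨-, -, h3, h4⟩
    exact ⟨hx, hy, (imlt_iff inj hx hy).1 h3, fun z hz hc => h4 (e z) ⟨z, hz, rfl⟩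
      ⟨(imlt_iff inj hx hz).2 hc.1, (imlt_iff inj hz hy).2 hc.2⟩⟩
  · rintro ⟨-, -, h3, h4⟩
    refine ⟨⟨x, hx, rfl⟩, ⟨y, hy, rfl⟩, (imlt_iff inj hx hy).2 h3, ?_⟩
    rintro _ ⟨z, hz, rfl⟩ hc
    exact h4 z hz ⟨(imlt_iff inj hx hz).1 hc.1, (imlt_iff inj hz hy).1 hc.2⟩

theorem Ord.image (h : Ord I lt) : Ord (im I e) (imlt I lt e) where
  ne := by
    obtain ⟨x, hx⟩ := h.ne
    exact ⟨e x, x, hx, rfl⟩
  irr := by
    rintro _ ⟨x, hx, rfl⟩ hlt
    exact h.irr x hx ((imlt_iff inj hx hx).1 hlt)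
  trans := by
    rintro _ _ _ ⟨x, hx, rfl⟩ ⟨y, hy, rfl⟩ ⟨z, hz, rfl⟩ h1 h2
    rw [imlt_iff inj hx hy] at h1
    rw [imlt_iff inj hy hz] at h2
    rw [imlt_iff inj hx hz]
    exact h.trans x y z hx hy hz h1 h2
  tot := by
    rintro _ _ ⟨x, hx, rfl⟩ ⟨y, hy, rfl⟩
    rw [imlt_iff inj hx hy, imlt_iff inj hy hx]
    rcases h.tot x y hx hy with h1 | rfl | h1
    · exact Or.inl h1
    · exact Or.inr (Or.inl rfl)
    · exact Or.inr (Or.inr h1)
  min := by
    rintro X ⟨_, ⟨x, hx, rfl⟩, hX⟩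
    obtain ⟨m, h1, h2, h3⟩ := h.min ⟨fun z => X (e z), Cd'.c1 X (Ft.f1 e (Ft.proj 0))⟩ ⟨x, hx, hX⟩
    refine ⟨e m, ⟨m, h1, rfl⟩, h2, ?_⟩
    rintro _ ⟨y, hy, rfl⟩ hXy hlt
    exact h3 y hy hXy ((imlt_iff inj hy h1).1 hlt)
  max := by
    rintro X ⟨_, ⟨x, hx, rfl⟩, hX⟩
    obtain ⟨m, h1, h2, h3⟩ := h.max ⟨fun z => X (e z), Cd'.c1 X (Ft.f1 e (Ft.proj 0))⟩ ⟨x, hx, hX⟩
    refine ⟨e m, ⟨m, h1, rfl⟩, h2, ?_⟩
    rintro _ ⟨y, hy, rfl⟩ hXy hlt
    exact h3 y hy hXy ((imlt_iff inj h1 hy).1 hlt)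

theorem Good.image (h : Good I lt ap) : ∃ ap', Good (im I e) (imlt I lt e) ap' := by
  classical
  let iv : D → D := fun y => if h : ∃ x, I x ∧ y = e x then h.choose else F.o
  have hiv : ∀ x, I x → iv (e x) = x := by
    intro x hx
    have h1 : ∃ x', I x' ∧ e x = e x' := ⟨x, hx, rfl⟩
    show (if h : ∃ x', I x' ∧ e x = e x' then h.choose else F.o) = x
    rw [dif_pos h1]
    exact (inj x _ hx h1.choose_spec.1 h1.choose_spec.2).symm
  have hft : F.Ft (n := 1) fun a => iv (a 0) := by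
    refine Ft.ofGraph (Q := fun a y => (I y ∧ a 0 = e y) ∨ ((¬ ∃ x, I x ∧ a 0 = e x) ∧ y = F.o))
      ?_ fun a y => ?_
    · apply_rules (transparency := .reducible) (maxDepth := 1000) [Cd'.and, Cd'.or, Cd'.not,
        Cd'.ex, Cd'.eq, Cd'.c1, Ft.proj, Ft.const, Ft.f1]
    · by_cases h1 : ∃ x, I x ∧ a 0 = e x
      · obtain ⟨x, hx, h2⟩ := h1
        rw [h2, hiv x hx]
        constructor
        · rintro (⟨h3, h4⟩ | ⟨h3, -⟩)
          · exact inj y x h3 hx h4.symm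
          · exact absurd ⟨x, hx, rfl⟩ h3
        · rintro rfl
          exact Or.inl ⟨hx, rfl⟩
      · have e1 : iv (a 0) = F.o := dif_neg h1
        rw [e1]
        constructor
        · rintro (⟨h3, h4⟩ | ⟨-, h3⟩)
          · exact absurd ⟨y, h3, h4⟩ h1
          · exact h3
        · exact fun h3 => Or.inr ⟨h1, h3⟩
  refine ⟨⟨fun f y => ap f (iv y), Ft.f2 ap (Ft.proj 0) (Ft.app1 hft (Ft.proj 1))⟩,
    Ord.image inj h.toOrd, fun g => ?_⟩
  obtain ⟨f, hf⟩ := h.code ⟨fun x => g (e x), Ft.f1 g (Ft.f1 e (Ft.proj 0))⟩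
  refine ⟨f, ?_⟩
  rintro _ ⟨x, hx, rfl⟩
  show ap f (iv (e x)) = g (e x)
  rw [hiv x hx]
  exact hf x hx

end image

theorem Good.seg (h : Good I lt ap) {en : Fn1 F} (he : IsEn I lt en) :
    ∃ ap', Seg (im I en) (imlt I lt en) ap' := by
  have inj : ∀ x y, I x → I y → en x = en y → x = y := fun x y hx hy => he.inj h.toOrd hx hy
  obtain ⟨ap', h'⟩ := Good.image inj h
  refine ⟨ap', h', ?_, ?_⟩
  · obtain ⟨b, hb⟩ := h.exists_bot
    rw [← he.bot b hb]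
    exact (im_isBot inj hb.1).2 hb
  · rintro _ _ hc
    obtain ⟨x, hx, rfl⟩ := hc.1
    obtain ⟨y, hy, rfl⟩ := hc.2.1
    exact he.succ x y ((im_cov inj hx hy).1 hc)

namespace Seg

variable {I' : Cl1 F} {lt' : Cl2 F} {ap' : Fn2 F}

/-- the predecessor of a successor -/
theorem cov_s (h : Seg I lt ap) {x : D} (hx : I (F.s x)) : Cov I lt x (F.s x) := by
  have hnb : ¬ IsBot I lt (F.s x) := fun hb => s_ne_o x (h.bot_uniq hb h.bot)
  obtain ⟨z, hz⟩ := h.exists_pred' hx hnb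
  have := s_inj (h.succ z _ hz)
  rwa [← this] at hz

/-- two segments agree -/
theorem agree (h : Seg I lt ap) (h' : Seg I' lt' ap') {x : D} (hx : I x) (hx' : I' x) (y : D) :
    I y ∧ lt y x ↔ I' y ∧ lt' y x := by
  refine h.ind (P := fun x => I' x → ∀ y, (I y ∧ lt y x ↔ I' y ∧ lt' y x)) ?_ h.bot ?_ ?_ hx hx' y
  · apply_rules (transparency := .reducible) (maxDepth := 1000) [Cd'.and, Cd'.all, Cd'.imp, Cd'.iff,
      Cd'.c1, Cd'.c2, Ft.proj]
  · intro _ y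
    exact ⟨fun h1 => absurd h1.2 (h.bot.2 y h1.1), fun h1 => absurd h1.2 (h'.bot.2 y h1.1)⟩
  · intro u v hc ih hv y
    have e := h.succ u v hc
    subst e
    have hc' := h'.cov_s hv
    have := ih hc'.1 y
    constructor
    · rintro ⟨h1, h2⟩
      rcases (h.lt_cov hc h1).1 h2 with h3 | rfl
      · have h4 := this.1 ⟨h1, h3⟩
        exact ⟨h4.1, (h'.lt_cov hc' h4.1).2 (Or.inl h4.2)⟩
      · exact ⟨hc'.1, hc'.2.2.1⟩
    · rintro ⟨h1, h2⟩
      rcases (h'.lt_cov hc' h1).1 h2 with h3 | rfl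
      · have h4 := this.2 ⟨h1, h3⟩
        exact ⟨h4.1, (h.lt_cov hc h4.1).2 (Or.inl h4.2)⟩
      · exact ⟨hc.1, hc.2.2.1⟩

/-- two segments are comparable -/
theorem comparable (h : Seg I lt ap) (h' : Seg I' lt' ap') :
    (∀ x, I x → I' x) ∨ ∀ x, I' x → I x := by
  by_cases hI : ∀ x, I x → I' x
  · exact Or.inl hI
  · right
    push Not at hI
    obtain ⟨m, h1, h2, h3⟩ := h.min ⟨fun x => ¬ I' x, Cd'.not (Cd'.c1 I' (Ft.proj 0))⟩ hI
    have hnb : ¬ IsBot I lt m := by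
      intro hb
      have := h.bot_uniq hb h.bot
      subst this
      exact h2 h'.bot.1
    obtain ⟨x, hx⟩ := h.exists_pred' h1 hnb
    have e := h.succ x m hx
    subst e
    have hx' : I' x := by
      by_contra hn
      exact h3 x hx.1 hn hx.2.2.1
    have htop : ∀ y, I' y → lt' y x ∨ y = x := by
      intro y hy
      rcases h'.tot y x hy hx' with h4 | h4 | h4
      · exact Or.inl h4
      · exact Or.inr h4
      · obtain ⟨z, hz⟩ := h'.exists_succ hx' hy h4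
        have e := h'.succ x z hz
        subst e
        exact absurd hz.2.1 h2
    intro y hy
    rcases htop y hy with h4 | rfl
    · exact ((h.agree h' hx.1 hx' y).2 ⟨hy, h4⟩).1
    · exact hx.1

end Seg

end Pool.Agent.Work.MP_de7025_lc
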