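import Mathlib

/-!
# The theory `Δ¹₁-BL₀`, the theory EFA, and interpretations of EFA

* `Str`, `Fm`, `Fm.Holds`: structures and formulas of the signature `L_BL` and their semantics.
* `DeltaBL M`: the structure `M` is a model of `Δ¹₁-BL₀`.
* `ArStr`, `EFA A`: structures for `0, s, +, ·, exp, ≤`, and elementary arithmetic, that is
  Robinson's `Q`, the recursion equations of `exp x = 2 ^ x`, and induction for bounded formulas
  in which `exp` may occur.
* `Interp`, `Defines`: tuples of formulas, and a structure `A` defined by such a tuple in `M`.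
-/

set_option autoImplicit false

namespace Pool.Agent.Work.MP_de7025_lc

universe u

/-! ### The language of Basic Law V -/

/-- A structure for the signature `L_BL`. All sorts are nonempty. -/
structure Str where
  /-- the objects -/
  Obj : Type u
  /-- `Rel n` is the sort of `(n + 1)`-ary relations; `Rel 0` is the sort of sets -/
  Rel : ℕ → Type u
  /-- application of a relation to objects -/
  app : {n : ℕ} → Rel n → (Fin (n + 1) → Obj) → Prop
  /-- the function symbol `∂` -/
  ext : Rel 0 → Obj
  neO : Nonempty Obj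
  neR : ∀ n, Nonempty (Rel n)

/-- Terms of the object sort: the `i`-th object variable, and `∂ X` for the `i`-th set variable `X`.
Variables are de Bruijn indices. -/
inductive Tm
  | var (i : ℕ)
  | ext (i : ℕ)

/-- Formulas of `L_BL`. `rel n i t` is the `i`-th variable of the sort `Rel n` applied to the tuple
`t`; `ex` binds object variable `0`, and `exR n` binds variable `0` of the sort `Rel n`. -/
inductive Fm
  | eq (t s : Tm)
  | rel (n i : ℕ) (t : Fin (n + 1) → Tm)
  | neg (φ : Fm)
  | and (φ ψ : Fm)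
  | ex (φ : Fm)
  | exR (n : ℕ) (φ : Fm)

namespace Fm

/-- universal quantifier over objects -/
def all (φ : Fm) : Fm := neg (ex (neg φ))

/-- universal quantifier over relations -/
def allR (n : ℕ) (φ : Fm) : Fm := neg (exR n (neg φ))

/-- implication -/
def imp (φ ψ : Fm) : Fm := neg (and φ (neg ψ))

/-- equivalence -/
def iff (φ ψ : Fm) : Fm := and (imp φ ψ) (imp ψ φ)

/-- arithmetical formulas: no bound relation variables -/
def Arith : Fm → Prop
  | eq _ _ => True
  | rel _ _ _ => True
  | neg φ => Arith φ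
  | and φ ψ => Arith φ ∧ Arith ψ
  | ex φ => Arith φ
  | exR _ _ => False

/-- `Σ¹₁` formulas: relation quantifiers `∃ R₁ ... ∃ Rₖ` in front of an arithmetical formula -/
inductive Sigma11 : Fm → Prop
  | arith {φ : Fm} : Arith φ → Sigma11 φ
  | exR {n : ℕ} {φ : Fm} : Sigma11 φ → Sigma11 (Fm.exR n φ)

/-- `Π¹₁` formulas: relation quantifiers `∀ R₁ ... ∀ Rₖ` in front of an arithmetical formula -/
inductive Pi11 : Fm → Prop
  | arith {φ : Fm} : Arith φ → Pi11 φ
  | allR {n : ℕ} {φ : Fm} : Pi11 φ → Pi11 (Fm.allR n φ)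

end Fm

/-- an assignment of objects and relations to the variables -/
structure Asg (M : Str.{u}) where
  /-- values of the object variables -/
  o : ℕ → M.Obj
  /-- values of the relation variables -/
  r : (n : ℕ) → ℕ → M.Rel n

namespace Asg

variable {M : Str.{u}}

/-- new value for object variable `0`; the others are shifted -/
def consO (x : M.Obj) (v : Asg M) : Asg M :=
  ⟨fun i => Nat.casesOn i x v.o, v.r⟩

/-- new value for variable `0` of the sort `Rel n`; the others of this sort are shifted -/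
def consR (n : ℕ) (R : M.Rel n) (v : Asg M) : Asg M :=
  ⟨v.o, Function.update v.r n fun i => Nat.casesOn i R (v.r n)⟩

/-- the assignment in which the object variables `0, ..., n` have the values `a 0, ..., a n`, and all
other variables have the same values as in `v` -/
def tup {n : ℕ} (v : Asg M) (a : Fin (n + 1) → M.Obj) : Asg M :=
  ⟨fun i => if h : i < n + 1 then a ⟨i, h⟩ else v.o i, v.r⟩

end Asg

/-- value of a term -/
def Tm.val {M : Str.{u}} (v : Asg M) : Tm → M.Obj
  | var i => v.o i
  | ext i => M.ext (v.r 0 i)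

/-- truth of a formula -/
def Fm.Holds {M : Str.{u}} : Asg M → Fm → Prop
  | v, eq t s => t.val v = s.val v
  | v, rel n i t => M.app (v.r n i) fun j => (t j).val v
  | v, neg φ => ¬ Holds v φ
  | v, and φ ψ => Holds v φ ∧ Holds v ψ
  | v, ex φ => ∃ x : M.Obj, Holds (v.consO x) φ
  | v, exR n φ => ∃ R : M.Rel n, Holds (v.consR n R) φ

/-- `M` is a model of `Δ¹₁-BL₀`: Basic Law V, and comprehension for all pairs of a `Σ¹₁` formula `φ`
and a `Π¹₁` formula `ψ` (with arbitrary parameters) which are equivalent. -/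
structure DeltaBL (M : Str.{u}) : Prop where
  blv : ∀ X Y : M.Rel 0, M.ext X = M.ext Y ↔ ∀ x, M.app X (fun _ => x) ↔ M.app Y fun _ => x
  comp : ∀ (n : ℕ) (φ ψ : Fm), φ.Sigma11 → ψ.Pi11 → ∀ v : Asg M,
    (∀ a : Fin (n + 1) → M.Obj, φ.Holds (v.tup a) ↔ ψ.Holds (v.tup a)) →
      ∃ R : M.Rel n, ∀ a : Fin (n + 1) → M.Obj, M.app R a ↔ φ.Holds (v.tup a)

/-! ### Elementary arithmetic -/

/-- a structure for `0, s, +, ·, exp, ≤` -/
structure ArStr where
  /-- the elements -/
  C : Type u
  zero : C
  succ : C → C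
  add : C → C → C
  mul : C → C → C
  exp : C → C
  le : C → C → Prop

/-- terms in `n` variables -/
inductive ATm (n : ℕ)
  | var (i : Fin n)
  | zero
  | succ (t : ATm n)
  | add (t s : ATm n)
  | mul (t s : ATm n)
  | exp (t : ATm n)

/-- bounded formulas in `n` variables; `ball t φ` is `∀ x ≤ t, φ`, where `x` is variable `0` of `φ` -/
inductive BFm : ℕ → Type
  | eq {n : ℕ} (t s : ATm n) : BFm n
  | le {n : ℕ} (t s : ATm n) : BFm n
  | neg {n : ℕ} (φ : BFm n) : BFm n
  | and {n : ℕ} (φ ψ : BFm n) : BFm n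
  | ball {n : ℕ} (t : ATm n) (φ : BFm (n + 1)) : BFm n

/-- value of a term -/
def ATm.val {n : ℕ} (A : ArStr.{u}) (v : Fin n → A.C) : ATm n → A.C
  | var i => v i
  | zero => A.zero
  | succ t => A.succ (t.val A v)
  | add t s => A.add (t.val A v) (s.val A v)
  | mul t s => A.mul (t.val A v) (s.val A v)
  | exp t => A.exp (t.val A v)

/-- truth of a bounded formula -/
def BFm.Holds (A : ArStr.{u}) : {n : ℕ} → BFm n → (Fin n → A.C) → Prop
  | _, eq t s, v => t.val A v = s.val A v
  | _, le t s, v => A.le (t.val A v) (s.val A v)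
  | _, neg φ, v => ¬ φ.Holds A v
  | _, and φ ψ, v => φ.Holds A v ∧ ψ.Holds A v
  | _, ball t φ, v => ∀ x, A.le x (t.val A v) → φ.Holds A (Fin.cons x v)

/-- Elementary arithmetic (EFA, `IΔ₀(exp)`): the axioms of `Q`, the recursion equations of `2 ^ x`,
and induction for bounded formulas of the language with `exp`, with parameters. -/
structure EFA (A : ArStr.{u}) : Prop where
  succ_ne : ∀ x, A.succ x ≠ A.zero
  succ_inj : ∀ x y, A.succ x = A.succ y → x = y
  pred : ∀ x, x ≠ A.zero → ∃ w, x = A.succ w
  add_zero : ∀ x, A.add x A.zero = x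
  add_succ : ∀ x y, A.add x (A.succ y) = A.succ (A.add x y)
  mul_zero : ∀ x, A.mul x A.zero = A.zero
  mul_succ : ∀ x y, A.mul x (A.succ y) = A.add (A.mul x y) x
  le_iff : ∀ x y, A.le x y ↔ ∃ z, A.add x z = y
  exp_zero : A.exp A.zero = A.succ A.zero
  exp_succ : ∀ x, A.exp (A.succ x) = A.add (A.exp x) (A.exp x)
  ind : ∀ (n : ℕ) (φ : BFm (n + 1)) (v : Fin n → A.C), φ.Holds A (Fin.cons A.zero v) →
    (∀ x, φ.Holds A (Fin.cons x v) → φ.Holds A (Fin.cons (A.succ x) v)) →
      ∀ x, φ.Holds A (Fin.cons x v)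

/-! ### Interpretations -/

/-- The formulas of a (one-dimensional, relative) interpretation of the language of arithmetic in
`L_BL`. The arguments are the object variables `0, 1, ...`, the value of a function comes last. -/
structure Interp where
  dom : Fm
  zero : Fm
  succ : Fm
  add : Fm
  mul : Fm
  exp : Fm
  le : Fm

/-- The formulas `I` define (a copy of) the structure `A` in `M`. They hold or fail independently of
the values of all variables other than the arguments, so no parameters are used. -/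
def Defines (I : Interp) (M : Str.{u}) (A : ArStr.{u}) : Prop :=
  ∃ e : A.C → M.Obj, Function.Injective e ∧
    (∀ v : Asg M, I.dom.Holds v ↔ ∃ a, e a = v.o 0) ∧
    (∀ (v : Asg M) (a : A.C), v.o 0 = e a → (I.zero.Holds v ↔ A.zero = a)) ∧
    (∀ (v : Asg M) (a b : A.C), v.o 0 = e a → v.o 1 = e b → (I.succ.Holds v ↔ A.succ a = b)) ∧
    (∀ (v : Asg M) (a b c : A.C), v.o 0 = e a → v.o 1 = e b → v.o 2 = e c →
      (I.add.Holds v ↔ A.add a b = c)) ∧
    (∀ (v : Asg M) (a b c : A.C), v.o 0 = e a → v.o 1 = e b → v.o 2 = e c →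
      (I.mul.Holds v ↔ A.mul a b = c)) ∧
    (∀ (v : Asg M) (a b : A.C), v.o 0 = e a → v.o 1 = e b → (I.exp.Holds v ↔ A.exp a = b)) ∧
    ∀ (v : Asg M) (a b : A.C), v.o 0 = e a → v.o 1 = e b → (I.le.Holds v ↔ A.le a b)

end Pool.Agent.Work.MP_de7025_lc
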