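import Pool.Agent.Work.MP_de7025_lc.Thy

set_option autoImplicit false

/-!
# Robinson's Q, its formulas, and interpretations of the language of Basic Law V in Q (fixed file)

* `QStr`, `QAx`: structures for `0, s, +, ·, ≤` and the axioms of Q.
* `QFm`, `QFm.Holds`: first-order formulas of this signature and their semantics.
* `BLI`: tuples of formulas for a multi-dimensional relative interpretation of `L_BL` in the language of Q.
* `DefR`, `DefBL`: the structure `M` for `L_BL` is defined by such a tuple in `A`, without parameters.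
-/

namespace Pool.Agent.Work.MP_de7025_lc

/-- a structure for the signature `0, s, +, ·, ≤` -/
structure QStr where
  /-- the elements -/
  C : Type
  zero : C
  succ : C → C
  add : C → C → C
  mul : C → C → C
  le : C → C → Prop

/-- the axioms of Robinson's Q -/
structure QAx (A : QStr) : Prop where
  succ_ne : ∀ x, A.succ x ≠ A.zero
  succ_inj : ∀ x y, A.succ x = A.succ y → x = y
  pred : ∀ x, x ≠ A.zero → ∃ w, x = A.succ w
  add_zero : ∀ x, A.add x A.zero = x
  add_succ : ∀ x y, A.add x (A.succ y) = A.succ (A.add x y)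
  mul_zero : ∀ x, A.mul x A.zero = A.zero
  mul_succ : ∀ x y, A.mul x (A.succ y) = A.add (A.mul x y) x
  le_iff : ∀ x y, A.le x y ↔ ∃ z, A.add x z = y

/-- terms of the language of Q; the variables are de Bruijn indices -/
inductive QTm
  | var (i : ℕ)
  | zero
  | succ (t : QTm)
  | add (t s : QTm)
  | mul (t s : QTm)

/-- first-order formulas of the language of Q; `ex` binds variable `0` -/
inductive QFm
  | eq (t s : QTm)
  | le (t s : QTm)
  | neg (φ : QFm)
  | and (φ ψ : QFm)
  | ex (φ : QFm)

/-- value of a term under the assignment `E` -/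
def QTm.val (A : QStr) (E : ℕ → A.C) : QTm → A.C
  | .var i => E i
  | .zero => A.zero
  | .succ t => A.succ (t.val A E)
  | .add t s => A.add (t.val A E) (s.val A E)
  | .mul t s => A.mul (t.val A E) (s.val A E)

/-- truth of a formula under the assignment `E` -/
def QFm.Holds (A : QStr) : (ℕ → A.C) → QFm → Prop
  | E, .eq t s => t.val A E = s.val A E
  | E, .le t s => A.le (t.val A E) (s.val A E)
  | E, .neg φ => ¬ φ.Holds A E
  | E, .and φ ψ => φ.Holds A E ∧ ψ.Holds A E
  | E, .ex φ => ∃ x, φ.Holds A (fun i => Nat.casesOn i x E)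

/-- The data of a relative interpretation of the many-sorted language `L_BL` in the language of Q:
objects are `dO`-tuples, elements of the sort `Rel n` are `dR n`-tuples. The arguments of the formulas
are the variables `0, 1, ...`, in consecutive blocks. -/
structure BLI where
  /-- dimension of the object sort -/
  dO : ℕ
  /-- dimension of the sort `Rel n` -/
  dR : ℕ → ℕ
  /-- domain of the object sort (one object block) -/
  domO : QFm
  /-- equality of objects (two object blocks) -/
  eqO : QFm
  /-- domain of the sort `Rel n` (one block of the sort `Rel n`) -/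
  domR : ℕ → QFm
  /-- application (one block of the sort `Rel n`, then `n + 1` object blocks) -/
  app : ℕ → QFm
  /-- graph of `∂` (one block of the sort `Rel 0`, then one object block) -/
  ext : QFm

/-- `rO x o`: the tuple `x` represents the object `o`; `rR n x R`: the tuple `x` represents `R`.
The formulas of `ι` define `M` in `A`. They hold or fail independently of the values of all variables
other than the arguments, so no parameters are used; equality of objects need not be absolute. -/
structure DefR (ι : BLI) (A : QStr) (M : Str.{0}) (rO : (Fin ι.dO → A.C) → M.Obj → Prop)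
    (rR : ∀ n, (Fin (ι.dR n) → A.C) → M.Rel n → Prop) : Prop where
  surO : ∀ o, ∃ x, rO x o
  fnO : ∀ x o o', rO x o → rO x o' → o = o'
  surR : ∀ n R, ∃ x, rR n x R
  fnR : ∀ n x R R', rR n x R → rR n x R' → R = R'
  domO : ∀ (E : ℕ → A.C) (x : Fin ι.dO → A.C), (∀ j : Fin ι.dO, E j = x j) →
    (ι.domO.Holds A E ↔ ∃ o, rO x o)
  eqO : ∀ (E : ℕ → A.C) (x y : Fin ι.dO → A.C) (o o' : M.Obj), (∀ j : Fin ι.dO, E j = x j) →
    (∀ j : Fin ι.dO, E (ι.dO + j) = y j) → rO x o → rO y o' → (ι.eqO.Holds A E ↔ o = o')
  domR : ∀ (n : ℕ) (E : ℕ → A.C) (x : Fin (ι.dR n) → A.C), (∀ j : Fin (ι.dR n), E j = x j) →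
    ((ι.domR n).Holds A E ↔ ∃ R, rR n x R)
  app : ∀ (n : ℕ) (E : ℕ → A.C) (X : Fin (ι.dR n) → A.C) (x : Fin (n + 1) → Fin ι.dO → A.C)
    (R : M.Rel n) (o : Fin (n + 1) → M.Obj), (∀ j : Fin (ι.dR n), E j = X j) →
    (∀ (k : Fin (n + 1)) (j : Fin ι.dO), E (ι.dR n + k * ι.dO + j) = x k j) →
    rR n X R → (∀ k, rO (x k) (o k)) → ((ι.app n).Holds A E ↔ M.app R o)
  ext : ∀ (E : ℕ → A.C) (X : Fin (ι.dR 0) → A.C) (x : Fin ι.dO → A.C) (R : M.Rel 0) (o : M.Obj),
    (∀ j : Fin (ι.dR 0), E j = X j) → (∀ j : Fin ι.dO, E (ι.dR 0 + j) = x j) → rR 0 X R → rO x o →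
    (ι.ext.Holds A E ↔ M.ext R = o)

/-- `ι` defines the structure `M` in `A` -/
def DefBL (ι : BLI) (A : QStr) (M : Str.{0}) : Prop :=
  ∃ (rO : (Fin ι.dO → A.C) → M.Obj → Prop) (rR : ∀ n, (Fin (ι.dR n) → A.C) → M.Rel n → Prop),
    DefR ι A M rO rR

end Pool.Agent.Work.MP_de7025_lc
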